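import Pool.Agent.Lib_helper92.RC.Dec

open scoped BigOperators ComplexOrder Kronecker MatrixOrder Topology
open MeasureTheory Set Matrix Filter

namespace Pool.Agent.RC.SER

open DEC

variable {ι : Type} [Fintype ι] [DecidableEq ι]

theorem exists_diag_eig {M : Matrix ι ι ℂ} (h : M.IsHermitian) :
    ∃ U : Matrix ι ι ℂ, U * Uᴴ = 1 ∧ Uᴴ * U = 1 ∧
      Uᴴ * M * U = Matrix.diagonal (fun i => (h.eigenvalues i : ℂ)) := by
  refine ⟨(h.eigenvectorUnitary : Matrix ι ι ℂ), ?_, ?_, ?_⟩
  · exact (Matrix.mem_unitaryGroup_iff).1 h.eigenvectorUnitary.2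
  · exact (Matrix.mem_unitaryGroup_iff').1 h.eigenvectorUnitary.2
  · have := h.conjStarAlgAut_star_eigenvectorUnitary
    rw [Unitary.conjStarAlgAut_star_apply] at this
    rw [← Matrix.star_eq_conjTranspose, this]
    rfl

theorem det_shift {M : Matrix ι ι ℂ} (h : M.IsHermitian) (r : ℝ) :
    (Bm M r).det = ((∏ i, (h.eigenvalues i + r) : ℝ) : ℂ) := by
  obtain ⟨U, h1, -, h3⟩ := exists_diag_eig h
  have e1 : Matrix.diagonal (fun i => ((h.eigenvalues i + r : ℝ) : ℂ)) =
      Matrix.diagonal (fun i => (h.eigenvalues i : ℂ)) + (r : ℂ) • (1 : Matrix ι ι ℂ) := by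
    ext i j
    by_cases hij : i = j
    · subst hij; simp
    · simp [hij]
  have e : Bm M r = U * (Matrix.diagonal (fun i => ((h.eigenvalues i + r : ℝ) : ℂ))) * Uᴴ := by
    rw [e1, ← h3]
    have e2 : U * (Uᴴ * M * U + (r : ℂ) • (1 : Matrix ι ι ℂ)) * Uᴴ =
        (U * Uᴴ) * M * (U * Uᴴ) + (r : ℂ) • (U * Uᴴ) := by
      rw [mul_add, add_mul, Matrix.mul_smul, Matrix.smul_mul, mul_one]
      congr 1
      noncomm_ring
    rw [e2, h1]
    simp [Bm]
  rw [e, Matrix.det_mul, Matrix.det_mul, mul_right_comm, ← Matrix.det_mul, h1]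
  simp

theorem det_add {A D : Matrix ι ι ℂ} {r : ℝ} {V W k : Matrix ι ι ℂ} {η : ι → ℝ}
    (hA : A.PosDef) (hr : 0 ≤ r) (h : NF A D r V W k η) :
    (Bm (A + D) r).det = (Bm A r).det * ((∏ i, (1 + η i) : ℝ) : ℂ) := by
  have e : Bm (A + D) r = Bm A r * (V * (1 + Matrix.diagonal (fun i => (η i : ℂ))) * W) := by
    rw [mul_add, add_mul, mul_one, ← h.hH, h.vw, mul_add, ← mul_assoc, mul_res hA hr]
    unfold Bm
    simp only [one_mul, mul_one]
    abel
  rw [e, Matrix.det_mul, Matrix.det_mul, Matrix.det_mul, mul_right_comm V.det, ← Matrix.det_mul,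
    h.vw, Matrix.det_one, one_mul]
  congr 1
  have e1 : (1 : Matrix ι ι ℂ) + Matrix.diagonal (fun i => (η i : ℂ)) =
      Matrix.diagonal (fun i => ((1 + η i : ℝ) : ℂ)) := by
    ext i j
    by_cases hij : i = j
    · subst hij; simp
    · simp [hij]
  rw [e1, Matrix.det_diagonal]
  simp

theorem det_sub {A D : Matrix ι ι ℂ} {r : ℝ} {V W k : Matrix ι ι ℂ} {η : ι → ℝ}
    (hA : A.PosDef) (hr : 0 ≤ r) (h : NF A D r V W k η) :
    (Bm (A - D) r).det = (Bm A r).det * ((∏ i, (1 - η i) : ℝ) : ℂ) := by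
  have e : Bm (A - D) r = Bm A r * (V * (1 - Matrix.diagonal (fun i => (η i : ℂ))) * W) := by
    rw [mul_sub, sub_mul, mul_one, ← h.hH, h.vw, mul_sub, ← mul_assoc, mul_res hA hr]
    unfold Bm
    simp only [one_mul, mul_one]
    abel
  rw [e, Matrix.det_mul, Matrix.det_mul, Matrix.det_mul, mul_right_comm V.det, ← Matrix.det_mul,
    h.vw, Matrix.det_one, one_mul]
  congr 1
  have e1 : (1 : Matrix ι ι ℂ) - Matrix.diagonal (fun i => (η i : ℂ)) =
      Matrix.diagonal (fun i => ((1 - η i : ℝ) : ℂ)) := by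
    ext i j
    by_cases hij : i = j
    · subst hij; simp
    · simp [hij]
  rw [e1, Matrix.det_diagonal]
  simp

/-- the pointwise series -/
theorem hasSum_tn {A D : Matrix ι ι ℂ} (h : IsPair A D) (hA : A.IsHermitian)
    (hp : (A + D).IsHermitian) (hq : (A - D).IsHermitian) {r : ℝ} (hr : 0 < r) :
    HasSum (fun m : ℕ => tn A D (2 * (m + 1)) r / ((m : ℝ) + 1))
      (2 * ∑ i, Real.log (hA.eigenvalues i + r) - ∑ i, Real.log (hp.eigenvalues i + r)
        - ∑ i, Real.log (hq.eigenvalues i + r)) := by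
  obtain ⟨V, W, k, η, hN⟩ := exists_NF h hr.le
  obtain ⟨c, hc, hcA⟩ := exists_bound h.pos
  have hη : ∀ i, |η i| < 1 := fun i => by
    refine lt_of_le_of_lt ((hN.le i).trans (hN.lc c hcA hc i)) ?_
    rw [div_lt_one (by positivity)]; linarith
  have hη2 : ∀ i, η i ^ 2 < 1 := fun i => by
    rw [← sq_abs]; exact pow_lt_one₀ (abs_nonneg _) (hη i) two_ne_zero
  have ha0 : ∀ i, 0 < hA.eigenvalues i + r := fun i => by
    have := h.pos.eigenvalues_pos i; linarith
  have hp0 : ∀ i, 0 < hp.eigenvalues i + r := fun i => by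
    have := h.add.eigenvalues_nonneg i; linarith
  have hq0 : ∀ i, 0 < hq.eigenvalues i + r := fun i => by
    have := h.sub.eigenvalues_nonneg i; linarith
  have e1 : (∏ i, (hp.eigenvalues i + r)) = (∏ i, (hA.eigenvalues i + r)) * ∏ i, (1 + η i) := by
    have := det_add h.pos hr.le hN
    rw [det_shift hp, det_shift hA] at this
    exact_mod_cast this
  have e2 : (∏ i, (hq.eigenvalues i + r)) = (∏ i, (hA.eigenvalues i + r)) * ∏ i, (1 - η i) := by
    have := det_sub h.pos hr.le hN
    rw [det_shift hq, det_shift hA] at this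
    exact_mod_cast this
  have hlt : ∀ i, 0 < 1 + η i ∧ 0 < 1 - η i := fun i => by
    have := abs_lt.1 (hη i); constructor <;> linarith
  have l1 := congrArg Real.log e1
  have l2 := congrArg Real.log e2
  rw [Real.log_mul (Finset.prod_pos fun i _ => ha0 i).ne'
    (Finset.prod_pos fun i _ => (hlt i).1).ne', Real.log_prod fun i _ => (hp0 i).ne',
    Real.log_prod fun i _ => (ha0 i).ne', Real.log_prod fun i _ => (hlt i).1.ne'] at l1
  rw [Real.log_mul (Finset.prod_pos fun i _ => ha0 i).ne'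
    (Finset.prod_pos fun i _ => (hlt i).2).ne', Real.log_prod fun i _ => (hq0 i).ne',
    Real.log_prod fun i _ => (ha0 i).ne', Real.log_prod fun i _ => (hlt i).2.ne'] at l2
  have hs : ∀ i, HasSum (fun m : ℕ => (η i ^ 2) ^ (m + 1) / ((m : ℝ) + 1))
      (-Real.log (1 - η i ^ 2)) := fun i => by
    apply Real.hasSum_pow_div_log_of_abs_lt_one
    rw [abs_of_nonneg (sq_nonneg _)]; exact hη2 i
  have hs' := hasSum_sum (s := Finset.univ) fun i _ => hs i
  have e3 : ∑ i, -Real.log (1 - η i ^ 2) = 2 * ∑ i, Real.log (hA.eigenvalues i + r) -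
      ∑ i, Real.log (hp.eigenvalues i + r) - ∑ i, Real.log (hq.eigenvalues i + r) := by
    have e4 : ∀ i, Real.log (1 - η i ^ 2) = Real.log (1 + η i) + Real.log (1 - η i) := fun i => by
      rw [← Real.log_mul (hlt i).1.ne' (hlt i).2.ne']; congr 1; ring
    rw [l1, l2, Finset.sum_neg_distrib, Finset.sum_congr rfl fun i _ => e4 i,
      Finset.sum_add_distrib]
    ring
  rw [← e3]
  convert hs' using 1
  funext m
  rw [trace_diag_pow hN, Finset.sum_div]
  apply Finset.sum_congr rfl
  intro i _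
  rw [← pow_mul]

theorem scal (φ : ℝ → ℝ) (hφ0 : φ 0 = 0) {α : ℝ} (h0 : 0 < α)
    (hint : IntegrableOn (fun r : ℝ => r ^ (α - 1) * φ (1 / r)) (Ioi 0)) {x : ℝ} (hx : 0 ≤ x) :
    IntegrableOn (fun r : ℝ => r ^ (α - 1) * φ (x / r)) (Ioi 0) ∧
    ∫ r in Ioi (0 : ℝ), r ^ (α - 1) * φ (x / r) =
      x ^ α * ∫ r in Ioi (0 : ℝ), r ^ (α - 1) * φ (1 / r) := by
  rcases hx.eq_or_lt with rfl | hx
  · have : (fun r : ℝ => r ^ (α - 1) * φ (0 / r)) = fun _ => 0 := by
      funext r; simp [hφ0]
    rw [this]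
    simp [Real.zero_rpow h0.ne']
  · have key : ∀ u ∈ Ioi (0 : ℝ), (x * u) ^ (α - 1) * φ (x / (x * u)) =
        x ^ (α - 1) * (u ^ (α - 1) * φ (1 / u)) := by
      intro u hu
      have hu0 : 0 < u := hu
      rw [Real.mul_rpow hx.le hu0.le, mul_assoc]
      congr 3
      field_simp
    have hint2 : IntegrableOn (fun u : ℝ => (x * u) ^ (α - 1) * φ (x / (x * u))) (Ioi 0) := by
      apply IntegrableOn.congr_fun (hint.const_mul (x ^ (α - 1))) _ measurableSet_Ioi
      intro u hu
      exact (key u hu).symm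
    constructor
    · have := (integrableOn_Ioi_comp_mul_left_iff (fun r : ℝ => r ^ (α - 1) * φ (x / r)) 0 hx).1
        hint2
      simpa using this
    · have h1 := integral_comp_mul_left_Ioi (fun r : ℝ => r ^ (α - 1) * φ (x / r)) 0 hx
      rw [mul_zero] at h1
      rw [setIntegral_congr_fun measurableSet_Ioi key, integral_const_mul, smul_eq_mul] at h1
      have h3 : x ^ α = x * x ^ (α - 1) := by
        rw [mul_comm, ← Real.rpow_add_one hx.ne']; congr 1; ring
      rw [h3, mul_assoc, h1]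
      field_simp

theorem cont_aux {α : ℝ} : ContinuousOn (fun r : ℝ => r ^ (α - 1)) (Ioi 0) := by
  intro r hr
  exact (Real.continuousAt_rpow_const _ _ (Or.inl (ne_of_gt hr))).continuousWithinAt

theorem cont_log : ContinuousOn (fun r : ℝ => Real.log (1 + 1 / r)) (Ioi 0) := by
  intro r hr
  have hr0 : (0 : ℝ) < r := hr
  apply ContinuousAt.continuousWithinAt
  apply ContinuousAt.log
  · exact continuousAt_const.add (continuousAt_const.div continuousAt_id hr0.ne')
  · positivity

theorem int_rpow_Ioc {s : ℝ} (hs : -1 < s) : IntegrableOn (fun r : ℝ => r ^ s) (Ioc 0 1) := by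
  have := intervalIntegral.intervalIntegrable_rpow' (a := 0) (b := 1) hs
  rwa [intervalIntegrable_iff_integrableOn_Ioc_of_le zero_le_one] at this

theorem int0 {α : ℝ} (h0 : 0 < α) (h1 : α < 1) :
    IntegrableOn (fun r : ℝ => r ^ (α - 1) * Real.log (1 + 1 / r)) (Ioi 0) := by
  have hc := (cont_aux (α := α)).mul cont_log
  rw [show Ioi (0 : ℝ) = Ioc 0 1 ∪ Ioi 1 from (Ioc_union_Ioi_eq_Ioi zero_le_one).symm]
  apply IntegrableOn.union
  · have hi := (int_rpow_Ioc (s := α / 2 - 1) (by linarith)).const_mul (2 ^ (α / 2) / (α / 2))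
    refine Integrable.mono hi ?_ ?_
    · exact (hc.mono (fun x hx => hx.1)).aestronglyMeasurable measurableSet_Ioc
    · rw [ae_restrict_iff' measurableSet_Ioc]
      refine Eventually.of_forall fun r hr => ?_
      have hr0 : 0 < r := hr.1
      have hl0 : 0 ≤ Real.log (1 + 1 / r) := Real.log_nonneg (by
        have : 0 < 1 / r := by positivity
        linarith)
      rw [Real.norm_eq_abs, Real.norm_eq_abs, abs_of_nonneg (by positivity),
        abs_of_nonneg (by positivity)]
      have hl : Real.log (1 + 1 / r) ≤ (2 / r) ^ (α / 2) / (α / 2) := by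
        calc Real.log (1 + 1 / r) ≤ Real.log (2 / r) := by
              apply Real.log_le_log (by positivity)
              rw [show (2 : ℝ) / r = 1 / r + 1 / r by ring]
              have : 1 ≤ 1 / r := by rw [le_div_iff₀ hr0]; linarith [hr.2]
              linarith
          _ ≤ _ := Real.log_le_rpow_div (by positivity) (by positivity)
      have h3 : r ^ (α / 2 - 1) = r ^ (α - 1) / r ^ (α / 2) := by
        rw [← Real.rpow_sub hr0]; congr 1; ring
      rw [h3]
      calc r ^ (α - 1) * Real.log (1 + 1 / r) ≤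
          r ^ (α - 1) * ((2 / r) ^ (α / 2) / (α / 2)) := by gcongr
        _ = _ := by rw [Real.div_rpow (by norm_num) hr0.le]; ring
  · have hi : IntegrableOn (fun r : ℝ => r ^ (α - 2)) (Ioi 1) :=
      integrableOn_Ioi_rpow_of_lt (by linarith) one_pos
    refine Integrable.mono hi ?_ ?_
    · exact (hc.mono (fun x (hx : x ∈ Ioi (1 : ℝ)) =>
        show x ∈ Ioi (0 : ℝ) from lt_trans one_pos (show (1 : ℝ) < x from hx))).aestronglyMeasurable
        measurableSet_Ioi
    · rw [ae_restrict_iff' measurableSet_Ioi]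
      refine Eventually.of_forall fun r hr => ?_
      have hr1 : (1 : ℝ) < r := hr
      have hr0 : 0 < r := by linarith
      have hl0 : 0 ≤ Real.log (1 + 1 / r) := Real.log_nonneg (by
        have : 0 < 1 / r := by positivity
        linarith)
      rw [Real.norm_eq_abs, Real.norm_eq_abs, abs_of_nonneg (by positivity),
        abs_of_nonneg (by positivity)]
      have hl : Real.log (1 + 1 / r) ≤ 1 / r := by
        have := Real.log_le_sub_one_of_pos (show 0 < 1 + 1 / r by positivity)
        linarith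
      have h3 : r ^ (α - 2) = r ^ (α - 1) / r := by
        rw [show α - 2 = α - 1 - 1 by ring, Real.rpow_sub hr0, Real.rpow_one]
      rw [h3]
      calc r ^ (α - 1) * Real.log (1 + 1 / r) ≤ r ^ (α - 1) * (1 / r) := by gcongr
        _ = _ := by ring

theorem int1 {α : ℝ} (h1 : 1 < α) (h2 : α < 2) :
    IntegrableOn (fun r : ℝ => r ^ (α - 1) * (Real.log (1 + 1 / r) - 1 / r)) (Ioi 0) := by
  have hcd : ContinuousOn (fun r : ℝ => 1 / r) (Ioi 0) := by
    intro r hr
    exact (continuousAt_const.div continuousAt_id (ne_of_gt hr)).continuousWithinAt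
  have hc := (cont_aux (α := α)).mul (cont_log.sub hcd)
  have hb : ∀ r : ℝ, 0 < r → |Real.log (1 + 1 / r) - 1 / r| ≤ 1 / r ∧
      |Real.log (1 + 1 / r) - 1 / r| ≤ 1 / r ^ 2 := by
    intro r hr0
    have ht : 0 < 1 / r := by positivity
    have hl : Real.log (1 + 1 / r) ≤ 1 / r := by
      have := Real.log_le_sub_one_of_pos (show 0 < 1 + 1 / r by positivity)
      linarith
    have hl0 : 0 ≤ Real.log (1 + 1 / r) := Real.log_nonneg (by linarith)
    have hl2 : 1 - (1 + 1 / r)⁻¹ ≤ Real.log (1 + 1 / r) :=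
      Real.one_sub_inv_le_log_of_pos (by positivity)
    have e : 1 / r - (1 - (1 + 1 / r)⁻¹) ≤ 1 / r ^ 2 := by
      have : 1 / r - (1 - (1 + 1 / r)⁻¹) = 1 / (r * (r + 1)) := by field_simp; ring
      rw [this]
      apply one_div_le_one_div_of_le (by positivity)
      nlinarith
    rw [abs_of_nonpos (by linarith)]
    constructor <;> linarith
  rw [show Ioi (0 : ℝ) = Ioc 0 1 ∪ Ioi 1 from (Ioc_union_Ioi_eq_Ioi zero_le_one).symm]
  apply IntegrableOn.union
  · have hi := (int_rpow_Ioc (s := α - 2) (by linarith))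
    refine Integrable.mono hi ?_ ?_
    · exact (hc.mono (fun x hx => hx.1)).aestronglyMeasurable measurableSet_Ioc
    · rw [ae_restrict_iff' measurableSet_Ioc]
      refine Eventually.of_forall fun r hr => ?_
      have hr0 : 0 < r := hr.1
      rw [Real.norm_eq_abs, Real.norm_eq_abs, abs_mul, abs_of_nonneg (a := r ^ (α - 1))
        (by positivity), abs_of_nonneg (a := r ^ (α - 2)) (by positivity)]
      have h3 : r ^ (α - 2) = r ^ (α - 1) * (1 / r) := by
        rw [show α - 2 = α - 1 - 1 by ring, Real.rpow_sub hr0, Real.rpow_one]; ring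
      rw [h3]
      have := (hb r hr0).1
      gcongr
  · have hi : IntegrableOn (fun r : ℝ => r ^ (α - 3)) (Ioi 1) :=
      integrableOn_Ioi_rpow_of_lt (by linarith) one_pos
    refine Integrable.mono hi ?_ ?_
    · exact (hc.mono (fun x (hx : x ∈ Ioi (1 : ℝ)) =>
        show x ∈ Ioi (0 : ℝ) from lt_trans one_pos (show (1 : ℝ) < x from hx))).aestronglyMeasurable
        measurableSet_Ioi
    · rw [ae_restrict_iff' measurableSet_Ioi]
      refine Eventually.of_forall fun r hr => ?_
      have hr1 : (1 : ℝ) < r := hr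
      have hr0 : 0 < r := by linarith
      rw [Real.norm_eq_abs, Real.norm_eq_abs, abs_mul, abs_of_nonneg (a := r ^ (α - 1))
        (by positivity), abs_of_nonneg (a := r ^ (α - 3)) (by positivity)]
      have h3 : r ^ (α - 3) = r ^ (α - 1) * (1 / r ^ 2) := by
        rw [show α - 3 = α - 1 - (2 : ℕ) by push_cast; ring, Real.rpow_sub hr0,
          Real.rpow_natCast]; ring
      rw [h3]
      have := (hb r hr0).2
      gcongr

theorem pos_integral {f : ℝ → ℝ} (hf : ∀ r, 0 < r → 0 < f r) (hi : IntegrableOn f (Ioi 0)) :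
    0 < ∫ r in Ioi (0 : ℝ), f r := by
  rw [setIntegral_pos_iff_support_of_nonneg_ae]
  · have : Function.support f ∩ Ioi 0 = Ioi 0 := by
      apply inter_eq_right.2
      intro r hr
      exact (hf r hr).ne'
    rw [this]
    simp
  · rw [EventuallyLE, ae_restrict_iff' measurableSet_Ioi]
    exact Eventually.of_forall fun r hr => (hf r hr).le
  · exact hi

/-- the scalar function and its constant -/
theorem exists_phi {α : ℝ} (h0 : 0 < α) (h2 : α < 2) (h1 : α ≠ 1) :
    ∃ (ε C : ℝ), C * (α - 1) < 0 ∧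
      IntegrableOn (fun r : ℝ => r ^ (α - 1) * (Real.log (1 + 1 / r) - ε * (1 / r))) (Ioi 0) ∧
      ∫ r in Ioi (0 : ℝ), r ^ (α - 1) * (Real.log (1 + 1 / r) - ε * (1 / r)) = C := by
  rcases lt_or_gt_of_ne h1 with h1 | h1
  · refine ⟨0, _, ?_, ?_, rfl⟩
    · apply mul_neg_of_pos_of_neg _ (by linarith)
      apply pos_integral
      · intro r hr
        have : 0 < Real.log (1 + 1 / r) := Real.log_pos (by
          have : 0 < 1 / r := by positivity
          linarith)
        have h3 : 0 < r ^ (α - 1) := by positivity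
        rw [zero_mul, sub_zero]
        positivity
      · simpa using int0 h0 h1
    · simpa using int0 h0 h1
  · refine ⟨1, _, ?_, ?_, rfl⟩
    · apply mul_neg_of_neg_of_pos _ (by linarith)
      have := pos_integral (f := fun r : ℝ => -(r ^ (α - 1) *
        (Real.log (1 + 1 / r) - 1 * (1 / r)))) ?_ ?_
      · rw [integral_neg] at this
        linarith
      · intro r hr
        have ht : 0 < 1 / r := by positivity
        have hl : Real.log (1 + 1 / r) < 1 / r := by
          have := Real.log_lt_sub_one_of_pos (show 0 < 1 + 1 / r by positivity) (by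
            intro h; linarith)
          linarith
        have h3 : 0 < r ^ (α - 1) := by positivity
        rw [one_mul, ← mul_neg]
        apply mul_pos h3
        linarith
      · simpa using (int1 h1 h2).neg
    · simpa using int1 h1 h2


theorem continuousOn_F {A D : Matrix ι ι ℂ} (hA : A.PosDef) (α : ℝ) (n : ℕ) :
    ContinuousOn (fun r => r ^ (α - 1) * tn A D n r) (Ioi 0) :=
  cont_aux.mul (continuousOn_tn hA n)

theorem main (α : ℝ) (h0 : 0 < α) (ε C : ℝ)
    (hint : IntegrableOn (fun r : ℝ => r ^ (α - 1) * (Real.log (1 + 1 / r) - ε * (1 / r))) (Ioi 0))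
    (hC : ∫ r in Ioi (0 : ℝ), r ^ (α - 1) * (Real.log (1 + 1 / r) - ε * (1 / r)) = C)
    {A D : Matrix ι ι ℂ} (h : IsPair A D) :
    HasSum (fun m : ℕ => In α A D (2 * (m + 1)) / ((m : ℝ) + 1)) (-(2 * C * G α A D)) := by
  have hA := h.pos.isHermitian
  have hp := h.add.isHermitian
  have hq := h.sub.isHermitian
  set φ : ℝ → ℝ := fun t => Real.log (1 + t) - ε * t with hφ
  have hφ0 : φ 0 = 0 := by simp [hφ]
  have sc := fun x (hx : 0 ≤ x) => scal φ hφ0 h0 hint hx
  have ha0 : ∀ i, 0 < hA.eigenvalues i := fun i => h.pos.eigenvalues_pos i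
  have hp0 : ∀ i, 0 ≤ hp.eigenvalues i := fun i => h.add.eigenvalues_nonneg i
  have hq0 : ∀ i, 0 ≤ hq.eigenvalues i := fun i => h.sub.eigenvalues_nonneg i
  -- total function
  set L : ℝ → ℝ := fun r => 2 * ∑ i, r ^ (α - 1) * φ (hA.eigenvalues i / r) -
    ∑ i, r ^ (α - 1) * φ (hp.eigenvalues i / r) - ∑ i, r ^ (α - 1) * φ (hq.eigenvalues i / r)
    with hL
  have iA : IntegrableOn (fun r : ℝ => ∑ i, r ^ (α - 1) * φ (hA.eigenvalues i / r)) (Ioi 0) :=
    integrable_finsetSum _ fun i _ => (sc _ (ha0 i).le).1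
  have iP : IntegrableOn (fun r : ℝ => ∑ i, r ^ (α - 1) * φ (hp.eigenvalues i / r)) (Ioi 0) :=
    integrable_finsetSum _ fun i _ => (sc _ (hp0 i)).1
  have iQ : IntegrableOn (fun r : ℝ => ∑ i, r ^ (α - 1) * φ (hq.eigenvalues i / r)) (Ioi 0) :=
    integrable_finsetSum _ fun i _ => (sc _ (hq0 i)).1
  have iL : IntegrableOn L (Ioi 0) := ((iA.const_mul 2).sub iP).sub iQ
  have eL : ∫ r in Ioi (0 : ℝ), L r = -(2 * C * G α A D) := by
    have e1 : ∫ r in Ioi (0 : ℝ), L r =
        2 * (∫ r in Ioi (0 : ℝ), ∑ i, r ^ (α - 1) * φ (hA.eigenvalues i / r)) -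
        (∫ r in Ioi (0 : ℝ), ∑ i, r ^ (α - 1) * φ (hp.eigenvalues i / r)) -
        ∫ r in Ioi (0 : ℝ), ∑ i, r ^ (α - 1) * φ (hq.eigenvalues i / r) := by
      have s1 : ∫ r in Ioi (0 : ℝ), L r = (∫ r in Ioi (0 : ℝ),
          (2 * ∑ i, r ^ (α - 1) * φ (hA.eigenvalues i / r) -
            ∑ i, r ^ (α - 1) * φ (hp.eigenvalues i / r))) -
          ∫ r in Ioi (0 : ℝ), ∑ i, r ^ (α - 1) * φ (hq.eigenvalues i / r) :=
        integral_sub ((iA.const_mul 2).sub iP) iQ
      have s2 : (∫ r in Ioi (0 : ℝ),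
          (2 * ∑ i, r ^ (α - 1) * φ (hA.eigenvalues i / r) -
            ∑ i, r ^ (α - 1) * φ (hp.eigenvalues i / r))) =
          (∫ r in Ioi (0 : ℝ), 2 * ∑ i, r ^ (α - 1) * φ (hA.eigenvalues i / r)) -
          ∫ r in Ioi (0 : ℝ), ∑ i, r ^ (α - 1) * φ (hp.eigenvalues i / r) :=
        integral_sub (iA.const_mul 2) iP
      rw [s1, s2, integral_const_mul]
    rw [e1, integral_finsetSum _ fun i _ => (sc _ (ha0 i).le).1,
      integral_finsetSum _ fun i _ => (sc _ (hp0 i)).1,
      integral_finsetSum _ fun i _ => (sc _ (hq0 i)).1,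
      Finset.sum_congr rfl fun i _ => (sc _ (ha0 i).le).2,
      Finset.sum_congr rfl fun i _ => (sc _ (hp0 i)).2,
      Finset.sum_congr rfl fun i _ => (sc _ (hq0 i)).2,
      ← Finset.sum_mul, ← Finset.sum_mul, ← Finset.sum_mul, hC]
    unfold G trF
    rw [dif_pos hA, dif_pos hp, dif_pos hq]
    ring
  -- traces
  have htr : ∑ i, hp.eigenvalues i + ∑ i, hq.eigenvalues i = 2 * ∑ i, hA.eigenvalues i := by
    have t1 := hA.trace_eq_sum_eigenvalues
    have t2 := hp.trace_eq_sum_eigenvalues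
    have t3 := hq.trace_eq_sum_eigenvalues
    rw [Matrix.trace_add, t1] at t2
    rw [Matrix.trace_sub, t1] at t3
    have : ((∑ i, hp.eigenvalues i + ∑ i, hq.eigenvalues i : ℝ) : ℂ) =
        ((2 * ∑ i, hA.eigenvalues i : ℝ) : ℂ) := by
      push_cast
      simp only [RCLike.ofReal_eq_complex_ofReal] at t2 t3
      rw [← t2, ← t3]
      ring
    exact_mod_cast this
  have hsum : ∀ r ∈ Ioi (0 : ℝ), HasSum (fun m : ℕ =>
      r ^ (α - 1) * tn A D (2 * (m + 1)) r / ((m : ℝ) + 1)) (L r) := by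
    intro r hr
    have hr0 : 0 < r := hr
    have h1 := (hasSum_tn h hA hp hq hr0).mul_left (r ^ (α - 1))
    have e2 : ∀ x : ℝ, 0 ≤ x → φ (x / r) = Real.log (x + r) - Real.log r - ε * x / r := by
      intro x hx
      simp only [hφ]
      rw [show 1 + x / r = (x + r) / r by field_simp; ring,
        Real.log_div (by positivity) hr0.ne']
      ring
    have e3 : L r = r ^ (α - 1) * (2 * ∑ i, Real.log (hA.eigenvalues i + r) -
        ∑ i, Real.log (hp.eigenvalues i + r) - ∑ i, Real.log (hq.eigenvalues i + r)) := by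
      have f1 : ∑ i, r ^ (α - 1) * φ (hA.eigenvalues i / r) = ∑ i, r ^ (α - 1) *
          (Real.log (hA.eigenvalues i + r) - Real.log r - ε * hA.eigenvalues i / r) :=
        Finset.sum_congr rfl fun i _ => by rw [e2 _ (ha0 i).le]
      have f2 : ∑ i, r ^ (α - 1) * φ (hp.eigenvalues i / r) = ∑ i, r ^ (α - 1) *
          (Real.log (hp.eigenvalues i + r) - Real.log r - ε * hp.eigenvalues i / r) :=
        Finset.sum_congr rfl fun i _ => by rw [e2 _ (hp0 i)]
      have f3 : ∑ i, r ^ (α - 1) * φ (hq.eigenvalues i / r) = ∑ i, r ^ (α - 1) *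
          (Real.log (hq.eigenvalues i + r) - Real.log r - ε * hq.eigenvalues i / r) :=
        Finset.sum_congr rfl fun i _ => by rw [e2 _ (hq0 i)]
      simp only [hL]
      rw [f1, f2, f3]
      simp only [← Finset.mul_sum, Finset.sum_sub_distrib, ← Finset.sum_div]
      have : ε * (∑ i, hp.eigenvalues i) / r + ε * (∑ i, hq.eigenvalues i) / r =
          2 * (ε * (∑ i, hA.eigenvalues i) / r) := by
        rw [← add_div, ← mul_add, htr]; ring
      linear_combination (r ^ (α - 1)) * this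
    rw [e3]
    refine h1.congr_fun ?_
    intro m
    ring
  have key := hasSum_integral_of_dominated_convergence (μ := volume.restrict (Ioi (0 : ℝ)))
    (F := fun (m : ℕ) r => r ^ (α - 1) * tn A D (2 * (m + 1)) r / ((m : ℝ) + 1)) (f := L)
    (fun (m : ℕ) r => r ^ (α - 1) * tn A D (2 * (m + 1)) r / ((m : ℝ) + 1))
    (fun m => (((continuousOn_F h.pos α (2 * (m + 1))).div_const _).aestronglyMeasurable
      measurableSet_Ioi))
    (fun m => by
      rw [ae_restrict_iff' measurableSet_Ioi]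
      refine Eventually.of_forall fun r hr => ?_
      have hr0 : 0 < r := hr
      have : 0 ≤ tn A D (2 * (m + 1)) r := tn_nonneg' h hr0.le (even_two_mul _)
      rw [Real.norm_eq_abs, abs_of_nonneg]
      positivity)
    (by
      rw [ae_restrict_iff' measurableSet_Ioi]
      exact Eventually.of_forall fun r hr => (hsum r hr).summable)
    (by
      refine iL.congr ?_
      rw [EventuallyEq, ae_restrict_iff' measurableSet_Ioi]
      exact Eventually.of_forall fun r hr => (hsum r hr).tsum_eq.symm)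
    (by
      rw [ae_restrict_iff' measurableSet_Ioi]
      exact Eventually.of_forall fun r hr => hsum r hr)
  rw [eL] at key
  refine key.congr_fun ?_
  intro m
  unfold In
  rw [integral_div]

end Pool.Agent.RC.SER

namespace Pool.Agent.RC

open SER

theorem series02 (α : ℝ) (h0 : 0 < α) (h2 : α < 2) (h1 : α ≠ 1) :
    ∃ c : ℝ, 0 < c * (α - 1) ∧ ∀ (ι : Type) [Fintype ι] [DecidableEq ι] (A D : Matrix ι ι ℂ),
      IsPair A D → HasSum (fun m : ℕ => In α A D (2 * (m + 1)) / (2 * ((m : ℝ) + 1)))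
        (G α A D / c) := by
  obtain ⟨ε, C, hneg, hint, hC⟩ := exists_phi h0 h2 h1
  have hC0 : C ≠ 0 := by
    rintro rfl; simp at hneg
  refine ⟨-1 / C, ?_, ?_⟩
  · rw [div_mul_eq_mul_div]
    have h3 : 0 < C * C := mul_self_pos.2 hC0
    have : -1 * (α - 1) / C = -(C * (α - 1)) / (C * C) := by field_simp
    rw [this]
    apply div_pos (by linarith) h3
  · intro ι _ _ A D h
    have := (main α h0 ε C hint hC h).mul_left (1 / 2)
    have e : 1 / 2 * -(2 * C * G α A D) = G α A D / (-1 / C) := by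
      field_simp
    rw [e] at this
    refine this.congr_fun ?_
    intro m
    field_simp

end Pool.Agent.RC
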