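import Pool.Agent.Lib_helper92.RC.Ser24

open scoped BigOperators ComplexOrder Kronecker MatrixOrder Topology
open MeasureTheory Set Matrix Filter

namespace Pool.Agent.RC.S24

open SER DEC

variable {ι : Type} [Fintype ι] [DecidableEq ι]

theorem const_rel {e : ℕ} (he : e = 0 ∨ e = 1) {α C : ℝ} (h1 : (e : ℝ) + 2 < α)
    (h2 : α < e + 3)
    (hC : ∫ r in Ioi (0 : ℝ), r ^ (α - 1 - 1 - 1) * φ2 e (1 / r) = (α - 1) * (α * C)) :
    (3 - α) * (α - 2) * ((α - 1) * (α * C)) = 6 * bet α 4 := by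
  obtain ⟨-, h⟩ := scalar_main he h1 h2 one_pos one_pos
  have e1 : ∫ r in Ioi (0 : ℝ), r ^ (α - 1) * FF e 1 1 (1 / r) =
      ∫ r in Ioi (0 : ℝ), r ^ (α - 1 - 1 - 1) * φ2 e (1 / r) := by
    apply setIntegral_congr_fun measurableSet_Ioi
    intro r hr
    have hr0 : (0 : ℝ) < r := hr
    have h3 : r ^ (α - 1) = r ^ (α - 1 - 1 - 1) * r ^ 2 := by
      rw [← Real.rpow_natCast r 2, ← Real.rpow_add hr0]; congr 1; push_cast; ring
    simp only
    rw [h3]
    unfold FF φ2 yy
    field_simp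
    ring
  have e2 : ∫ r in Ioi (0 : ℝ), r ^ (α - 1) * kq 1 1 r = 3 * bet α 4 := by
    unfold bet
    rw [← integral_const_mul]
    apply setIntegral_congr_fun measurableSet_Ioi
    intro r hr
    have hr0 : (0 : ℝ) < r := hr
    simp only [kq]
    field_simp
    ring
  rw [e1, hC, e2] at h
  linarith

theorem EB.trD2 {A D U E : Matrix ι ι ℂ} {a : ι → ℝ} (h : EB A D U E a) :
    ((D * D).trace).re = ∑ i, ∑ j, Complex.normSq (E i j) := by
  have e : D * D = U * (Matrix.diagonal (fun i => (((fun _ => 1) i : ℝ) : ℂ)) * E *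
      Matrix.diagonal (fun i => (((fun _ => 1) i : ℝ) : ℂ)) * E) * Uᴴ := by
    have : (Matrix.diagonal (fun i : ι => (((fun _ => 1) i : ℝ) : ℂ))) = 1 := by
      simp
    rw [this]
    conv_lhs => rw [h.hE]
    calc _ = U * E * (Uᴴ * U) * E * Uᴴ := by noncomm_ring
      _ = _ := by rw [h.u2]; noncomm_ring
  rw [e, tr_conj h, trace_four _ _ h.hH]
  simp

theorem EB.trAD2 {A D U E : Matrix ι ι ℂ} {a : ι → ℝ} (h : EB A D U E a) :
    ((A * D * D).trace).re = ∑ i, ∑ j, Complex.normSq (E i j) * ((a i + a j) / 2) := by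
  have e : A * D * D = U * (Matrix.diagonal (fun i => (a i : ℂ)) * E *
      Matrix.diagonal (fun i => (((fun _ => 1) i : ℝ) : ℂ)) * E) * Uᴴ := by
    have : (Matrix.diagonal (fun i : ι => (((fun _ => 1) i : ℝ) : ℂ))) = 1 := by
      simp
    rw [this]
    conv_lhs => rw [h.hE, h.hA]
    calc _ = U * Matrix.diagonal (fun i => (a i : ℂ)) * (Uᴴ * U) * E * (Uᴴ * U) * E * Uᴴ := by
          noncomm_ring
      _ = _ := by rw [h.u2]; noncomm_ring
  rw [e, tr_conj h, trace_four _ _ h.hH]
  have hsym : ∑ i, ∑ j, Complex.normSq (E i j) * (a i * 1) =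
      ∑ i, ∑ j, Complex.normSq (E i j) * (a j * 1) := by
    rw [Finset.sum_comm]
    apply Finset.sum_congr rfl
    intro i _
    apply Finset.sum_congr rfl
    intro j _
    have hk : E j i = star (E i j) := (h.hH.apply i j).symm ▸ by simp
    rw [hk, Complex.star_def, Complex.normSq_conj]
  have e2 : ∑ i, ∑ j, Complex.normSq (E i j) * ((a i + a j) / 2) =
      (∑ i, ∑ j, Complex.normSq (E i j) * (a i * 1) +
        ∑ i, ∑ j, Complex.normSq (E i j) * (a j * 1)) / 2 := by
    rw [← Finset.sum_add_distrib, Finset.sum_div]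
    apply Finset.sum_congr rfl
    intro i _
    rw [← Finset.sum_add_distrib, Finset.sum_div]
    apply Finset.sum_congr rfl
    intro j _
    ring
  rw [e2, ← hsym]
  ring

theorem sum_eig_pow {M : Matrix ι ι ℂ} (h : M.IsHermitian) (n : ℕ) :
    ∑ i, h.eigenvalues i ^ n = ((M ^ n).trace).re := by
  have := TRF.trF_poly (Polynomial.X ^ n) h
  simp only [Polynomial.eval_pow, Polynomial.eval_X, map_pow, Polynomial.aeval_X] at this
  rw [← this]
  unfold trF
  rw [dif_pos h]

theorem sums {A D : Matrix ι ι ℂ} (hA : A.IsHermitian) (hp : (A + D).IsHermitian)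
    (hq : (A - D).IsHermitian) :
    ∑ i, hp.eigenvalues i + ∑ i, hq.eigenvalues i = 2 * ∑ i, hA.eigenvalues i ∧
    ∑ i, hp.eigenvalues i ^ 2 + ∑ i, hq.eigenvalues i ^ 2 - 2 * ∑ i, hA.eigenvalues i ^ 2 =
      2 * ((D * D).trace).re ∧
    ∑ i, hp.eigenvalues i ^ 3 + ∑ i, hq.eigenvalues i ^ 3 - 2 * ∑ i, hA.eigenvalues i ^ 3 =
      6 * ((A * D * D).trace).re := by
  refine ⟨?_, ?_, ?_⟩
  · have h1 := sum_eig_pow hp 1
    have h2 := sum_eig_pow hq 1
    have h3 := sum_eig_pow hA 1
    simp only [pow_one] at h1 h2 h3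
    rw [h1, h2, h3, Matrix.trace_add, Matrix.trace_sub, Complex.add_re, Complex.sub_re]
    ring
  · rw [sum_eig_pow hp, sum_eig_pow hq, sum_eig_pow hA]
    have e1 : (A + D) ^ 2 + (A - D) ^ 2 = A ^ 2 + A ^ 2 + (D * D + D * D) := by noncomm_ring
    have e2 : ((A + D) ^ 2).trace + ((A - D) ^ 2).trace =
        (A ^ 2).trace + (A ^ 2).trace + ((D * D).trace + (D * D).trace) := by
      rw [← Matrix.trace_add, e1, Matrix.trace_add, Matrix.trace_add, Matrix.trace_add]
    have e3 := congrArg Complex.re e2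
    simp only [Complex.add_re] at e3
    linarith
  · rw [sum_eig_pow hp, sum_eig_pow hq, sum_eig_pow hA]
    have e1 : (A + D) ^ 3 + (A - D) ^ 3 = A ^ 3 + A ^ 3 + ((A * D * D + A * D * D) +
        (D * A * D + D * A * D) + (D * D * A + D * D * A)) := by noncomm_ring
    have t1 : (D * A * D).trace = (A * D * D).trace := by
      rw [mul_assoc, Matrix.trace_mul_comm]
    have t2 : (D * D * A).trace = (A * D * D).trace := by
      rw [Matrix.trace_mul_comm, ← mul_assoc]
    have e2 : ((A + D) ^ 3).trace + ((A - D) ^ 3).trace =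
        (A ^ 3).trace + (A ^ 3).trace + 6 * (A * D * D).trace := by
      rw [← Matrix.trace_add, e1]
      simp only [Matrix.trace_add]
      rw [t1, t2]
      ring
    have e3 := congrArg Complex.re e2
    simp only [Complex.add_re] at e3
    have e4 : (6 * (A * D * D).trace).re = 6 * ((A * D * D).trace).re := by
      simp
    rw [e4] at e3
    linarith

theorem main24 {e : ℕ} (he : e = 0 ∨ e = 1) {α C : ℝ} (h1 : (e : ℝ) + 2 < α) (h2 : α < e + 3)
    (hint : IntegrableOn (fun r : ℝ => r ^ (α - 1) * φ0 e (1 / r)) (Ioi 0))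
    (hC0 : ∫ r in Ioi (0 : ℝ), r ^ (α - 1) * φ0 e (1 / r) = C)
    (hC : ∫ r in Ioi (0 : ℝ), r ^ (α - 1 - 1 - 1) * φ2 e (1 / r) = (α - 1) * (α * C))
    {A D : Matrix ι ι ℂ} (h : IsPair A D) :
    HasSum (fun m : ℕ => In α A D (2 * (m + 2)) / ((m : ℝ) + 2))
      (-(2 * C * (G α A D - α * (α - 1) / 2 * T2 α A D))) := by
  have he0 : (0 : ℝ) ≤ e := Nat.cast_nonneg e
  have he1 : (e : ℝ) ≤ 1 := by
    rcases he with rfl | rfl <;> norm_num
  have h0 : 0 < α := by linarith
  have h4 : α < 4 := by linarith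
  have hA := h.pos.isHermitian
  have hp := h.add.isHermitian
  have hq := h.sub.isHermitian
  have hD : D.IsHermitian := by
    have := hp.sub hA
    simpa using this
  obtain ⟨U, E, a, hEB⟩ := exists_EB h.pos hD
  have hφ0 : φ0 e 0 = 0 := by simp [φ0]
  have sc := fun x (hx : 0 ≤ x) => scal (φ0 e) hφ0 h0 hint hx
  have ha0 : ∀ i, 0 < hA.eigenvalues i := fun i => h.pos.eigenvalues_pos i
  have hp0 : ∀ i, 0 ≤ hp.eigenvalues i := fun i => h.add.eigenvalues_nonneg i
  have hq0 : ∀ i, 0 ≤ hq.eigenvalues i := fun i => h.sub.eigenvalues_nonneg i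
  have sm := fun i j => scalar_main he h1 h2 (hEB.pos i) (hEB.pos j)
  -- pieces
  set fA : ℝ → ℝ := fun r => ∑ i, r ^ (α - 1) * φ0 e (hA.eigenvalues i / r) with hfA
  set fP : ℝ → ℝ := fun r => ∑ i, r ^ (α - 1) * φ0 e (hp.eigenvalues i / r) with hfP
  set fQ : ℝ → ℝ := fun r => ∑ i, r ^ (α - 1) * φ0 e (hq.eigenvalues i / r) with hfQ
  set fE : ℝ → ℝ := fun r => ∑ i, ∑ j, Complex.normSq (E i j) *
    (r ^ (α - 1) * FF e (a i) (a j) (1 / r)) with hfE
  have iA : IntegrableOn fA (Ioi 0) := integrable_finsetSum _ fun i _ => (sc _ (ha0 i).le).1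
  have iP : IntegrableOn fP (Ioi 0) := integrable_finsetSum _ fun i _ => (sc _ (hp0 i)).1
  have iQ : IntegrableOn fQ (Ioi 0) := integrable_finsetSum _ fun i _ => (sc _ (hq0 i)).1
  have iE : IntegrableOn fE (Ioi 0) := integrable_finsetSum _ fun i _ =>
    integrable_finsetSum _ fun j _ => (sm i j).1.const_mul _
  obtain ⟨c1, c2⟩ := int_comb iA iP iQ 2 (-1) (-1)
  have iL : IntegrableOn (fun r => (2 * fA r + -1 * fP r + -1 * fQ r) + fE r) (Ioi 0) := c1.add iE
  have vA : ∫ r in Ioi (0 : ℝ), fA r = (∑ i, hA.eigenvalues i ^ α) * C := by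
    rw [hfA, integral_finsetSum _ fun i _ => (sc _ (ha0 i).le).1,
      Finset.sum_congr rfl fun i _ => (sc _ (ha0 i).le).2, ← Finset.sum_mul, hC0]
  have vP : ∫ r in Ioi (0 : ℝ), fP r = (∑ i, hp.eigenvalues i ^ α) * C := by
    rw [hfP, integral_finsetSum _ fun i _ => (sc _ (hp0 i)).1,
      Finset.sum_congr rfl fun i _ => (sc _ (hp0 i)).2, ← Finset.sum_mul, hC0]
  have vQ : ∫ r in Ioi (0 : ℝ), fQ r = (∑ i, hq.eigenvalues i ^ α) * C := by
    rw [hfQ, integral_finsetSum _ fun i _ => (sc _ (hq0 i)).1,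
      Finset.sum_congr rfl fun i _ => (sc _ (hq0 i)).2, ← Finset.sum_mul, hC0]
  have hJ : ∫ r in Ioi (0 : ℝ), r ^ (α - 1) * j2 A D r =
      ∑ i, ∑ j, Complex.normSq (E i j) * ∫ r in Ioi (0 : ℝ), r ^ (α - 1) * kq (a i) (a j) r := by
    have e1 : ∫ r in Ioi (0 : ℝ), r ^ (α - 1) * j2 A D r =
        ∫ r in Ioi (0 : ℝ), ∑ i, ∑ j, Complex.normSq (E i j) *
          (r ^ (α - 1) * kq (a i) (a j) r) := by
      apply setIntegral_congr_fun measurableSet_Ioi
      intro r hr
      have hr0 : (0 : ℝ) < r := hr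
      simp only
      rw [hEB.j2 hr0.le, Finset.mul_sum]
      apply Finset.sum_congr rfl
      intro i _
      rw [Finset.mul_sum]
      apply Finset.sum_congr rfl
      intro j _
      ring
    rw [e1, integral_finsetSum _ fun i _ => integrable_finsetSum _ fun j _ =>
      (S24.integrableOn_kq h0 h4 (hEB.pos i) (hEB.pos j)).const_mul _]
    apply Finset.sum_congr rfl
    intro i _
    rw [integral_finsetSum _ fun j _ =>
      (S24.integrableOn_kq h0 h4 (hEB.pos i) (hEB.pos j)).const_mul _]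
    apply Finset.sum_congr rfl
    intro j _
    rw [integral_const_mul]
  have vE : (3 - α) * (α - 2) * ∫ r in Ioi (0 : ℝ), fE r =
      2 * ∫ r in Ioi (0 : ℝ), r ^ (α - 1) * j2 A D r := by
    rw [hJ, hfE, integral_finsetSum _ fun i _ => integrable_finsetSum _ fun j _ =>
      (sm i j).1.const_mul _, Finset.mul_sum, Finset.mul_sum]
    apply Finset.sum_congr rfl
    intro i _
    rw [integral_finsetSum _ fun j _ => (sm i j).1.const_mul _, Finset.mul_sum, Finset.mul_sum]
    apply Finset.sum_congr rfl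
    intro j _
    rw [integral_const_mul]
    have := (sm i j).2
    linear_combination (Complex.normSq (E i j)) * this
  have hbet : 0 < bet α 4 := S24.bet_pos' h0 (by exact_mod_cast h4)
  have hrel := const_rel he h1 h2 hC
  have hne : (3 - α) * (α - 2) ≠ 0 := by
    rcases he with rfl | rfl
    · push_cast at h1 h2
      exact mul_ne_zero (by linarith) (by linarith)
    · push_cast at h1 h2
      exact mul_ne_zero (by linarith) (by linarith)
  have vE2 : ∫ r in Ioi (0 : ℝ), fE r = (α - 1) * (α * C) * T2 α A D := by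
    have e1 : ∫ r in Ioi (0 : ℝ), r ^ (α - 1) * j2 A D r = 3 * bet α 4 * T2 α A D := by
      unfold T2; field_simp
    rw [e1] at vE
    apply mul_left_cancel₀ hne
    rw [vE]
    linear_combination (-(T2 α A D)) * hrel
  have eL : ∫ r in Ioi (0 : ℝ), ((2 * fA r + -1 * fP r + -1 * fQ r) + fE r) =
      -(2 * C * (G α A D - α * (α - 1) / 2 * T2 α A D)) := by
    have e1 : ∫ r in Ioi (0 : ℝ), ((2 * fA r + -1 * fP r + -1 * fQ r) + fE r) =
        (∫ r in Ioi (0 : ℝ), (2 * fA r + -1 * fP r + -1 * fQ r)) + ∫ r in Ioi (0 : ℝ), fE r :=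
      integral_add c1 iE
    rw [e1, c2, vA, vP, vQ, vE2]
    unfold G trF
    rw [dif_pos hA, dif_pos hp, dif_pos hq]
    ring
  obtain ⟨s1, s2, s3⟩ := sums hA hp hq
  have hsum : ∀ r ∈ Ioi (0 : ℝ), HasSum (fun m : ℕ =>
      r ^ (α - 1) * tn A D (2 * (m + 2)) r / ((m : ℝ) + 2))
      ((2 * fA r + -1 * fP r + -1 * fQ r) + fE r) := by
    intro r hr
    have hr0 : 0 < r := hr
    have g1 := hasSum_tn h hA hp hq hr0
    have g2 := (hasSum_nat_add_iff' 1).2 g1
    simp only [Finset.sum_range_one, Nat.cast_zero, zero_add, mul_one, div_one] at g2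
    have g3 := g2.mul_left (r ^ (α - 1))
    have e2 : ∀ x : ℝ, 0 ≤ x → Real.log (x + r) = φ0 e (x / r) + Real.log r + x / r -
        x ^ 2 * (1 / (2 * r ^ 2)) + x ^ 3 * (e / (3 * r ^ 3)) := by
      intro x hx
      unfold φ0
      rw [show 1 + x / r = (x + r) / r by field_simp; ring,
        Real.log_div (by positivity) hr0.ne']
      field_simp
      ring
    have eF : fE r = r ^ (α - 1) * (((D * D).trace).re / r ^ 2 -
        2 * e * ((A * D * D).trace).re / r ^ 3 - tn A D 2 r) := by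
      rw [hEB.trD2, hEB.trAD2, hEB.tn2 hr0.le, hfE]
      simp only
      have : ∀ i j, Complex.normSq (E i j) * (r ^ (α - 1) * FF e (a i) (a j) (1 / r)) =
          r ^ (α - 1) * (Complex.normSq (E i j) / r ^ 2 -
          2 * e * (Complex.normSq (E i j) * ((a i + a j) / 2)) / r ^ 3 -
          Complex.normSq (E i j) * (1 / (a i + r) * (1 / (a j + r)))) := by
        intro i j
        have := hEB.pos i
        have := hEB.pos j
        unfold FF yy
        field_simp
        ring
      simp only [this, ← Finset.mul_sum, Finset.sum_sub_distrib, ← Finset.sum_div]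
    have e3 : (2 * fA r + -1 * fP r + -1 * fQ r) + fE r = r ^ (α - 1) *
        (2 * ∑ i, Real.log (hA.eigenvalues i + r) -
        ∑ i, Real.log (hp.eigenvalues i + r) - ∑ i, Real.log (hq.eigenvalues i + r) -
          tn A D 2 r) := by
      have f1 : ∑ i, Real.log (hA.eigenvalues i + r) = ∑ i, (φ0 e (hA.eigenvalues i / r) +
          Real.log r + hA.eigenvalues i / r -
        hA.eigenvalues i ^ 2 * (1 / (2 * r ^ 2)) + hA.eigenvalues i ^ 3 * (e / (3 * r ^ 3))) :=
        Finset.sum_congr rfl fun i _ => e2 _ (ha0 i).le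
      have f2 : ∑ i, Real.log (hp.eigenvalues i + r) = ∑ i, (φ0 e (hp.eigenvalues i / r) +
          Real.log r + hp.eigenvalues i / r -
        hp.eigenvalues i ^ 2 * (1 / (2 * r ^ 2)) + hp.eigenvalues i ^ 3 * (e / (3 * r ^ 3))) :=
        Finset.sum_congr rfl fun i _ => e2 _ (hp0 i)
      have f3 : ∑ i, Real.log (hq.eigenvalues i + r) = ∑ i, (φ0 e (hq.eigenvalues i / r) +
          Real.log r + hq.eigenvalues i / r -
        hq.eigenvalues i ^ 2 * (1 / (2 * r ^ 2)) + hq.eigenvalues i ^ 3 * (e / (3 * r ^ 3))) :=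
        Finset.sum_congr rfl fun i _ => e2 _ (hq0 i)
      rw [f1, f2, f3, eF, hfA, hfP, hfQ]
      simp only [← Finset.mul_sum, Finset.sum_sub_distrib, Finset.sum_add_distrib,
        ← Finset.sum_div, ← Finset.sum_mul]
      have r1 : (∑ i, hp.eigenvalues i) / r + (∑ i, hq.eigenvalues i) / r =
          2 * ((∑ i, hA.eigenvalues i) / r) := by
        rw [← add_div, s1]; ring
      have r2 : ((∑ i, hp.eigenvalues i ^ 2) + (∑ i, hq.eigenvalues i ^ 2) -
          2 * (∑ i, hA.eigenvalues i ^ 2)) * (1 / (2 * r ^ 2)) = ((D * D).trace).re / r ^ 2 := by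
        rw [s2]; field_simp
      have r3 : ((∑ i, hp.eigenvalues i ^ 3) + (∑ i, hq.eigenvalues i ^ 3) -
          2 * (∑ i, hA.eigenvalues i ^ 3)) * (e / (3 * r ^ 3)) =
          2 * e * ((A * D * D).trace).re / r ^ 3 := by
        rw [s3]; field_simp; ring
      linear_combination (r ^ (α - 1)) * r1 - (r ^ (α - 1)) * r2 + (r ^ (α - 1)) * r3
    rw [e3]
    refine g3.congr_fun ?_
    intro m
    have : 2 * (m + 1 + 1) = 2 * (m + 2) := by ring
    rw [this]
    push_cast
    ring
  have key := hasSum_integral_of_dominated_convergence (μ := volume.restrict (Ioi (0 : ℝ)))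
    (F := fun (m : ℕ) r => r ^ (α - 1) * tn A D (2 * (m + 2)) r / ((m : ℝ) + 2))
    (f := fun r => (2 * fA r + -1 * fP r + -1 * fQ r) + fE r)
    (fun (m : ℕ) r => r ^ (α - 1) * tn A D (2 * (m + 2)) r / ((m : ℝ) + 2))
    (fun m => (((continuousOn_F h.pos α (2 * (m + 2))).div_const _).aestronglyMeasurable
      measurableSet_Ioi))
    (fun m => by
      rw [ae_restrict_iff' measurableSet_Ioi]
      refine Eventually.of_forall fun r hr => ?_
      have hr0 : 0 < r := hr
      have : 0 ≤ tn A D (2 * (m + 2)) r := tn_nonneg' h hr0.le (even_two_mul _)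
      rw [Real.norm_eq_abs, abs_of_nonneg]
      positivity)
    (by
      rw [ae_restrict_iff' measurableSet_Ioi]
      exact Eventually.of_forall fun r hr => (hsum r hr).summable)
    (by
      refine iL.congr ?_
      rw [EventuallyEq, ae_restrict_iff' measurableSet_Ioi]
      exact Eventually.of_forall fun r hr => (hsum r hr).tsum_eq.symm)
    (by
      rw [ae_restrict_iff' measurableSet_Ioi]
      exact Eventually.of_forall fun r hr => hsum r hr)
  rw [eL] at key
  refine key.congr_fun ?_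
  intro m
  unfold In
  rw [integral_div]

end Pool.Agent.RC.S24

namespace Pool.Agent.RC

open S24

theorem series24 (α : ℝ) (h2 : 2 < α) (h4 : α < 4) (h3 : α ≠ 3) :
    ∃ c : ℝ, 0 < c * (α - 3) ∧ ∀ (ι : Type) [Fintype ι] [DecidableEq ι] (A D : Matrix ι ι ℂ),
      IsPair A D → HasSum (fun m : ℕ => In α A D (2 * (m + 2)) / (2 * ((m : ℝ) + 2)))
        ((G α A D - α * (α - 1) / 2 * T2 α A D) / c) := by
  obtain ⟨e, he, hl, hu⟩ : ∃ e : ℕ, (e = 0 ∨ e = 1) ∧ (e : ℝ) + 2 < α ∧ α < e + 3 := by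
    rcases lt_or_gt_of_ne h3 with h | h
    · exact ⟨0, Or.inl rfl, by push_cast; linarith, by push_cast; linarith⟩
    · exact ⟨1, Or.inr rfl, by push_cast; linarith, by push_cast; linarith⟩
  obtain ⟨C, hneg, hint, hC0, -, -, -, hC⟩ := consts he hl hu
  have hCne : C ≠ 0 := by
    rintro rfl; simp at hneg
  refine ⟨-1 / C, ?_, ?_⟩
  · rw [div_mul_eq_mul_div]
    have h3 : 0 < C * C := mul_self_pos.2 hCne
    have : -1 * (α - 3) / C = -(C * (α - 3)) / (C * C) := by field_simp
    rw [this]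
    apply div_pos (by linarith) h3
  · intro ι _ _ A D h
    have := (main24 he hl hu hint hC0 hC h).mul_left (1 / 2)
    have e : 1 / 2 * -(2 * C * (G α A D - α * (α - 1) / 2 * T2 α A D)) =
        (G α A D - α * (α - 1) / 2 * T2 α A D) / (-1 / C) := by
      field_simp
    rw [e] at this
    refine this.congr_fun ?_
    intro m
    field_simp

end Pool.Agent.RC
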