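import Pool.Agent.Lib_helper92.RC.Trf
import Pool.Agent.Lib_helper98.RenyiTau

open scoped BigOperators ComplexOrder Kronecker MatrixOrder Topology
open MeasureTheory Set Matrix Filter

namespace Pool.Agent.RC

open DEC SER Pool.Agent.Lib_helper98.Renyi

variable {ι κ : Type} [Fintype ι] [DecidableEq ι] [Fintype κ] [DecidableEq κ]

/-- `trF` is the trace of the functional calculus -/
theorem trF_eq_cfc (f : ℝ → ℝ) {M : Matrix ι ι ℂ} (h : M.IsHermitian) :
    trF f M = (Matrix.trace (cfc f M)).re := by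
  obtain ⟨U, h1, h2, h3⟩ := exists_diag_eig h
  have hM : M = U * Matrix.diagonal (fun i => (h.eigenvalues i : ℂ)) * Uᴴ := by
    rw [← h3]
    calc M = (U * Uᴴ) * M * (U * Uᴴ) := by rw [h1]; simp
      _ = _ := by noncomm_ring
  conv_rhs => rw [hM]
  rw [cfc_conj_diagonal f U h2, Matrix.trace_mul_comm, ← mul_assoc, h2, one_mul,
    Matrix.trace_diagonal]
  unfold trF
  rw [dif_pos h]
  simp

theorem trF_rpow_eq_trPow {α : ℝ} (hα : 0 < α) {M : Matrix ι ι ℂ} (h : M.IsHermitian) :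
    trF (fun x => x ^ α) M = trPow α M := by
  rw [trF_eq_cfc _ h]
  unfold trPow mpow
  have : supPow α = fun x => x ^ α := by
    funext x; exact supPow_of_pos_exp hα.ne'
  rw [this]

theorem G_eq_Gfun {α : ℝ} (hα : 0 < α) {A D : Matrix ι ι ℂ} (hA : A.IsHermitian)
    (hp : (A + D).IsHermitian) (hq : (A - D).IsHermitian) : G α A D = Gfun α A D := by
  unfold G Gfun
  rw [trF_rpow_eq_trPow hα hA, trF_rpow_eq_trPow hα hp, trF_rpow_eq_trPow hα hq]

theorem G1_eq_GfunOne {A D : Matrix ι ι ℂ} (hA : A.IsHermitian)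
    (hp : (A + D).IsHermitian) (hq : (A - D).IsHermitian) : G1 A D = GfunOne A D := by
  unfold G1 GfunOne trEta
  rw [trF_eq_cfc _ hA, trF_eq_cfc _ hp, trF_eq_cfc _ hq]

/-- `A + eps` for `eps = 1/(j+1)` -/
noncomputable def shift (A : Matrix ι ι ℂ) (j : ℕ) : Matrix ι ι ℂ :=
  A + ((1 / ((j : ℝ) + 1) : ℝ) : ℂ) • (1 : Matrix ι ι ℂ)

theorem tendsto_shift (A : Matrix ι ι ℂ) : Tendsto (shift A) atTop (𝓝 A) := by
  have h1 : Tendsto (fun j : ℕ => ((1 / ((j : ℝ) + 1) : ℝ) : ℂ)) atTop (𝓝 0) := by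
    have := (Complex.continuous_ofReal.tendsto 0).comp
      (tendsto_one_div_add_atTop_nhds_zero_nat (𝕜 := ℝ))
    rw [Complex.ofReal_zero] at this
    exact this
  have h2 := (h1.smul_const (1 : Matrix ι ι ℂ)).const_add A
  rw [zero_smul, add_zero] at h2
  exact h2

theorem eps_posDef (j : ℕ) :
    (((1 / ((j : ℝ) + 1) : ℝ) : ℂ) • (1 : Matrix ι ι ℂ)).PosDef := by
  have h : (((1 / ((j : ℝ) + 1) : ℝ) : ℂ) • (1 : Matrix ι ι ℂ)) =
      (1 / ((j : ℝ) + 1) : ℝ) • (1 : Matrix ι ι ℂ) := rfl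
  rw [h]
  exact Matrix.PosDef.one.smul (by positivity)

theorem isPair_shift {A D : Matrix ι ι ℂ} (hA : A.PosSemidef) (hs : (A - D).PosSemidef)
    (ha : (A + D).PosSemidef) (j : ℕ) : IsPair (shift A j) D := by
  refine ⟨?_, ?_, ?_⟩
  · unfold shift
    rw [add_comm]
    exact (eps_posDef j).add_posSemidef hA
  · have : shift A j - D = (A - D) + ((1 / ((j : ℝ) + 1) : ℝ) : ℂ) • (1 : Matrix ι ι ℂ) := by
      unfold shift; abel
    rw [this]
    exact hs.add (eps_posDef j).posSemidef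
  · have : shift A j + D = (A + D) + ((1 / ((j : ℝ) + 1) : ℝ) : ℂ) • (1 : Matrix ι ι ℂ) := by
      unfold shift; abel
    rw [this]
    exact ha.add (eps_posDef j).posSemidef

theorem isHermitian_D {A D : Matrix ι ι ℂ} (h : IsPair A D) : D.IsHermitian := by
  have h1 := h.add.isHermitian
  have h2 := h.pos.isHermitian
  have := h1.sub h2
  simpa using this

/-- continuity of `G` -/
theorem tendsto_G {α : ℝ} (hα : 0 < α) {A D : Matrix ι ι ℂ} (hA : A.IsHermitian)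
    (hD : D.IsHermitian) (A' D' : ℕ → Matrix ι ι ℂ) (hA' : ∀ j, (A' j).IsHermitian)
    (hD' : ∀ j, (D' j).IsHermitian) (tA : Tendsto A' atTop (𝓝 A)) (tD : Tendsto D' atTop (𝓝 D)) :
    Tendsto (fun j => G α (A' j) (D' j)) atTop (𝓝 (G α A D)) := by
  have hf : Continuous fun x : ℝ => x ^ α := Real.continuous_rpow_const hα.le
  unfold G
  apply Tendsto.sub
  · apply Tendsto.div_const
    apply Tendsto.add
    · exact tendsto_trF _ hf _ _ (fun j => (hA' j).add (hD' j)) (hA.add hD) (tA.add tD)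
    · exact tendsto_trF _ hf _ _ (fun j => (hA' j).sub (hD' j)) (hA.sub hD) (tA.sub tD)
  · exact tendsto_trF _ hf _ _ hA' hA tA

theorem tendsto_G_shift {α : ℝ} (hα : 0 < α) {A D : Matrix ι ι ℂ} (hA : A.IsHermitian)
    (hD : D.IsHermitian) :
    Tendsto (fun j => G α (shift A j) D) atTop (𝓝 (G α A D)) := by
  refine tendsto_G hα hA hD (shift A) (fun _ => D) (fun j => ?_) (fun _ => hD)
    (tendsto_shift A) tendsto_const_nhds
  unfold shift
  exact hA.add (eps_posDef j).isHermitian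

theorem tendsto_kron {A' : ℕ → Matrix ι ι ℂ} {B' : ℕ → Matrix κ κ ℂ} {A : Matrix ι ι ℂ}
    {B : Matrix κ κ ℂ} (hA : Tendsto A' atTop (𝓝 A)) (hB : Tendsto B' atTop (𝓝 B)) :
    Tendsto (fun j => A' j ⊗ₖ B' j) atTop (𝓝 (A ⊗ₖ B)) := by
  have hA' : ∀ i j, Tendsto (fun n => A' n i j) atTop (𝓝 (A i j)) := fun i j =>
    ((continuous_apply_apply i j).tendsto A).comp hA
  have hB' : ∀ i j, Tendsto (fun n => B' n i j) atTop (𝓝 (B i j)) := fun i j =>
    ((continuous_apply_apply i j).tendsto B).comp hB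
  refine tendsto_pi_nhds.2 fun p => tendsto_pi_nhds.2 fun q => ?_
  exact (hA' p.1 q.1).mul (hB' p.2 q.2)

theorem isHermitian_kron {A : Matrix ι ι ℂ} {B : Matrix κ κ ℂ} (hA : A.IsHermitian)
    (hB : B.IsHermitian) : (A ⊗ₖ B).IsHermitian := by
  unfold Matrix.IsHermitian
  rw [Matrix.conjTranspose_kronecker, hA.eq, hB.eq]

theorem tendsto_G_shift_kron {α : ℝ} (hα : 0 < α) {A₁ D₁ : Matrix ι ι ℂ} {A₂ D₂ : Matrix κ κ ℂ}
    (hA₁ : A₁.IsHermitian) (hD₁ : D₁.IsHermitian) (hA₂ : A₂.IsHermitian) (hD₂ : D₂.IsHermitian) :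
    Tendsto (fun j => G α (shift A₁ j ⊗ₖ shift A₂ j) (D₁ ⊗ₖ D₂)) atTop
      (𝓝 (G α (A₁ ⊗ₖ A₂) (D₁ ⊗ₖ D₂))) := by
  refine tendsto_G hα (isHermitian_kron hA₁ hA₂) (isHermitian_kron hD₁ hD₂)
    (fun j => shift A₁ j ⊗ₖ shift A₂ j) (fun _ => D₁ ⊗ₖ D₂) (fun j => ?_)
    (fun _ => isHermitian_kron hD₁ hD₂) (tendsto_kron (tendsto_shift A₁) (tendsto_shift A₂))
    tendsto_const_nhds
  unfold shift
  exact isHermitian_kron (hA₁.add (eps_posDef j).isHermitian) (hA₂.add (eps_posDef j).isHermitian)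

end Pool.Agent.RC
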