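import Pool.Agent.Lib_helper92.RC.Ser

open scoped BigOperators ComplexOrder Kronecker MatrixOrder Topology
open MeasureTheory Set Matrix Filter

namespace Pool.Agent.RC

open DEC SER

variable {ι κ : Type} [Fintype ι] [DecidableEq ι] [Fintype κ] [DecidableEq κ]

/-- `trF` computed from the roots of the characteristic polynomial -/
theorem TRF.trF_eq_roots (f : ℝ → ℝ) {M : Matrix ι ι ℂ} (h : M.IsHermitian) :
    trF f M = (M.charpoly.roots.map fun z => f z.re).sum := by
  unfold trF
  rw [dif_pos h, h.roots_charpoly_eq_eigenvalues, Multiset.map_map]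
  rfl

/-- `trF` of a unitarily diagonalised matrix -/
theorem TRF.trF_conj (f : ℝ → ℝ) {U : Matrix ι ι ℂ} (hU : Uᴴ * U = 1) (c : ι → ℝ) :
    trF f (U * Matrix.diagonal (fun i => (c i : ℂ)) * Uᴴ) = ∑ i, f (c i) := by
  have hH : (U * Matrix.diagonal (fun i => (c i : ℂ)) * Uᴴ).IsHermitian := by
    apply Matrix.isHermitian_mul_mul_conjTranspose
    apply Matrix.isHermitian_diagonal_of_self_adjoint
    ext i
    simp
  rw [TRF.trF_eq_roots f hH, Matrix.charpoly_mul_comm, ← mul_assoc, hU, one_mul,
    Matrix.charpoly_diagonal, Polynomial.roots_prod]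
  · simp
  · simp [Finset.prod_ne_zero_iff, Polynomial.X_sub_C_ne_zero]

/-- `trF` of a polynomial -/
theorem TRF.trF_poly (p : Polynomial ℝ) {M : Matrix ι ι ℂ} (h : M.IsHermitian) :
    trF (fun x => p.eval x) M = ((Polynomial.aeval M p).trace).re := by
  obtain ⟨U, h1, h2, h3⟩ := exists_diag_eig h
  have hM : M = U * Matrix.diagonal (fun i => (h.eigenvalues i : ℂ)) * Uᴴ := by
    rw [← h3]
    calc M = (U * Uᴴ) * M * (U * Uᴴ) := by rw [h1]; simp
      _ = _ := by noncomm_ring
  have hpow : ∀ n : ℕ, M ^ n = U * Matrix.diagonal (fun i => (h.eigenvalues i : ℂ) ^ n) * Uᴴ := by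
    intro n
    conv_lhs => rw [hM]
    rw [conj_pow h2 h1, Matrix.diagonal_pow]
    rfl
  have hsum : (Polynomial.aeval M p) =
      U * Matrix.diagonal (fun i => ((p.eval (h.eigenvalues i) : ℝ) : ℂ)) * Uᴴ := by
    rw [Polynomial.aeval_eq_sum_range]
    have e1 : Matrix.diagonal (fun i => ((p.eval (h.eigenvalues i) : ℝ) : ℂ)) =
        ∑ n ∈ Finset.range (p.natDegree + 1), p.coeff n •
          Matrix.diagonal (fun i => (h.eigenvalues i : ℂ) ^ n) := by
      ext i j
      rw [Matrix.sum_apply]
      by_cases hij : i = j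
      · subst hij
        simp [Polynomial.eval_eq_sum_range]
      · simp [hij]
    rw [e1, Finset.mul_sum, Finset.sum_mul]
    apply Finset.sum_congr rfl
    intro n _
    rw [hpow n]
    simp
  rw [hsum, Matrix.trace_mul_comm, ← mul_assoc, h2, one_mul, Matrix.trace_diagonal]
  unfold trF
  rw [dif_pos h]
  simp

/-- eigenvalues are bounded by the trace of the square -/
theorem TRF.eig_sq_le {M : Matrix ι ι ℂ} (h : M.IsHermitian) (i : ι) :
    h.eigenvalues i ^ 2 ≤ ((M ^ 2).trace).re := by
  have := TRF.trF_poly (Polynomial.X ^ 2) h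
  simp only [Polynomial.eval_pow, Polynomial.eval_X, map_pow, Polynomial.aeval_X] at this
  rw [← this]
  unfold trF
  rw [dif_pos h]
  exact Finset.single_le_sum (f := fun i => h.eigenvalues i ^ 2) (fun _ _ => sq_nonneg _)
    (Finset.mem_univ i)

/-- continuity of `trF f` at a hermitian matrix along a hermitian path -/
theorem tendsto_trF (f : ℝ → ℝ) (hf : Continuous f) (M : ℕ → Matrix ι ι ℂ)
    (M₀ : Matrix ι ι ℂ) (h : ∀ j, (M j).IsHermitian) (h₀ : M₀.IsHermitian)
    (hM : Tendsto M atTop (𝓝 M₀)) : Tendsto (fun j => trF f (M j)) atTop (𝓝 (trF f M₀)) := by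
  set K := ((M₀ ^ 2).trace).re + 1 with hK
  have hsq : Tendsto (fun j => (((M j) ^ 2).trace).re) atTop (𝓝 ((M₀ ^ 2).trace).re) := by
    have hc : Continuous fun X : Matrix ι ι ℂ => ((X ^ 2).trace).re := by
      apply Complex.continuous_re.comp
      exact (continuous_id.pow 2).matrix_trace
    exact (hc.tendsto M₀).comp hM
  have hev : ∀ᶠ j in atTop, (((M j) ^ 2).trace).re < K :=
    hsq.eventually_lt_const (by rw [hK]; linarith)
  have hK0 : 0 ≤ K := by
    have : 0 ≤ ((M₀ ^ 2).trace).re := by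
      have := TRF.trF_poly (Polynomial.X ^ 2) h₀
      simp only [Polynomial.eval_pow, Polynomial.eval_X, map_pow, Polynomial.aeval_X] at this
      rw [← this]
      unfold trF
      rw [dif_pos h₀]
      exact Finset.sum_nonneg fun _ _ => sq_nonneg _
    linarith
  rw [Metric.tendsto_atTop']
  intro ε hε
  set N : ℝ := (Fintype.card ι : ℝ)
  have hN : 0 ≤ N := Nat.cast_nonneg _
  set δ := ε / (4 * (N + 1)) with hδ
  have hδ0 : 0 < δ := by positivity
  obtain ⟨p, hp⟩ := exists_polynomial_near_of_continuousOn (-(K + 1)) (K + 1) f hf.continuousOn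
    δ hδ0
  have happ : ∀ X : Matrix ι ι ℂ, X.IsHermitian → ((X ^ 2).trace).re < K →
      |trF f X - ((Polynomial.aeval X p).trace).re| ≤ N * δ := by
    intro X hX hXK
    rw [← TRF.trF_poly p hX]
    unfold trF
    rw [dif_pos hX, dif_pos hX, ← Finset.sum_sub_distrib]
    calc |∑ i, (f (hX.eigenvalues i) - p.eval (hX.eigenvalues i))| ≤
        ∑ i, |f (hX.eigenvalues i) - p.eval (hX.eigenvalues i)| := Finset.abs_sum_le_sum_abs _ _
      _ ≤ ∑ _i : ι, δ := by
          apply Finset.sum_le_sum
          intro i _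
          have h1 := TRF.eig_sq_le hX i
          have h2 : |hX.eigenvalues i| ≤ K + 1 := by
            apply abs_le_of_sq_le_sq _ (by linarith)
            nlinarith
          have h3 := hp (hX.eigenvalues i) ⟨(abs_le.1 h2).1, (abs_le.1 h2).2⟩
          rw [abs_sub_comm]
          exact h3.le
      _ = N * δ := by simp [N]
  have hpt : Tendsto (fun j => ((Polynomial.aeval (M j) p).trace).re) atTop
      (𝓝 ((Polynomial.aeval M₀ p).trace).re) := by
    have hc : Continuous fun X : Matrix ι ι ℂ => ((Polynomial.aeval X p).trace).re := by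
      apply Complex.continuous_re.comp
      exact (p.continuous_aeval).matrix_trace
    exact (hc.tendsto M₀).comp hM
  obtain ⟨J, hJ⟩ := (Metric.tendsto_atTop'.1 hpt) (ε / 4) (by positivity)
  obtain ⟨J', hJ'⟩ := eventually_atTop.1 hev
  refine ⟨max J J', fun j hj => ?_⟩
  have a1 := hJ j (lt_of_le_of_lt (le_max_left _ _) hj)
  have a2 := happ (M j) (h j) (hJ' j (le_trans (le_max_right _ _) hj.le))
  have a3 := happ M₀ h₀ (by rw [hK]; linarith)
  have hNδ : N * δ ≤ ε / 4 := by
    rw [hδ, ← mul_div_assoc, div_le_div_iff₀ (by positivity) (by norm_num)]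
    nlinarith
  rw [Real.dist_eq] at a1 ⊢
  rw [abs_sub_comm] at a3
  have e : trF f (M j) - trF f M₀ = (trF f (M j) - ((Polynomial.aeval (M j) p).trace).re) +
      (((Polynomial.aeval (M j) p).trace).re - ((Polynomial.aeval M₀ p).trace).re) +
      (((Polynomial.aeval M₀ p).trace).re - trF f M₀) := by ring
  rw [e]
  calc |(trF f (M j) - ((Polynomial.aeval (M j) p).trace).re) +
      (((Polynomial.aeval (M j) p).trace).re - ((Polynomial.aeval M₀ p).trace).re) +
      (((Polynomial.aeval M₀ p).trace).re - trF f M₀)| ≤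
      |(trF f (M j) - ((Polynomial.aeval (M j) p).trace).re)| +
      |(((Polynomial.aeval (M j) p).trace).re - ((Polynomial.aeval M₀ p).trace).re)| +
      |(((Polynomial.aeval M₀ p).trace).re - trF f M₀)| :=
        abs_add_three _ _ _
    _ < ε := by linarith

/-- `trF` is additive on block diagonal matrices -/
theorem trF_blockDiagonal' {φ : Type} [Fintype φ] [DecidableEq φ] {ι' : φ → Type}
    [∀ i, Fintype (ι' i)] [∀ i, DecidableEq (ι' i)] (f : ℝ → ℝ)
    (M : ∀ i, Matrix (ι' i) (ι' i) ℂ) (h : ∀ i, (M i).IsHermitian) :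
    trF f (Matrix.blockDiagonal' M) = ∑ i, trF f (M i) := by
  choose U h1 h2 h3 using fun i => exists_diag_eig (h i)
  have hM : ∀ i, M i = U i * Matrix.diagonal (fun k => ((h i).eigenvalues k : ℂ)) * (U i)ᴴ := by
    intro i
    rw [← h3 i]
    calc M i = (U i * (U i)ᴴ) * M i * (U i * (U i)ᴴ) := by rw [h1 i]; simp
      _ = _ := by noncomm_ring
  have e : Matrix.blockDiagonal' M = Matrix.blockDiagonal' U *
      Matrix.diagonal (fun ik : (i : φ) × ι' i => ((h ik.1).eigenvalues ik.2 : ℂ)) *
      (Matrix.blockDiagonal' U)ᴴ := by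
    rw [← Matrix.blockDiagonal'_diagonal (fun i k => ((h i).eigenvalues k : ℂ)),
      Matrix.blockDiagonal'_conjTranspose,
      ← Matrix.blockDiagonal'_mul, ← Matrix.blockDiagonal'_mul]
    congr 1
    funext i
    exact hM i
  have hU : (Matrix.blockDiagonal' U)ᴴ * Matrix.blockDiagonal' U = 1 := by
    rw [Matrix.blockDiagonal'_conjTranspose, ← Matrix.blockDiagonal'_mul,
      ← Matrix.blockDiagonal'_one]
    congr 1
    funext i
    exact h2 i
  rw [e, TRF.trF_conj f hU (fun ik : (i : φ) × ι' i => (h ik.1).eigenvalues ik.2),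
    Fintype.sum_sigma]
  apply Finset.sum_congr rfl
  intro i _
  unfold trF
  rw [dif_pos (h i)]

/-- `trF` is invariant under reindexing and unitary conjugation -/
theorem trF_reindex (f : ℝ → ℝ) (e : ι ≃ κ) (M : Matrix ι ι ℂ) :
    trF f (Matrix.reindex e e M) = trF f M := by
  by_cases h : M.IsHermitian
  · have h' : (Matrix.reindex e e M).IsHermitian := h.submatrix _
    rw [TRF.trF_eq_roots f h, TRF.trF_eq_roots f h', Matrix.charpoly_reindex]
  · have h' : ¬ (Matrix.reindex e e M).IsHermitian := by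
      intro hh
      apply h
      have := hh.submatrix e
      simpa using this
    unfold trF
    rw [dif_neg h, dif_neg h']

/-- derivative at `α = 1` -/
theorem tendsto_G1 (A D : Matrix ι ι ℂ) (hA : A.PosSemidef) (hs : (A - D).PosSemidef)
    (ha : (A + D).PosSemidef) :
    Tendsto (fun α => G α A D / (α - 1)) (𝓝[>] 1) (𝓝 (G1 A D)) := by
  have hd : ∀ x : ℝ, 0 ≤ x → Tendsto (fun α : ℝ => (x ^ α - x) / (α - 1)) (𝓝[>] 1)
      (𝓝 (x * Real.log x)) := by
    intro x hx
    rcases hx.eq_or_lt with rfl | hx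
    · have : (fun α : ℝ => ((0 : ℝ) ^ α - 0) / (α - 1)) =ᶠ[𝓝[>] 1] fun _ => 0 := by
        filter_upwards [self_mem_nhdsWithin] with α hα
        have : (1 : ℝ) < α := hα
        rw [Real.zero_rpow (by linarith)]
        simp
      rw [zero_mul]
      exact tendsto_const_nhds.congr' this.symm
    · have h1 : HasDerivAt (fun α : ℝ => x ^ α) (x ^ (1 : ℝ) * Real.log x) 1 := by
        have := (hasDerivAt_id (1 : ℝ)).const_rpow hx
        simpa [mul_comm] using this
      have h2 := h1.tendsto_slope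
      have h3 : Tendsto (slope (fun α : ℝ => x ^ α) 1) (𝓝[>] 1) (𝓝 (x ^ (1 : ℝ) * Real.log x)) :=
        h2.mono_left (nhdsWithin_mono _ fun y hy => ne_of_gt hy)
      rw [Real.rpow_one] at h3
      refine h3.congr fun α => ?_
      rw [slope_def_field, Real.rpow_one]
  have hp := ha.isHermitian
  have hq := hs.isHermitian
  have hH := hA.isHermitian
  have htr : ∑ i, hp.eigenvalues i + ∑ i, hq.eigenvalues i = 2 * ∑ i, hH.eigenvalues i := by
    have t1 := hH.trace_eq_sum_eigenvalues
    have t2 := hp.trace_eq_sum_eigenvalues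
    have t3 := hq.trace_eq_sum_eigenvalues
    rw [Matrix.trace_add, t1] at t2
    rw [Matrix.trace_sub, t1] at t3
    have : ((∑ i, hp.eigenvalues i + ∑ i, hq.eigenvalues i : ℝ) : ℂ) =
        ((2 * ∑ i, hH.eigenvalues i : ℝ) : ℂ) := by
      push_cast
      simp only [RCLike.ofReal_eq_complex_ofReal] at t2 t3
      rw [← t2, ← t3]
      ring
    exact_mod_cast this
  have e : ∀ α : ℝ, G α A D / (α - 1) =
      (∑ i, (hp.eigenvalues i ^ α - hp.eigenvalues i) / (α - 1) +
        ∑ i, (hq.eigenvalues i ^ α - hq.eigenvalues i) / (α - 1)) / 2 -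
        ∑ i, (hH.eigenvalues i ^ α - hH.eigenvalues i) / (α - 1) := by
    intro α
    unfold G trF
    rw [dif_pos hp, dif_pos hq, dif_pos hH]
    simp only [← Finset.sum_div, Finset.sum_sub_distrib]
    have : (∑ i, hp.eigenvalues i) / (α - 1) + (∑ i, hq.eigenvalues i) / (α - 1) =
        2 * ((∑ i, hH.eigenvalues i) / (α - 1)) := by
      rw [← add_div, htr]; ring
    linear_combination (1 / 2) * this
  have e1 : G1 A D = (∑ i, hp.eigenvalues i * Real.log (hp.eigenvalues i) +
      ∑ i, hq.eigenvalues i * Real.log (hq.eigenvalues i)) / 2 -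
      ∑ i, hH.eigenvalues i * Real.log (hH.eigenvalues i) := by
    unfold G1 trF
    rw [dif_pos hp, dif_pos hq, dif_pos hH]
  rw [e1]
  simp_rw [e]
  apply Tendsto.sub
  · apply Tendsto.div_const
    apply Tendsto.add
    · exact tendsto_finsetSum _ fun i _ => hd _ (ha.eigenvalues_nonneg i)
    · exact tendsto_finsetSum _ fun i _ => hd _ (hs.eigenvalues_nonneg i)
  · exact tendsto_finsetSum _ fun i _ => hd _ (hA.eigenvalues_nonneg i)

end Pool.Agent.RC
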