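import Pool.Agent.Lib_helper95.RC.Defs

open scoped BigOperators ComplexOrder Kronecker MatrixOrder Topology
open MeasureTheory Set Matrix Filter

namespace Pool.Agent.RC.DEC

variable {ι : Type} [Fintype ι] [DecidableEq ι]

/-- `A + r` -/
noncomputable def Bm (A : Matrix ι ι ℂ) (r : ℝ) : Matrix ι ι ℂ :=
  A + (r : ℂ) • (1 : Matrix ι ι ℂ)

theorem Bm_posDef {A : Matrix ι ι ℂ} (hA : A.PosDef) {r : ℝ} (hr : 0 ≤ r) : (Bm A r).PosDef := by
  unfold Bm
  apply hA.add_posSemidef
  have : (r : ℂ) • (1 : Matrix ι ι ℂ) = (r : ℝ) • (1 : Matrix ι ι ℂ) := by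
    ext i j; simp
  rw [this]
  exact Matrix.PosSemidef.one.smul hr

theorem res_mul {A : Matrix ι ι ℂ} (hA : A.PosDef) {r : ℝ} (hr : 0 ≤ r) :
    Res A r * Bm A r = 1 := by
  have h := (Bm_posDef hA hr).isUnit
  unfold Res Bm at *
  exact Matrix.nonsing_inv_mul _ ((Matrix.isUnit_iff_isUnit_det _).1 h)

theorem mul_res {A : Matrix ι ι ℂ} (hA : A.PosDef) {r : ℝ} (hr : 0 ≤ r) :
    Bm A r * Res A r = 1 := by
  have h := (Bm_posDef hA hr).isUnit
  unfold Res Bm at *
  exact Matrix.mul_nonsing_inv _ ((Matrix.isUnit_iff_isUnit_det _).1 h)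

theorem exists_diag {D : Matrix ι ι ℂ} (hD : D.IsHermitian) :
    ∃ (U : Matrix ι ι ℂ) (η : ι → ℝ), U * Uᴴ = 1 ∧ Uᴴ * U = 1 ∧
      Uᴴ * D * U = Matrix.diagonal (fun i => (η i : ℂ)) := by
  refine ⟨(hD.eigenvectorUnitary : Matrix ι ι ℂ), hD.eigenvalues, ?_, ?_, ?_⟩
  · exact (Matrix.mem_unitaryGroup_iff).1 hD.eigenvectorUnitary.2
  · exact (Matrix.mem_unitaryGroup_iff').1 hD.eigenvectorUnitary.2
  · have := hD.conjStarAlgAut_star_eigenvectorUnitary
    rw [Unitary.conjStarAlgAut_star_apply] at this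
    rw [← Matrix.star_eq_conjTranspose, this]
    rfl

/-- simultaneous diagonalisation -/
theorem exists_simul {A D : Matrix ι ι ℂ} (hA : A.PosDef) (hD : D.IsHermitian) {r : ℝ}
    (hr : 0 ≤ r) : ∃ (V W : Matrix ι ι ℂ) (η : ι → ℝ), V * W = 1 ∧ W * V = 1 ∧
      Res A r = V * Vᴴ ∧
      Vᴴ * D * V = Matrix.diagonal (fun i => (η i : ℂ)) := by
  have hB := Bm_posDef hA hr
  have hR : (Res A r).PosDef := hB.inv
  obtain ⟨C, hC⟩ := CStarAlgebra.nonneg_iff_eq_star_mul_self.mp hR.posSemidef.nonneg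
  have hC' : Res A r = Cᴴ * C := hC
  have hH : (C * D * Cᴴ).IsHermitian := by
    have := Matrix.isHermitian_mul_mul_conjTranspose C hD
    simpa using this
  obtain ⟨U, η, hU1, hU2, hU3⟩ := exists_diag hH
  have h1 : (Cᴴ * U) * (Uᴴ * C) = Res A r := by
    rw [hC']
    calc Cᴴ * U * (Uᴴ * C) = Cᴴ * (U * Uᴴ) * C := by noncomm_ring
      _ = Cᴴ * C := by rw [hU1]; simp
  have h2 : (Cᴴ * U) * (Uᴴ * C * Bm A r) = 1 := by
    rw [← mul_assoc, h1, res_mul hA hr]
  refine ⟨Cᴴ * U, Uᴴ * C * Bm A r, η, h2, ?_, ?_, ?_⟩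
  · exact mul_eq_one_comm.1 h2
  · rw [← h1]; simp [Matrix.conjTranspose_mul]
  · rw [← hU3]; simp [Matrix.conjTranspose_mul, mul_assoc]


theorem conj_pow {V W X : Matrix ι ι ℂ} (h : W * V = 1) (h' : V * W = 1) (n : ℕ) :
    (V * X * W) ^ n = V * X ^ n * W := by
  induction n with
  | zero => simp [h']
  | succ n ih =>
    rw [pow_succ, ih, pow_succ]
    calc V * X ^ n * W * (V * X * W) = V * X ^ n * (W * V) * X * W := by noncomm_ring
      _ = V * (X ^ n * X) * W := by rw [h]; noncomm_ring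

/-- the normal form -/
structure NF (A D : Matrix ι ι ℂ) (r : ℝ) (V W k : Matrix ι ι ℂ) (η : ι → ℝ) : Prop where
  vw : V * W = 1
  wv : W * V = 1
  hH : Res A r * D = V * Matrix.diagonal (fun i => (η i : ℂ)) * W
  hK : Res A r * A = V * k * W
  kh : k.IsHermitian
  le : ∀ i, |η i| ≤ (k i i).re
  lc : ∀ c : ℝ, (c • (1 : Matrix ι ι ℂ) - A).PosSemidef → 0 < c → ∀ i, (k i i).re ≤ c / (c + r)

theorem exists_NF {A D : Matrix ι ι ℂ} (h : IsPair A D) {r : ℝ} (hr : 0 ≤ r) :
    ∃ (V W k : Matrix ι ι ℂ) (η : ι → ℝ), NF A D r V W k η := by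
  have hD : D.IsHermitian := by
    have h1 := h.add.isHermitian
    have h2 := h.pos.isHermitian
    have := h1.sub h2
    simpa using this
  obtain ⟨V, W, η, vw, wv, hR, hη⟩ := exists_simul h.pos hD hr
  refine ⟨V, W, Vᴴ * A * V, η, vw, wv, ?_, ?_, ?_, ?_, ?_⟩
  · rw [← hη, hR]
    calc V * Vᴴ * D = V * Vᴴ * D * (V * W) := by rw [vw, mul_one]
      _ = _ := by noncomm_ring
  · rw [hR]
    calc V * Vᴴ * A = V * Vᴴ * A * (V * W) := by rw [vw, mul_one]
      _ = _ := by noncomm_ring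
  · exact Matrix.isHermitian_conjTranspose_mul_mul V h.pos.isHermitian
  · intro i
    have h1 : (Vᴴ * (A - D) * V).PosSemidef := h.sub.conjTranspose_mul_mul_same V
    have h2 : (Vᴴ * (A + D) * V).PosSemidef := h.add.conjTranspose_mul_mul_same V
    have e1 := h1.diag_nonneg (i := i)
    have e2 := h2.diag_nonneg (i := i)
    have f1 : Vᴴ * (A - D) * V = Vᴴ * A * V - Vᴴ * D * V := by noncomm_ring
    have f2 : Vᴴ * (A + D) * V = Vᴴ * A * V + Vᴴ * D * V := by noncomm_ring
    rw [f1, hη] at e1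
    rw [f2, hη] at e2
    have g1 := (Complex.le_def.1 e1).1
    have g2 := (Complex.le_def.1 e2).1
    simp at g1 g2
    rw [abs_le]
    constructor <;> linarith
  · intro c hc hc0 i
    have h1 : (Vᴴ * (c • (1 : Matrix ι ι ℂ) - A) * V).PosSemidef :=
      hc.conjTranspose_mul_mul_same V
    have e1 := h1.diag_nonneg (i := i)
    have f1 : Vᴴ * (c • (1 : Matrix ι ι ℂ) - A) * V = c • (Vᴴ * V) - Vᴴ * A * V := by
      simp [Matrix.mul_sub, Matrix.sub_mul]
    rw [f1] at e1
    have g1 := (Complex.le_def.1 e1).1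
    have f2 : Vᴴ * A * V + r • (Vᴴ * V) = 1 := by
      have hm := mul_res h.pos hr
      rw [hR] at hm
      have h3 : Vᴴ * Bm A r * V * (Vᴴ * W.conjTranspose) = Vᴴ * (Bm A r * (V * Vᴴ)) * Wᴴ := by
        noncomm_ring
      have h4 : Vᴴ * Wᴴ = 1 := by
        rw [← Matrix.conjTranspose_mul, wv, Matrix.conjTranspose_one]
      rw [hm, h4, mul_one, mul_one, h4] at h3
      rw [← h3]
      unfold Bm
      rw [mul_add, add_mul]
      congr 1
      simp
    have g2 := congrArg (fun M : Matrix ι ι ℂ => (M i i).re) f2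
    simp at g1 g2
    rw [le_div_iff₀ (by positivity)]
    nlinarith

theorem kernel_nonneg (n : ℕ) (hn : Even n) (x y : ℝ) :
    0 ≤ ∑ j ∈ Finset.range (n + 1), x ^ j * y ^ (n - j) := by
  have hodd : Odd (n + 1) := hn.add_one
  have hgs := (Commute.all x y).geom_sum₂_mul (n + 1)
  have hgs' : (∑ j ∈ Finset.range (n + 1), x ^ j * y ^ (n - j)) * (x - y) =
      x ^ (n + 1) - y ^ (n + 1) := by
    rw [← hgs]; simp
  rcases lt_trichotomy x y with hxy | hxy | hxy
  · have : x ^ (n + 1) < y ^ (n + 1) := hodd.strictMono_pow hxy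
    by_contra hneg
    push Not at hneg
    nlinarith
  · subst hxy
    apply Finset.sum_nonneg
    intro j hj
    rw [← pow_add]
    have : j + (n - j) = n := by
      have := Finset.mem_range.1 hj; omega
    rw [this]
    exact hn.pow_nonneg x
  · have : y ^ (n + 1) < x ^ (n + 1) := hodd.strictMono_pow hxy
    by_contra hneg
    push Not at hneg
    nlinarith

theorem trace_diag_pow {A D : Matrix ι ι ℂ} {r : ℝ} {V W k : Matrix ι ι ℂ} {η : ι → ℝ}
    (h : NF A D r V W k η) (n : ℕ) : tn A D n r = ∑ i, η i ^ n := by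
  unfold tn
  rw [h.hH, conj_pow h.wv h.vw, Matrix.trace_mul_comm, ← mul_assoc, h.wv, one_mul,
    Matrix.diagonal_pow, Matrix.trace_diagonal]
  simp [← Complex.ofReal_pow]

/-- `q_n(r) = ∑_{j≤n} Tr [K H^j K H^(n-j)]` -/
noncomputable def qn (A D : Matrix ι ι ℂ) (n : ℕ) (r : ℝ) : ℝ :=
  (∑ j ∈ Finset.range (n + 1), Matrix.trace ((Res A r * A) * (Res A r * D) ^ j *
    (Res A r * A) * (Res A r * D) ^ (n - j))).re

noncomputable def gn (A D : Matrix ι ι ℂ) (n : ℕ) (r : ℝ) : ℝ :=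
  (Matrix.trace ((Res A r * A) * (Res A r * D) ^ n)).re

theorem qn_ge {A D : Matrix ι ι ℂ} (h : IsPair A D) {r : ℝ} (hr : 0 ≤ r) (n : ℕ)
    (hn : Even n) : (n + 1) * tn A D (n + 2) r ≤ qn A D n r := by
  obtain ⟨V, W, k, η, hN⟩ := exists_NF h hr
  have key : ∀ j, Matrix.trace ((Res A r * A) * (Res A r * D) ^ j *
      (Res A r * A) * (Res A r * D) ^ (n - j)) =
      ∑ a, ∑ b, ((Complex.normSq (k a b) * (η b ^ j * η a ^ (n - j)) : ℝ) : ℂ) := by
    intro j
    rw [hN.hH, hN.hK, conj_pow hN.wv hN.vw, conj_pow hN.wv hN.vw]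
    have : V * k * W * (V * (Matrix.diagonal fun i => (η i : ℂ)) ^ j * W) * (V * k * W) *
        (V * (Matrix.diagonal fun i => (η i : ℂ)) ^ (n - j) * W) =
        V * (k * (Matrix.diagonal fun i => (η i : ℂ)) ^ j * k *
          (Matrix.diagonal fun i => (η i : ℂ)) ^ (n - j)) * W := by
      calc _ = V * k * (W * V) * (Matrix.diagonal fun i => (η i : ℂ)) ^ j * (W * V) * k *
          (W * V) * (Matrix.diagonal fun i => (η i : ℂ)) ^ (n - j) * W := by noncomm_ring
        _ = _ := by rw [hN.wv]; noncomm_ring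
    rw [this, Matrix.trace_mul_comm, ← mul_assoc, hN.wv, one_mul, Matrix.diagonal_pow,
      Matrix.diagonal_pow]
    unfold Matrix.trace
    apply Finset.sum_congr rfl
    intro a _
    rw [Matrix.diag_apply, Matrix.mul_diagonal, Matrix.mul_apply, Finset.sum_mul]
    apply Finset.sum_congr rfl
    intro b _
    rw [Matrix.mul_diagonal]
    have hk : k b a = star (k a b) := (hN.kh.apply a b).symm ▸ by simp
    rw [hk]
    have : k a b * star (k a b) = ((Complex.normSq (k a b) : ℝ) : ℂ) := by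
      rw [Complex.star_def, Complex.mul_conj]
    simp only [Pi.pow_apply]
    push_cast
    rw [← this]
    ring
  unfold qn
  simp_rw [key]
  rw [trace_diag_pow hN]
  have e : (∑ j ∈ Finset.range (n + 1), ∑ a, ∑ b,
      ((Complex.normSq (k a b) * (η b ^ j * η a ^ (n - j)) : ℝ) : ℂ)).re =
      ∑ a, ∑ b, Complex.normSq (k a b) *
        ∑ j ∈ Finset.range (n + 1), η b ^ j * η a ^ (n - j) := by
    rw [Finset.sum_comm]
    simp only [← Complex.ofReal_sum]
    rw [Complex.ofReal_re]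
    apply Finset.sum_congr rfl
    intro a _
    rw [Finset.sum_comm]
    simp only [Finset.mul_sum]
  rw [e, Finset.mul_sum]
  apply Finset.sum_le_sum
  intro a _
  calc ((n : ℝ) + 1) * η a ^ (n + 2) ≤ Complex.normSq (k a a) *
        ∑ j ∈ Finset.range (n + 1), η a ^ j * η a ^ (n - j) := by
        have e1 : ∑ j ∈ Finset.range (n + 1), η a ^ j * η a ^ (n - j) =
            (n + 1) * η a ^ n := by
          rw [Finset.sum_congr rfl (g := fun _ => η a ^ n)]
          · simp
          · intro j hj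
            rw [← pow_add]
            congr 1
            have := Finset.mem_range.1 hj; omega
        rw [e1]
        have e2 : η a ^ 2 ≤ Complex.normSq (k a a) := by
          have h1 := hN.le a
          have h2 : (k a a).re ^ 2 ≤ Complex.normSq (k a a) := by
            rw [Complex.normSq_apply]; nlinarith [sq_nonneg (k a a).im]
          have h3 : η a ^ 2 ≤ (k a a).re ^ 2 := by
            rw [← sq_abs (η a)]
            exact pow_le_pow_left₀ (abs_nonneg _) h1 2
          linarith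
        have e3 : 0 ≤ η a ^ n := hn.pow_nonneg _
        have e4 : η a ^ (n + 2) = η a ^ 2 * η a ^ n := by ring
        rw [e4]
        have : 0 ≤ ((n : ℝ) + 1) * η a ^ n := by positivity
        nlinarith
    _ ≤ _ := by
        apply Finset.single_le_sum (f := fun b => Complex.normSq (k a b) *
          ∑ j ∈ Finset.range (n + 1), η b ^ j * η a ^ (n - j)) _ (Finset.mem_univ a)
        intro b _
        exact mul_nonneg (Complex.normSq_nonneg _) (kernel_nonneg n hn _ _)


section deriv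

attribute [local instance] Matrix.linftyOpNormedRing Matrix.linftyOpNormedAlgebra

theorem hasDerivAt_Res {A : Matrix ι ι ℂ} (hA : A.PosDef) {r : ℝ} (hr : 0 < r) :
    HasDerivAt (fun s : ℝ => Res A s) (-(Res A r * Res A r)) r := by
  have hu : IsUnit (Bm A r) := (Bm_posDef hA hr.le).isUnit
  obtain ⟨u, hu⟩ := hu
  have h1 : HasFDerivAt (𝕜 := ℝ) Ring.inverse _ (u : Matrix ι ι ℂ) := hasFDerivAt_ringInverse u
  have h2 : HasDerivAt (fun s : ℝ => Bm A s) (1 : Matrix ι ι ℂ) r := by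
    unfold Bm
    have : (fun s : ℝ => A + (s : ℂ) • (1 : Matrix ι ι ℂ)) =
        fun s : ℝ => A + s • (1 : Matrix ι ι ℂ) := by
      funext s; congr 1
    rw [this]
    have h3 : HasDerivAt (fun s : ℝ => s • (1 : Matrix ι ι ℂ)) ((1 : ℝ) • (1 : Matrix ι ι ℂ)) r :=
      (hasDerivAt_id r).smul_const _
    have h4 := h3.const_add A
    rwa [one_smul] at h4
  rw [hu] at h1
  have h4 := h1.comp_hasDerivAt r h2
  have h5 : (Ring.inverse ∘ fun s : ℝ => Bm A s) = fun s : ℝ => Res A s := by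
    funext s
    simp only [Function.comp]
    rw [← Matrix.nonsing_inv_eq_ringInverse]
    rfl
  rw [h5] at h4
  have h6 : ((u⁻¹ : (Matrix ι ι ℂ)ˣ) : Matrix ι ι ℂ) = Res A r := by
    have : (u : Matrix ι ι ℂ) * Res A r = 1 := by rw [hu]; exact mul_res hA hr.le
    exact Units.inv_eq_of_mul_eq_one_right this
  have h7 : (-((ContinuousLinearMap.mulLeftRight ℝ (Matrix ι ι ℂ)) ↑u⁻¹) ↑u⁻¹) 1 =
      -(Res A r * Res A r) := by simp [h6]
  rw [h7] at h4
  exact h4

theorem hasDerivAt_mul {F G : ℝ → Matrix ι ι ℂ} {F' G' : Matrix ι ι ℂ} {r : ℝ}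
    (hF : HasDerivAt F F' r) (hG : HasDerivAt G G' r) :
    HasDerivAt (fun s => F s * G s) (F' * G r + F r * G') r := by
  have := HasDerivAt.mul (𝔸 := Matrix ι ι ℂ) hF hG
  exact this

theorem hasDerivAt_pow {F : ℝ → Matrix ι ι ℂ} {F' : Matrix ι ι ℂ} {r : ℝ}
    (hF : HasDerivAt F F' r) (n : ℕ) :
    HasDerivAt (fun s => F s ^ n) (∑ j ∈ Finset.range n, F r ^ j * F' * F r ^ (n - 1 - j)) r := by
  induction n with
  | zero =>
    simp only [pow_zero, Finset.range_zero, Finset.sum_empty]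
    exact hasDerivAt_const r (1 : Matrix ι ι ℂ)
  | succ n ih =>
    have h := hasDerivAt_mul ih hF
    simp only [← pow_succ] at h
    convert h using 1
    rw [Finset.sum_range_succ, Finset.sum_mul]
    congr 1
    · apply Finset.sum_congr rfl
      intro j hj
      have hj' := Finset.mem_range.1 hj
      rw [mul_assoc _ _ (F r), ← pow_succ]
      congr 2
      omega
    · simp

theorem hasDerivAt_trace {F : ℝ → Matrix ι ι ℂ} {F' : Matrix ι ι ℂ} {r : ℝ}
    (hF : HasDerivAt F F' r) : HasDerivAt (fun s => ((F s).trace).re) ((F'.trace).re) r := by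
  let L : Matrix ι ι ℂ →ₗ[ℝ] ℝ := Complex.reLm ∘ₗ (Matrix.traceLinearMap ι ℝ ℂ)
  have h := (LinearMap.toContinuousLinearMap L).hasFDerivAt.comp_hasDerivAt r hF
  exact h

theorem r_res {A : Matrix ι ι ℂ} (hA : A.PosDef) {r : ℝ} (hr : 0 ≤ r) :
    (r : ℂ) • Res A r = 1 - Res A r * A := by
  have h := res_mul hA hr
  unfold Bm at h
  rw [mul_add, Matrix.mul_smul, mul_one] at h
  rw [← h]; abel

theorem hasDerivAt_tn {A D : Matrix ι ι ℂ} (hA : A.PosDef) (n : ℕ) {r : ℝ} (hr : 0 < r) :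
    ∃ f' : ℝ, HasDerivAt (fun s => tn A D n s) f' r ∧
      r * f' = n * gn A D n r - n * tn A D n r := by
  have h1 : HasDerivAt (fun s => Res A s * D) (-(Res A r * Res A r) * D) r := by
    have := hasDerivAt_mul (hasDerivAt_Res hA hr) (hasDerivAt_const r D)
    simpa using this
  have h2 := hasDerivAt_trace (hasDerivAt_pow h1 n)
  refine ⟨_, h2, ?_⟩
  have hr' := r_res hA hr.le
  set R := Res A r with hR
  have key : ∀ j ∈ Finset.range n, (r : ℂ) * Matrix.trace ((R * D) ^ j * (-(R * R) * D) *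
      (R * D) ^ (n - 1 - j)) = Matrix.trace ((R * A) * (R * D) ^ n) -
        Matrix.trace ((R * D) ^ n) := by
    intro j hj
    have hj' := Finset.mem_range.1 hj
    have e1 : (r : ℂ) * Matrix.trace ((R * D) ^ j * (-(R * R) * D) * (R * D) ^ (n - 1 - j)) =
        Matrix.trace ((R * D) ^ j * (-(((r : ℂ) • R) * R) * D) * (R * D) ^ (n - 1 - j)) := by
      rw [← smul_eq_mul, ← Matrix.trace_smul]
      congr 1
      simp [Matrix.smul_mul, Matrix.mul_smul]
    rw [e1, hr']
    have e2 : (R * D) ^ j * (-((1 - R * A) * R) * D) * (R * D) ^ (n - 1 - j) =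
        (R * D) ^ j * ((R * A) * (R * D) * (R * D) ^ (n - 1 - j)) -
          (R * D) ^ j * (R * D) * (R * D) ^ (n - 1 - j) := by noncomm_ring
    rw [e2, Matrix.trace_sub]
    congr 1
    · rw [Matrix.trace_mul_comm]
      have e4 : (R * A) * (R * D) * (R * D) ^ (n - 1 - j) * (R * D) ^ j =
          (R * A) * ((R * D) * ((R * D) ^ (n - 1 - j) * (R * D) ^ j)) := by noncomm_ring
      rw [e4, ← pow_add, ← pow_succ']
      congr 3
      omega
    · rw [mul_assoc, ← pow_succ', ← pow_add]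
      congr 2
      omega
  have e3 : r * (Matrix.trace (∑ j ∈ Finset.range n, (R * D) ^ j * (-(R * R) * D) *
      (R * D) ^ (n - 1 - j))).re = ((r : ℂ) * Matrix.trace (∑ j ∈ Finset.range n,
        (R * D) ^ j * (-(R * R) * D) * (R * D) ^ (n - 1 - j))).re := by
    rw [Complex.re_ofReal_mul]
  rw [e3, Matrix.trace_sum, Finset.mul_sum, Finset.sum_congr rfl key]
  unfold gn tn
  rw [← hR]
  simp [mul_sub]

theorem hasDerivAt_gn {A D : Matrix ι ι ℂ} (hA : A.PosDef) (n : ℕ) {r : ℝ} (hr : 0 < r) :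
    ∃ f' : ℝ, HasDerivAt (fun s => gn A D n s) f' r ∧
      r * f' = qn A D n r - (n + 1) * gn A D n r := by
  have h1 : HasDerivAt (fun s => Res A s * D) (-(Res A r * Res A r) * D) r := by
    have := hasDerivAt_mul (hasDerivAt_Res hA hr) (hasDerivAt_const r D)
    simpa using this
  have h0 : HasDerivAt (fun s => Res A s * A) (-(Res A r * Res A r) * A) r := by
    have := hasDerivAt_mul (hasDerivAt_Res hA hr) (hasDerivAt_const r A)
    simpa using this
  have h2 := hasDerivAt_trace (hasDerivAt_mul h0 (hasDerivAt_pow h1 n))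
  refine ⟨_, h2, ?_⟩
  have hr' := r_res hA hr.le
  set R := Res A r with hR
  have key : ∀ j ∈ Finset.range n, (r : ℂ) * Matrix.trace ((R * A) * ((R * D) ^ j *
      (-(R * R) * D) * (R * D) ^ (n - 1 - j))) =
        Matrix.trace ((R * A) * (R * D) ^ j * (R * A) * (R * D) ^ (n - j)) -
        Matrix.trace ((R * A) * (R * D) ^ n) := by
    intro j hj
    have hj' := Finset.mem_range.1 hj
    have e1 : (r : ℂ) * Matrix.trace ((R * A) * ((R * D) ^ j * (-(R * R) * D) *
        (R * D) ^ (n - 1 - j))) =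
        Matrix.trace ((R * A) * ((R * D) ^ j * (-(((r : ℂ) • R) * R) * D) *
          (R * D) ^ (n - 1 - j))) := by
      rw [← smul_eq_mul, ← Matrix.trace_smul]
      congr 1
      simp [Matrix.smul_mul, Matrix.mul_smul]
    rw [e1, hr']
    have e2 : (R * A) * ((R * D) ^ j * (-((1 - R * A) * R) * D) * (R * D) ^ (n - 1 - j)) =
        (R * A) * (R * D) ^ j * (R * A) * ((R * D) * (R * D) ^ (n - 1 - j)) -
          (R * A) * ((R * D) ^ j * ((R * D) * (R * D) ^ (n - 1 - j))) := by noncomm_ring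
    rw [e2, Matrix.trace_sub]
    congr 1
    · rw [← pow_succ']
      congr 3
      omega
    · rw [← pow_succ', ← pow_add]
      congr 3
      omega
  have key2 : (r : ℂ) * Matrix.trace (-(R * R) * A * (R * D) ^ n) =
      Matrix.trace ((R * A) * (R * D) ^ n * (R * A) * (R * D) ^ (n - n)) -
        Matrix.trace ((R * A) * (R * D) ^ n) := by
    have e1 : (r : ℂ) * Matrix.trace (-(R * R) * A * (R * D) ^ n) =
        Matrix.trace (-(((r : ℂ) • R) * R) * A * (R * D) ^ n) := by
      rw [← smul_eq_mul, ← Matrix.trace_smul]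
      congr 1
      simp [Matrix.smul_mul]
    rw [e1, hr']
    have e2 : -((1 - R * A) * R) * A * (R * D) ^ n =
        (R * A) * ((R * A) * (R * D) ^ n) - (R * A) * (R * D) ^ n := by noncomm_ring
    rw [e2, Matrix.trace_sub]
    congr 1
    rw [Matrix.trace_mul_comm]
    simp
  have e3 : r * (Matrix.trace (-(R * R) * A * (R * D) ^ n + R * A *
      ∑ j ∈ Finset.range n, (R * D) ^ j * (-(R * R) * D) *
      (R * D) ^ (n - 1 - j))).re = ((r : ℂ) * Matrix.trace (-(R * R) * A * (R * D) ^ n + R * A *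
      ∑ j ∈ Finset.range n,
        (R * D) ^ j * (-(R * R) * D) * (R * D) ^ (n - 1 - j))).re := by
    rw [Complex.re_ofReal_mul]
  rw [e3, Matrix.trace_add, mul_add, key2, Finset.mul_sum, Matrix.trace_sum, Finset.mul_sum,
    Finset.sum_congr rfl key]
  unfold qn gn
  rw [← hR, Finset.sum_range_succ, Finset.sum_sub_distrib]
  simp
  ring

end deriv


/-! ### Bounds, integrability, conclusion -/

theorem exists_bound {A : Matrix ι ι ℂ} (hA : A.PosDef) :
    ∃ c : ℝ, 0 < c ∧ (c • (1 : Matrix ι ι ℂ) - A).PosSemidef := by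
  obtain ⟨U, η, h1, h2, h3⟩ := exists_diag hA.isHermitian
  refine ⟨1 + ∑ i, |η i|, by positivity, ?_⟩
  set c := 1 + ∑ i, |η i|
  have hA' : A = U * Matrix.diagonal (fun i => (η i : ℂ)) * Uᴴ := by
    rw [← h3]
    calc A = (U * Uᴴ) * A * (U * Uᴴ) := by rw [h1]; simp
      _ = _ := by noncomm_ring
  have hd : (Matrix.diagonal (fun i => ((c - η i : ℝ) : ℂ))).PosSemidef := by
    rw [Matrix.posSemidef_diagonal_iff]
    intro i
    have : η i ≤ ∑ i, |η i| :=
      (le_abs_self _).trans (Finset.single_le_sum (f := fun i => |η i|)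
        (fun _ _ => abs_nonneg _) (Finset.mem_univ i))
    have h0 : (0 : ℝ) ≤ c - η i := by simp only [c]; linarith
    exact_mod_cast h0
  have := hd.mul_mul_conjTranspose_same U
  have e : U * Matrix.diagonal (fun i => ((c - η i : ℝ) : ℂ)) * Uᴴ =
      c • (1 : Matrix ι ι ℂ) - A := by
    have e1 : Matrix.diagonal (fun i => ((c - η i : ℝ) : ℂ)) =
        c • (1 : Matrix ι ι ℂ) - Matrix.diagonal (fun i => (η i : ℂ)) := by
      ext i j
      by_cases hij : i = j
      · subst hij; simp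
      · simp [hij]
    rw [e1, hA', Matrix.mul_sub, Matrix.sub_mul]
    congr 1
    simp [h1]
  rwa [e] at this

theorem tn_nonneg' {A D : Matrix ι ι ℂ} (h : IsPair A D) {r : ℝ} (hr : 0 ≤ r) {n : ℕ}
    (hn : Even n) : 0 ≤ tn A D n r := by
  obtain ⟨V, W, k, η, hN⟩ := exists_NF h hr
  rw [trace_diag_pow hN]
  exact Finset.sum_nonneg fun i _ => hn.pow_nonneg _

theorem tn_bound {A D : Matrix ι ι ℂ} (h : IsPair A D) {c : ℝ} (hc : 0 < c)
    (hcA : (c • (1 : Matrix ι ι ℂ) - A).PosSemidef) {r : ℝ} (hr : 0 ≤ r) (n : ℕ) :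
    |tn A D n r| ≤ Fintype.card ι * (c / (c + r)) ^ n := by
  obtain ⟨V, W, k, η, hN⟩ := exists_NF h hr
  rw [trace_diag_pow hN]
  calc |∑ i, η i ^ n| ≤ ∑ i, |η i ^ n| := Finset.abs_sum_le_sum_abs _ _
    _ ≤ ∑ i : ι, (c / (c + r)) ^ n := by
        apply Finset.sum_le_sum
        intro i _
        rw [abs_pow]
        exact pow_le_pow_left₀ (abs_nonneg _) ((hN.le i).trans (hN.lc c hcA hc i)) n
    _ = _ := by simp

theorem gn_bound {A D : Matrix ι ι ℂ} (h : IsPair A D) {c : ℝ} (hc : 0 < c)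
    (hcA : (c • (1 : Matrix ι ι ℂ) - A).PosSemidef) {r : ℝ} (hr : 0 ≤ r) (n : ℕ) :
    |gn A D n r| ≤ Fintype.card ι * (c / (c + r)) ^ n := by
  obtain ⟨V, W, k, η, hN⟩ := exists_NF h hr
  have e : gn A D n r = ∑ i, (k i i).re * η i ^ n := by
    unfold gn
    rw [hN.hH, hN.hK, conj_pow hN.wv hN.vw]
    have : V * k * W * (V * (Matrix.diagonal fun i => (η i : ℂ)) ^ n * W) =
        V * (k * (Matrix.diagonal fun i => (η i : ℂ)) ^ n) * W := by
      calc _ = V * k * (W * V) * (Matrix.diagonal fun i => (η i : ℂ)) ^ n * W := by noncomm_ring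
        _ = _ := by rw [hN.wv]; noncomm_ring
    rw [this, Matrix.trace_mul_comm, ← mul_assoc, hN.wv, one_mul, Matrix.diagonal_pow]
    unfold Matrix.trace
    rw [Complex.re_sum]
    apply Finset.sum_congr rfl
    intro a _
    rw [Matrix.diag_apply, Matrix.mul_diagonal]
    simp only [Pi.pow_apply, ← Complex.ofReal_pow]
    rw [Complex.re_mul_ofReal]
  rw [e]
  have hone : c / (c + r) ≤ 1 := by
    rw [div_le_one (by positivity)]; linarith
  calc |∑ i, (k i i).re * η i ^ n| ≤ ∑ i, |(k i i).re * η i ^ n| :=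
        Finset.abs_sum_le_sum_abs _ _
    _ ≤ ∑ i : ι, (c / (c + r)) ^ n := by
        apply Finset.sum_le_sum
        intro i _
        rw [abs_mul, abs_pow]
        have h1 : |(k i i).re| ≤ 1 := by
          rw [abs_of_nonneg ((abs_nonneg _).trans (hN.le i))]
          exact (hN.lc c hcA hc i).trans hone
        have h2 : |η i| ^ n ≤ (c / (c + r)) ^ n :=
          pow_le_pow_left₀ (abs_nonneg _) ((hN.le i).trans (hN.lc c hcA hc i)) n
        calc |(k i i).re| * |η i| ^ n ≤ 1 * (c / (c + r)) ^ n := by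
              apply mul_le_mul h1 h2 (by positivity) zero_le_one
          _ = _ := one_mul _
    _ = _ := by simp

theorem continuousOn_tn {A D : Matrix ι ι ℂ} (hA : A.PosDef) (n : ℕ) :
    ContinuousOn (fun r => tn A D n r) (Ioi 0) := by
  intro r hr
  obtain ⟨f', hf, -⟩ := hasDerivAt_tn (D := D) hA n (r := r) hr
  exact hf.continuousAt.continuousWithinAt

/-- the majorant is integrable -/
theorem integrableOn_majorant {α c : ℝ} (h0 : 0 < α) (hc : 0 < c) {n : ℕ} (hα : α < n) :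
    IntegrableOn (fun r : ℝ => r ^ (α - 1) * (c / (c + r)) ^ n) (Ioi 0) := by
  have hmeas : ContinuousOn (fun r : ℝ => r ^ (α - 1) * (c / (c + r)) ^ n) (Ioi 0) := by
    intro r hr
    have hr' : 0 < r := hr
    apply ContinuousAt.continuousWithinAt
    have h1 : ContinuousAt (fun r : ℝ => r ^ (α - 1)) r :=
      Real.continuousAt_rpow_const _ _ (Or.inl hr'.ne')
    have h2 : ContinuousAt (fun r : ℝ => (c / (c + r)) ^ n) r := by
      apply ContinuousAt.pow
      apply ContinuousAt.div continuousAt_const (by fun_prop)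
      positivity
    exact h1.mul h2
  have hsplit : Ioi (0 : ℝ) = Ioc 0 1 ∪ Ioi 1 := by
    rw [Ioc_union_Ioi_eq_Ioi zero_le_one]
  rw [hsplit]
  apply IntegrableOn.union
  · have h1 : IntegrableOn (fun r : ℝ => r ^ (α - 1)) (Ioc 0 1) := by
      have := intervalIntegral.intervalIntegrable_rpow' (a := 0) (b := 1) (r := α - 1)
        (by linarith)
      rwa [intervalIntegrable_iff_integrableOn_Ioc_of_le zero_le_one] at this
    refine Integrable.mono h1 ?_ ?_
    · exact (hmeas.mono (fun x hx => hx.1)).aestronglyMeasurable measurableSet_Ioc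
    · rw [ae_restrict_iff' measurableSet_Ioc]
      refine Eventually.of_forall fun r hr => ?_
      have hr0 : 0 < r := hr.1
      rw [norm_mul, Real.norm_eq_abs ((c / (c + r)) ^ n), abs_of_nonneg (by positivity)]
      have : (c / (c + r)) ^ n ≤ 1 := by
        apply pow_le_one₀ (by positivity)
        rw [div_le_one (by positivity)]; linarith
      calc ‖r ^ (α - 1)‖ * (c / (c + r)) ^ n ≤ ‖r ^ (α - 1)‖ * 1 := by gcongr
        _ = _ := mul_one _
  · have h1 : IntegrableOn (fun r : ℝ => c ^ n * r ^ (α - 1 - n)) (Ioi 1) := by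
      apply Integrable.const_mul
      exact integrableOn_Ioi_rpow_of_lt (by linarith) one_pos
    refine Integrable.mono h1 ?_ ?_
    · exact (hmeas.mono (fun x (hx : x ∈ Ioi (1 : ℝ)) =>
        show x ∈ Ioi (0 : ℝ) from lt_trans one_pos (show (1 : ℝ) < x from hx))).aestronglyMeasurable
        measurableSet_Ioi
    · rw [ae_restrict_iff' measurableSet_Ioi]
      refine Eventually.of_forall fun r hr => ?_
      have hr1 : (1 : ℝ) < r := hr
      have hr0 : 0 < r := by linarith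
      rw [Real.norm_eq_abs, Real.norm_eq_abs, abs_of_nonneg (by positivity),
        abs_of_nonneg (by positivity)]
      have h2 : (c / (c + r)) ^ n ≤ c ^ n / r ^ n := by
        rw [← div_pow]
        apply pow_le_pow_left₀ (by positivity)
        apply div_le_div_of_nonneg_left hc.le hr0 (by linarith)
      have h3 : r ^ (α - 1 - n) = r ^ (α - 1) / r ^ n := by
        rw [Real.rpow_sub hr0, Real.rpow_natCast]
      rw [h3]
      calc r ^ (α - 1) * (c / (c + r)) ^ n ≤ r ^ (α - 1) * (c ^ n / r ^ n) := by gcongr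
        _ = _ := by ring

theorem integrableOn_tn' {A D : Matrix ι ι ℂ} (h : IsPair A D) {α : ℝ} (h0 : 0 < α) {n : ℕ}
    (hα : α < n) : IntegrableOn (fun r => r ^ (α - 1) * tn A D n r) (Ioi 0) := by
  obtain ⟨c, hc, hcA⟩ := exists_bound h.pos
  have h1 := (integrableOn_majorant h0 hc hα).const_mul (Fintype.card ι : ℝ)
  refine Integrable.mono h1 ?_ ?_
  · apply ContinuousOn.aestronglyMeasurable _ measurableSet_Ioi
    apply ContinuousOn.mul _ (continuousOn_tn h.pos n)
    intro r hr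
    exact (Real.continuousAt_rpow_const _ _ (Or.inl (ne_of_gt hr))).continuousWithinAt
  · rw [ae_restrict_iff' measurableSet_Ioi]
    refine Eventually.of_forall fun r hr => ?_
    have hr0 : 0 < r := hr
    rw [Real.norm_eq_abs, Real.norm_eq_abs, abs_mul]
    rw [abs_of_nonneg (a := (Fintype.card ι : ℝ) * (r ^ (α - 1) * (c / (c + r)) ^ n))
      (by positivity), abs_of_nonneg (a := r ^ (α - 1)) (by positivity)]
    calc r ^ (α - 1) * |tn A D n r| ≤
        r ^ (α - 1) * (Fintype.card ι * (c / (c + r)) ^ n) := by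
          gcongr
          exact tn_bound h hc hcA hr0.le n
      _ = _ := by ring


/-- the primitive -/
noncomputable def Psi (α : ℝ) (A D : Matrix ι ι ℂ) (n : ℕ) (r : ℝ) : ℝ :=
  r ^ α * ((n + 1 - α) * tn A D n r + n * gn A D n r)

theorem hasDerivAt_Psi {A D : Matrix ι ι ℂ} (hA : A.PosDef) (α : ℝ) (n : ℕ) {r : ℝ}
    (hr : 0 < r) : HasDerivAt (fun s => Psi α A D n s)
      (r ^ (α - 1) * (n * qn A D n r - (n - α) * (n + 1 - α) * tn A D n r)) r := by
  obtain ⟨f', hf, hf'⟩ := hasDerivAt_tn (D := D) hA n hr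
  obtain ⟨g', hg, hg'⟩ := hasDerivAt_gn (D := D) hA n hr
  have h1 : HasDerivAt (fun s : ℝ => s ^ α) (α * r ^ (α - 1)) r :=
    Real.hasDerivAt_rpow_const (Or.inl hr.ne')
  have h2 := h1.mul ((hf.const_mul ((n : ℝ) + 1 - α)).add (hg.const_mul (n : ℝ)))
  have h3 : r ^ α = r ^ (α - 1) * r := by
    rw [← Real.rpow_add_one hr.ne']; congr 1; ring
  have e0 : α * r ^ (α - 1) * (((n : ℝ) + 1 - α) * tn A D n r + n * gn A D n r) +
      r ^ α * (((n : ℝ) + 1 - α) * f' + n * g') =
      r ^ (α - 1) * (n * qn A D n r - (n - α) * (n + 1 - α) * tn A D n r) := by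
    rw [h3]
    have e1 : r ^ (α - 1) * r * (((n : ℝ) + 1 - α) * f' + n * g') =
        r ^ (α - 1) * (((n : ℝ) + 1 - α) * (r * f') + n * (r * g')) := by ring
    rw [e1, hf', hg']
    ring
  rw [← e0]
  exact h2

theorem Psi_bound {A D : Matrix ι ι ℂ} (h : IsPair A D) {c : ℝ} (hc : 0 < c)
    (hcA : (c • (1 : Matrix ι ι ℂ) - A).PosSemidef) {α : ℝ} {n : ℕ}
    (hα : α < n) {r : ℝ} (hr : 0 < r) :
    |Psi α A D n r| ≤ (((n : ℝ) + 1 - α) + n) * Fintype.card ι * (r ^ α * (c / (c + r)) ^ n) := by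
  unfold Psi
  have h1 := tn_bound h hc hcA hr.le n
  have h2 := gn_bound h hc hcA hr.le n
  have h3 : 0 < r ^ α := by positivity
  rw [abs_mul, abs_of_pos h3]
  have h4 : |((n : ℝ) + 1 - α) * tn A D n r + n * gn A D n r| ≤
      ((n : ℝ) + 1 - α) * (Fintype.card ι * (c / (c + r)) ^ n) +
        n * (Fintype.card ι * (c / (c + r)) ^ n) := by
    refine (abs_add_le _ _).trans ?_
    rw [abs_mul, abs_mul, abs_of_pos (by linarith : 0 < (n : ℝ) + 1 - α),
      abs_of_nonneg (Nat.cast_nonneg (α := ℝ) n)]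
    gcongr
    linarith
  calc r ^ α * |((n : ℝ) + 1 - α) * tn A D n r + n * gn A D n r| ≤
      r ^ α * (((n : ℝ) + 1 - α) * (Fintype.card ι * (c / (c + r)) ^ n) +
        n * (Fintype.card ι * (c / (c + r)) ^ n)) := by gcongr
    _ = _ := by ring

theorem tendsto_Psi_top {A D : Matrix ι ι ℂ} (h : IsPair A D) {α : ℝ} {n : ℕ}
    (hα : α < n) : Tendsto (fun m : ℕ => Psi α A D n ((m : ℝ) + 1)) atTop (𝓝 0) := by
  obtain ⟨c, hc, hcA⟩ := exists_bound h.pos
  apply squeeze_zero_norm (a := fun m : ℕ => (((n : ℝ) + 1 - α) + n) * Fintype.card ι *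
    (c ^ n * ((m : ℝ) + 1) ^ (-(n - α))))
  · intro m
    have hr : (0 : ℝ) < (m : ℝ) + 1 := by positivity
    refine (Psi_bound h hc hcA hα hr).trans ?_
    have hcoef : 0 ≤ (((n : ℝ) + 1 - α) + n) * Fintype.card ι := by
      have : 0 < (n : ℝ) + 1 - α := by linarith
      positivity
    apply mul_le_mul_of_nonneg_left _ hcoef
    set r := (m : ℝ) + 1
    have h2 : (c / (c + r)) ^ n ≤ c ^ n / r ^ n := by
      rw [← div_pow]
      apply pow_le_pow_left₀ (by positivity)
      apply div_le_div_of_nonneg_left hc.le hr (by linarith)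
    have h3 : r ^ (-((n : ℝ) - α)) = r ^ α / r ^ n := by
      rw [neg_sub, Real.rpow_sub hr, Real.rpow_natCast]
    rw [h3]
    calc r ^ α * (c / (c + r)) ^ n ≤ r ^ α * (c ^ n / r ^ n) := by gcongr
      _ = _ := by ring
  · have h1 : Tendsto (fun m : ℕ => (m : ℝ) + 1) atTop atTop :=
      tendsto_atTop_add_const_right _ _ tendsto_natCast_atTop_atTop
    have h2 := (tendsto_rpow_neg_atTop (y := (n : ℝ) - α) (by linarith)).comp h1
    have h3 := (h2.const_mul (c ^ n)).const_mul ((((n : ℝ) + 1 - α) + n) * Fintype.card ι)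
    simpa using h3

theorem tendsto_Psi_zero {A D : Matrix ι ι ℂ} (h : IsPair A D) {α : ℝ} (h0 : 0 < α) {n : ℕ}
    (hα : α < n) : Tendsto (fun m : ℕ => Psi α A D n (1 / ((m : ℝ) + 1))) atTop (𝓝 0) := by
  obtain ⟨c, hc, hcA⟩ := exists_bound h.pos
  apply squeeze_zero_norm (a := fun m : ℕ => (((n : ℝ) + 1 - α) + n) * Fintype.card ι *
    ((m : ℝ) + 1) ^ (-α))
  · intro m
    have hr : (0 : ℝ) < 1 / ((m : ℝ) + 1) := by positivity
    refine (Psi_bound h hc hcA hα hr).trans ?_
    have hcoef : 0 ≤ (((n : ℝ) + 1 - α) + n) * Fintype.card ι := by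
      have : 0 < (n : ℝ) + 1 - α := by linarith
      positivity
    apply mul_le_mul_of_nonneg_left _ hcoef
    have h2 : (c / (c + 1 / ((m : ℝ) + 1))) ^ n ≤ 1 := by
      apply pow_le_one₀ (by positivity)
      rw [div_le_one (by positivity)]; linarith
    have h3 : (1 / ((m : ℝ) + 1)) ^ α = ((m : ℝ) + 1) ^ (-α) := by
      rw [one_div, Real.inv_rpow (by positivity), Real.rpow_neg (by positivity)]
    rw [← h3]
    calc (1 / ((m : ℝ) + 1)) ^ α * (c / (c + 1 / ((m : ℝ) + 1))) ^ n ≤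
        (1 / ((m : ℝ) + 1)) ^ α * 1 := by gcongr
      _ = _ := mul_one _
  · have h1 : Tendsto (fun m : ℕ => (m : ℝ) + 1) atTop atTop :=
      tendsto_atTop_add_const_right _ _ tendsto_natCast_atTop_atTop
    have h2 := (tendsto_rpow_neg_atTop h0).comp h1
    have h3 := h2.const_mul ((((n : ℝ) + 1 - α) + n) * Fintype.card ι)
    simpa using h3

theorem main_ineq {A D : Matrix ι ι ℂ} (h : IsPair A D) {α : ℝ} (h0 : 0 < α) {n : ℕ}
    (hα : α < n) (φ : ℝ → ℝ) (hφi : IntegrableOn φ (Ioi 0))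
    (hφ : ∀ r, 0 < r → φ r ≤ r ^ (α - 1) * (n * qn A D n r -
      (n - α) * (n + 1 - α) * tn A D n r)) : ∫ r in Ioi (0 : ℝ), φ r ≤ 0 := by
  have hun : ⋃ m : ℕ, Ioc (1 / ((m : ℝ) + 1)) ((m : ℝ) + 1) = Ioi 0 := by
    ext x
    simp only [mem_iUnion, mem_Ioc, mem_Ioi]
    constructor
    · rintro ⟨m, h1, h2⟩
      have : (0 : ℝ) < 1 / ((m : ℝ) + 1) := by positivity
      linarith
    · intro hx
      obtain ⟨m, hm⟩ := exists_nat_gt (x + 1 / x)
      refine ⟨m, ?_, ?_⟩
      · rw [div_lt_iff₀ (by positivity)]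
        have h1 : 1 / x < m := by linarith
        rw [div_lt_iff₀ hx] at h1
        nlinarith
      · have : 0 < 1 / x := by positivity
        linarith
  have hmono : Monotone fun m : ℕ => Ioc (1 / ((m : ℝ) + 1)) ((m : ℝ) + 1) := by
    intro m m' hmm
    apply Ioc_subset_Ioc
    · apply one_div_le_one_div_of_le (by positivity)
      have : (m : ℝ) ≤ m' := by exact_mod_cast hmm
      linarith
    · have : (m : ℝ) ≤ m' := by exact_mod_cast hmm
      linarith
  have hlim := tendsto_setIntegral_of_monotone (μ := volume) (f := φ)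
    (s := fun m : ℕ => Ioc (1 / ((m : ℝ) + 1)) ((m : ℝ) + 1)) (fun m => measurableSet_Ioc) hmono
    (by rw [hun]; exact hφi)
  rw [hun] at hlim
  have hlim2 : Tendsto (fun m : ℕ => Psi α A D n ((m : ℝ) + 1) - Psi α A D n (1 / ((m : ℝ) + 1)))
      atTop (𝓝 0) := by
    simpa using (tendsto_Psi_top h hα).sub (tendsto_Psi_zero h h0 hα)
  refine le_of_tendsto_of_tendsto' hlim hlim2 fun m => ?_
  have hab : 1 / ((m : ℝ) + 1) ≤ (m : ℝ) + 1 := by
    rw [div_le_iff₀ (by positivity)]; nlinarith [Nat.cast_nonneg (α := ℝ) m]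
  have hpos : (0 : ℝ) < 1 / ((m : ℝ) + 1) := by positivity
  rw [← intervalIntegral.integral_of_le hab]
  apply intervalIntegral.integral_le_sub_of_hasDeriv_right_of_le hab (g' := fun r =>
    r ^ (α - 1) * (n * qn A D n r - (n - α) * (n + 1 - α) * tn A D n r))
  · intro x hx
    exact (hasDerivAt_Psi h.pos α n (lt_of_lt_of_le hpos hx.1)).continuousAt.continuousWithinAt
  · intro x hx
    exact (hasDerivAt_Psi h.pos α n (lt_trans hpos hx.1)).hasDerivWithinAt
  · exact hφi.mono_set fun x hx => lt_of_lt_of_le hpos hx.1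
  · intro x hx
    exact hφ x (lt_trans hpos hx.1)

end Pool.Agent.RC.DEC

namespace Pool.Agent.RC

open DEC

variable {ι : Type} [Fintype ι] [DecidableEq ι]

theorem In_dec (α : ℝ) (n : ℕ) (h0 : 0 < α) (hα : α < n) (hn : Even n) (A D : Matrix ι ι ℂ)
    (h : IsPair A D) :
    ((n : ℝ) * (n + 1)) * In α A D (n + 2) ≤ ((n - α) * (n + 1 - α)) * In α A D n := by
  have i1 := integrableOn_tn' h h0 hα
  have i2 := integrableOn_tn' h h0 (n := n + 2) (by push_cast; linarith)
  have key := main_ineq h h0 hα (fun r => ((n : ℝ) * (n + 1)) * (r ^ (α - 1) * tn A D (n + 2) r) -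
    ((n - α) * (n + 1 - α)) * (r ^ (α - 1) * tn A D n r))
    ((i2.const_mul _).sub (i1.const_mul _)) (by
      intro r hr
      have hq := qn_ge h hr.le n hn
      have hp : 0 < r ^ (α - 1) := by positivity
      have : (n : ℝ) * ((n + 1) * tn A D (n + 2) r) ≤ n * qn A D n r := by gcongr
      nlinarith)
  rw [integral_sub (i2.const_mul _) (i1.const_mul _), integral_const_mul,
    integral_const_mul] at key
  unfold In
  linarith

theorem DEC.integrableOn_bet' (α : ℝ) (n : ℕ) (h0 : 0 < α) (hα : α < n) :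
    IntegrableOn (fun r : ℝ => r ^ (α - 1) * ((1 + r) ^ n)⁻¹) (Ioi 0) := by
  have := integrableOn_majorant h0 one_pos hα
  refine this.congr_fun (fun r _ => ?_) measurableSet_Ioi
  simp

theorem bet_rec (α : ℝ) (n : ℕ) (h0 : 0 < α) (hα : α < n) :
    ((n : ℝ) * (n + 1)) * bet α (n + 2) = ((n - α) * (n + 1 - α)) * bet α n := by
  have i1 := DEC.integrableOn_bet' α n h0 hα
  have i2 := DEC.integrableOn_bet' α (n + 2) h0 (by push_cast; linarith)
  have hderiv : ∀ r ∈ Ioi (0 : ℝ), HasDerivAt (fun r : ℝ => r ^ α *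
      (((n : ℝ) + 1 - α) * ((1 + r) ^ n)⁻¹ + n * ((1 + r) ^ (n + 1))⁻¹))
      (((n : ℝ) * (n + 1)) * (r ^ (α - 1) * ((1 + r) ^ (n + 2))⁻¹) -
        ((n - α) * (n + 1 - α)) * (r ^ (α - 1) * ((1 + r) ^ n)⁻¹)) r := by
    intro r hr
    have hr0 : 0 < r := hr
    have h1 : HasDerivAt (fun s : ℝ => s ^ α) (α * r ^ (α - 1)) r :=
      Real.hasDerivAt_rpow_const (Or.inl hr0.ne')
    have hb : HasDerivAt (fun s : ℝ => 1 + s) 1 r := by
      simpa using (hasDerivAt_id r).const_add 1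
    have hpow : ∀ m : ℕ, HasDerivAt (fun s : ℝ => ((1 + s) ^ m)⁻¹)
        (-(m : ℝ) * ((1 + r) ^ (m + 1))⁻¹) r := by
      intro m
      have hne : (1 + r) ≠ 0 := by positivity
      have h2 : HasDerivAt (fun s : ℝ => (1 + s) ^ m) (m * (1 + r) ^ (m - 1) * 1) r := hb.pow m
      have h3 := h2.inv (pow_ne_zero m hne)
      have e : -((m : ℝ) * (1 + r) ^ (m - 1) * 1) / ((1 + r) ^ m) ^ 2 =
          -(m : ℝ) * ((1 + r) ^ (m + 1))⁻¹ := by
        rcases m with _ | m
        · simp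
        · simp only [Nat.add_sub_cancel]
          field_simp
          ring
      rw [← e]
      exact h3
    have h2 := h1.mul (((hpow n).const_mul ((n : ℝ) + 1 - α)).add
      ((hpow (n + 1)).const_mul (n : ℝ)))
    have h3 : r ^ α = r ^ (α - 1) * r := by
      rw [← Real.rpow_add_one hr0.ne']; congr 1; ring
    have e0 : α * r ^ (α - 1) * (((n : ℝ) + 1 - α) * ((1 + r) ^ n)⁻¹ +
        n * ((1 + r) ^ (n + 1))⁻¹) +
        r ^ α * (((n : ℝ) + 1 - α) * (-(n : ℝ) * ((1 + r) ^ (n + 1))⁻¹) +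
          n * (-((n + 1 : ℕ) : ℝ) * ((1 + r) ^ (n + 1 + 1))⁻¹)) =
        ((n : ℝ) * (n + 1)) * (r ^ (α - 1) * ((1 + r) ^ (n + 2))⁻¹) -
        ((n - α) * (n + 1 - α)) * (r ^ (α - 1) * ((1 + r) ^ n)⁻¹) := by
      rw [h3]
      have hne : (1 + r) ≠ 0 := by positivity
      push_cast
      field_simp
      ring
    rw [← e0]
    exact h2
  have hcont : ContinuousWithinAt (fun r : ℝ => r ^ α *
      (((n : ℝ) + 1 - α) * ((1 + r) ^ n)⁻¹ + n * ((1 + r) ^ (n + 1))⁻¹)) (Ici 0) 0 := by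
    apply ContinuousAt.continuousWithinAt
    apply ContinuousAt.mul
    · exact Real.continuousAt_rpow_const _ _ (Or.inr h0.le)
    · have : ∀ m : ℕ, ContinuousAt (fun r : ℝ => ((1 + r) ^ m)⁻¹) 0 := by
        intro m
        apply ContinuousAt.inv₀ (by fun_prop)
        simp
      exact ((this n).const_mul _).add ((this (n + 1)).const_mul _)
  have htop : Tendsto (fun r : ℝ => r ^ α *
      (((n : ℝ) + 1 - α) * ((1 + r) ^ n)⁻¹ + n * ((1 + r) ^ (n + 1))⁻¹)) atTop (𝓝 0) := by
    apply squeeze_zero_norm' (a := fun r : ℝ => (((n : ℝ) + 1 - α) + n) * r ^ (-(n - α)))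
    · filter_upwards [eventually_gt_atTop 0] with r hr
      have hα' : 0 < (n : ℝ) + 1 - α := by linarith
      rw [Real.norm_eq_abs, abs_of_nonneg (by positivity)]
      have h3 : r ^ (-((n : ℝ) - α)) = r ^ α * (r ^ n)⁻¹ := by
        rw [neg_sub, Real.rpow_sub hr, Real.rpow_natCast]; rfl
      rw [h3]
      have h4 : ((1 + r) ^ n)⁻¹ ≤ (r ^ n)⁻¹ := by
        apply inv_anti₀ (by positivity)
        apply pow_le_pow_left₀ hr.le; linarith
      have h5 : ((1 + r) ^ (n + 1))⁻¹ ≤ (r ^ n)⁻¹ := by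
        apply inv_anti₀ (by positivity)
        calc r ^ n ≤ (1 + r) ^ n := by apply pow_le_pow_left₀ hr.le; linarith
          _ ≤ (1 + r) ^ (n + 1) := by
            apply pow_le_pow_right₀ (by linarith); omega
      calc r ^ α * (((n : ℝ) + 1 - α) * ((1 + r) ^ n)⁻¹ + n * ((1 + r) ^ (n + 1))⁻¹) ≤
          r ^ α * (((n : ℝ) + 1 - α) * (r ^ n)⁻¹ + n * (r ^ n)⁻¹) := by gcongr
        _ = _ := by ring
    · have h2 := (tendsto_rpow_neg_atTop (y := (n : ℝ) - α) (by linarith)).const_mul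
        (((n : ℝ) + 1 - α) + n)
      simpa using h2
  have key := integral_Ioi_of_hasDerivAt_of_tendsto hcont hderiv
    ((i2.const_mul _).sub (i1.const_mul _)) htop
  rw [integral_sub (i2.const_mul _) (i1.const_mul _), integral_const_mul,
    integral_const_mul] at key
  rw [Real.zero_rpow h0.ne'] at key
  unfold bet
  linarith

end Pool.Agent.RC
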