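import Pool.Agent.Lib_helper92.RC.S24a
import Pool.Agent.Lib_helper92.RC.Trf
import Pool.Agent.Lib_helper95.RC.Defs24

open scoped BigOperators ComplexOrder Kronecker MatrixOrder Topology
open MeasureTheory Set Matrix Filter

namespace Pool.Agent.RC.S24

open SER DEC

variable {ι : Type} [Fintype ι] [DecidableEq ι]

/-- scalar kernel of `j2` -/
noncomputable def kq (a b r : ℝ) : ℝ :=
  ((a / (a + r)) ^ 2 + (a / (a + r)) * (b / (b + r)) + (b / (b + r)) ^ 2) / ((a + r) * (b + r))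

/-- eigenbasis data -/
structure EB (A D : Matrix ι ι ℂ) (U E : Matrix ι ι ℂ) (a : ι → ℝ) : Prop where
  u1 : U * Uᴴ = 1
  u2 : Uᴴ * U = 1
  hA : A = U * Matrix.diagonal (fun i => (a i : ℂ)) * Uᴴ
  hE : D = U * E * Uᴴ
  pos : ∀ i, 0 < a i
  hH : E.IsHermitian

theorem exists_EB {A D : Matrix ι ι ℂ} (hA : A.PosDef) (hD : D.IsHermitian) :
    ∃ U E a, EB A D U E a := by
  obtain ⟨U, h1, h2, h3⟩ := exists_diag_eig hA.isHermitian
  refine ⟨U, Uᴴ * D * U, hA.isHermitian.eigenvalues, h1, h2, ?_, ?_, ?_, ?_⟩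
  · rw [← h3]
    calc A = (U * Uᴴ) * A * (U * Uᴴ) := by rw [h1]; simp
      _ = _ := by noncomm_ring
  · calc D = (U * Uᴴ) * D * (U * Uᴴ) := by rw [h1]; simp
      _ = _ := by noncomm_ring
  · exact hA.eigenvalues_pos
  · exact Matrix.isHermitian_conjTranspose_mul_mul U hD

section

variable {A D U E : Matrix ι ι ℂ} {a : ι → ℝ}

theorem EB.res (h : EB A D U E a) {r : ℝ} (hr : 0 ≤ r) :
    Res A r = U * Matrix.diagonal (fun i => ((1 / (a i + r) : ℝ) : ℂ)) * Uᴴ := by
  unfold Res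
  apply Matrix.inv_eq_right_inv
  have e1 : A + (r : ℂ) • (1 : Matrix ι ι ℂ) =
      U * Matrix.diagonal (fun i => ((a i + r : ℝ) : ℂ)) * Uᴴ := by
    have e2 : Matrix.diagonal (fun i => ((a i + r : ℝ) : ℂ)) =
        Matrix.diagonal (fun i => (a i : ℂ)) + (r : ℂ) • (1 : Matrix ι ι ℂ) := by
      ext i j
      by_cases hij : i = j
      · subst hij; simp
      · simp [hij]
    rw [e2, mul_add, add_mul, ← h.hA, Matrix.mul_smul, Matrix.smul_mul, mul_one, h.u1]
  rw [e1]
  calc U * Matrix.diagonal (fun i => ((a i + r : ℝ) : ℂ)) * Uᴴ *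
      (U * Matrix.diagonal (fun i => ((1 / (a i + r) : ℝ) : ℂ)) * Uᴴ) =
      U * Matrix.diagonal (fun i => ((a i + r : ℝ) : ℂ)) * (Uᴴ * U) *
      Matrix.diagonal (fun i => ((1 / (a i + r) : ℝ) : ℂ)) * Uᴴ := by noncomm_ring
    _ = U * (Matrix.diagonal (fun i => ((a i + r : ℝ) : ℂ)) *
      Matrix.diagonal (fun i => ((1 / (a i + r) : ℝ) : ℂ))) * Uᴴ := by
        rw [h.u2]; noncomm_ring
    _ = 1 := by
        rw [Matrix.diagonal_mul_diagonal]
        have : (fun i => ((a i + r : ℝ) : ℂ) * ((1 / (a i + r) : ℝ) : ℂ)) = fun _ => 1 := by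
          funext i
          have := h.pos i
          rw [← Complex.ofReal_mul, mul_one_div_cancel (by positivity)]
          simp
        rw [this, Matrix.diagonal_one, mul_one, h.u1]

theorem trace_four (x y : ι → ℝ) (hE : E.IsHermitian) :
    (Matrix.trace (Matrix.diagonal (fun i => (x i : ℂ)) * E * Matrix.diagonal
      (fun i => (y i : ℂ)) * E)).re = ∑ i, ∑ j, Complex.normSq (E i j) * (x i * y j) := by
  unfold Matrix.trace
  rw [Complex.re_sum]
  apply Finset.sum_congr rfl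
  intro i _
  rw [Matrix.diag_apply, Matrix.mul_apply, Complex.re_sum]
  apply Finset.sum_congr rfl
  intro j _
  rw [Matrix.mul_diagonal, Matrix.diagonal_mul]
  have hk : E j i = star (E i j) := (hE.apply i j).symm ▸ by simp
  rw [hk]
  have : (x i : ℂ) * E i j * (y j : ℂ) * star (E i j) =
      ((Complex.normSq (E i j) * (x i * y j) : ℝ) : ℂ) := by
    push_cast
    rw [← Complex.mul_conj, Complex.star_def]
    ring
  rw [this, Complex.ofReal_re]

theorem EB.resD (h : EB A D U E a) {r : ℝ} (hr : 0 ≤ r) :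
    Res A r * D = U * (Matrix.diagonal (fun i => ((1 / (a i + r) : ℝ) : ℂ)) * E) * Uᴴ := by
  rw [h.res hr]
  conv_lhs => rw [h.hE]
  calc _ = U * Matrix.diagonal (fun i => ((1 / (a i + r) : ℝ) : ℂ)) * (Uᴴ * U) * E * Uᴴ := by
        noncomm_ring
    _ = _ := by rw [h.u2]; noncomm_ring

theorem EB.resA (h : EB A D U E a) {r : ℝ} (hr : 0 ≤ r) :
    Res A r * A = U * (Matrix.diagonal (fun i => ((a i / (a i + r) : ℝ) : ℂ))) * Uᴴ := by
  rw [h.res hr]
  conv_lhs => rw [h.hA]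
  calc _ = U * Matrix.diagonal (fun i => ((1 / (a i + r) : ℝ) : ℂ)) * (Uᴴ * U) *
      Matrix.diagonal (fun i => (a i : ℂ)) * Uᴴ := by
        noncomm_ring
    _ = U * (Matrix.diagonal (fun i => ((1 / (a i + r) : ℝ) : ℂ)) *
      Matrix.diagonal (fun i => (a i : ℂ))) * Uᴴ := by rw [h.u2]; noncomm_ring
    _ = _ := by
        rw [Matrix.diagonal_mul_diagonal]
        congr 3
        funext i
        push_cast
        ring

theorem tr_conj (h : EB A D U E a) (X : Matrix ι ι ℂ) :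
    Matrix.trace (U * X * Uᴴ) = Matrix.trace X := by
  rw [Matrix.trace_mul_comm, ← mul_assoc, h.u2, one_mul]

theorem EB.tn2 (h : EB A D U E a) {r : ℝ} (hr : 0 ≤ r) :
    tn A D 2 r = ∑ i, ∑ j, Complex.normSq (E i j) * (1 / (a i + r) * (1 / (a j + r))) := by
  unfold tn
  rw [h.resD hr, pow_two]
  have e : U * (Matrix.diagonal (fun i => ((1 / (a i + r) : ℝ) : ℂ)) * E) * Uᴴ *
      (U * (Matrix.diagonal (fun i => ((1 / (a i + r) : ℝ) : ℂ)) * E) * Uᴴ) =
      U * (Matrix.diagonal (fun i => ((1 / (a i + r) : ℝ) : ℂ)) * E *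
        Matrix.diagonal (fun i => ((1 / (a i + r) : ℝ) : ℂ)) * E) * Uᴴ := by
    calc _ = U * (Matrix.diagonal (fun i => ((1 / (a i + r) : ℝ) : ℂ)) * E) * (Uᴴ *
      U) * (Matrix.diagonal (fun i => ((1 / (a i + r) : ℝ) : ℂ)) * E) * Uᴴ := by noncomm_ring
      _ = _ := by rw [h.u2]; noncomm_ring
  rw [e, tr_conj h, trace_four _ _ h.hH]

theorem EB.j2 (h : EB A D U E a) {r : ℝ} (hr : 0 ≤ r) :
    j2 A D r = ∑ i, ∑ j, Complex.normSq (E i j) * kq (a i) (a j) r := by
  unfold RC.j2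
  rw [h.resD hr, h.resA hr]
  set y : ι → ℝ := fun i => 1 / (a i + r) with hy
  set κ : ι → ℝ := fun i => a i / (a i + r) with hκ
  have e1 : U * (Matrix.diagonal (fun i => (κ i : ℂ))) * Uᴴ *
      (U * (Matrix.diagonal (fun i => (κ i : ℂ))) * Uᴴ) *
      (U * (Matrix.diagonal (fun i => (y i : ℂ)) * E) * Uᴴ) *
      (U * (Matrix.diagonal (fun i => (y i : ℂ)) * E) * Uᴴ) =
      U * (Matrix.diagonal (fun i => ((κ i ^ 2 * y i : ℝ) : ℂ)) * E *
        Matrix.diagonal (fun i => (y i : ℂ)) * E) * Uᴴ := by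
    calc _ = U * (Matrix.diagonal (fun i => (κ i : ℂ))) * (Uᴴ * U) *
      (Matrix.diagonal (fun i => (κ i : ℂ))) * (Uᴴ * U) *
      (Matrix.diagonal (fun i => (y i : ℂ)) * E) * (Uᴴ * U) *
      (Matrix.diagonal (fun i => (y i : ℂ)) * E) * Uᴴ := by noncomm_ring
      _ = U * ((Matrix.diagonal (fun i => (κ i : ℂ)) * Matrix.diagonal (fun i => (κ i : ℂ)) *
        Matrix.diagonal (fun i => (y i : ℂ))) * E * Matrix.diagonal (fun i => (y i : ℂ)) * E) *
        Uᴴ := by rw [h.u2]; noncomm_ring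
      _ = _ := by
        rw [Matrix.diagonal_mul_diagonal, Matrix.diagonal_mul_diagonal]
        congr 6
        funext i
        push_cast
        ring
  have e2 : U * (Matrix.diagonal (fun i => (κ i : ℂ))) * Uᴴ *
      (U * (Matrix.diagonal (fun i => (y i : ℂ)) * E) * Uᴴ) *
      (U * (Matrix.diagonal (fun i => (κ i : ℂ))) * Uᴴ) *
      (U * (Matrix.diagonal (fun i => (y i : ℂ)) * E) * Uᴴ) =
      U * (Matrix.diagonal (fun i => ((κ i * y i : ℝ) : ℂ)) * E *
        Matrix.diagonal (fun i => ((κ i * y i : ℝ) : ℂ)) * E) * Uᴴ := by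
    calc _ = U * (Matrix.diagonal (fun i => (κ i : ℂ))) * (Uᴴ * U) *
      (Matrix.diagonal (fun i => (y i : ℂ)) * E) * (Uᴴ * U) *
      (Matrix.diagonal (fun i => (κ i : ℂ))) * (Uᴴ * U) *
      (Matrix.diagonal (fun i => (y i : ℂ)) * E) * Uᴴ := by noncomm_ring
      _ = U * ((Matrix.diagonal (fun i => (κ i : ℂ)) *
        Matrix.diagonal (fun i => (y i : ℂ))) * E * (Matrix.diagonal (fun i => (κ i : ℂ)) *
        Matrix.diagonal (fun i => (y i : ℂ))) * E) *
        Uᴴ := by rw [h.u2]; noncomm_ring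
      _ = _ := by
        rw [Matrix.diagonal_mul_diagonal]
        have : (fun i => (κ i : ℂ) * (y i : ℂ)) = fun i => ((κ i * y i : ℝ) : ℂ) := by
          funext i; push_cast; ring
        rw [this]
  rw [e1, e2, tr_conj h, tr_conj h, trace_four _ _ h.hH, trace_four _ _ h.hH]
  have hsym : ∀ f : ι → ι → ℝ, ∑ i, ∑ j, Complex.normSq (E i j) * f i j =
      ∑ i, ∑ j, Complex.normSq (E i j) * f j i := by
    intro f
    rw [Finset.sum_comm]
    apply Finset.sum_congr rfl
    intro i _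
    apply Finset.sum_congr rfl
    intro j _
    have hk : E j i = star (E i j) := (h.hH.apply i j).symm ▸ by simp
    rw [hk, Complex.star_def, Complex.normSq_conj]
  rw [two_mul]
  nth_rewrite 2 [hsym]
  rw [← Finset.sum_add_distrib, ← Finset.sum_add_distrib]
  apply Finset.sum_congr rfl
  intro i _
  rw [← Finset.sum_add_distrib, ← Finset.sum_add_distrib]
  apply Finset.sum_congr rfl
  intro j _
  have := h.pos i
  have := h.pos j
  simp only [hy, hκ, kq]
  field_simp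
  ring

end

end Pool.Agent.RC.S24
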