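import Pool.Agent.Lib_helper92.RC.S24b

open scoped BigOperators ComplexOrder Kronecker MatrixOrder Topology
open MeasureTheory Set Matrix Filter

namespace Pool.Agent.RC

open SER DEC S24

variable {ι : Type} [Fintype ι] [DecidableEq ι]

theorem S24.qn_two (A D : Matrix ι ι ℂ) (r : ℝ) : qn A D 2 r = j2 A D r := by
  unfold qn j2
  simp only [Finset.sum_range_succ, Finset.sum_range_zero, zero_add, pow_zero, mul_one,
    Nat.sub_zero, pow_one, Nat.sub_self]
  norm_num
  have e1 : (Res A r * A * (Res A r * A) * (Res A r * D) ^ 2).trace =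
      (Res A r * A * (Res A r * A) * (Res A r * D) * (Res A r * D)).trace := by
    congr 1
    noncomm_ring
  have e2 : (Res A r * A * (Res A r * D) ^ 2 * (Res A r * A)).trace =
      (Res A r * A * (Res A r * A) * (Res A r * D) * (Res A r * D)).trace := by
    rw [Matrix.trace_mul_comm]
    congr 1
    noncomm_ring
  rw [e1, e2]
  ring

theorem S24.kq_nonneg {a b r : ℝ} (ha : 0 < a) (hb : 0 < b) (hr : 0 ≤ r) : 0 ≤ kq a b r := by
  unfold kq; positivity

theorem S24.kq_le {a b c r : ℝ} (ha : 0 < a) (hb : 0 < b) (hac : a ≤ c) (hbc : b ≤ c)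
    (hr : 0 ≤ r) : kq a b r ≤ 3 / (a * b) * (c / (c + r)) ^ 4 := by
  have hc : 0 < c := lt_of_lt_of_le ha hac
  have hk : ∀ x, 0 < x → x ≤ c → x / (x + r) ≤ c / (c + r) := by
    intro x hx hxc
    rw [div_le_div_iff₀ (by positivity) (by positivity)]
    nlinarith
  have h1 := hk a ha hac
  have h2 := hk b hb hbc
  set κ := c / (c + r)
  have e : kq a b r = ((a / (a + r)) ^ 2 + (a / (a + r)) * (b / (b + r)) + (b / (b + r)) ^ 2) *
      (a / (a + r)) * (b / (b + r)) / (a * b) := by
    unfold kq; field_simp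
  rw [e]
  set x := a / (a + r)
  set y := b / (b + r)
  have hx : 0 ≤ x := by positivity
  have hy : 0 ≤ y := by positivity
  have hκ : 0 ≤ κ := by positivity
  have e3 : 3 / (a * b) * κ ^ 4 = (3 * κ ^ 4) / (a * b) := by ring
  rw [e3]
  apply div_le_div_of_nonneg_right _ (by positivity)
  calc (x ^ 2 + x * y + y ^ 2) * x * y ≤ (κ ^ 2 + κ * κ + κ ^ 2) * κ * κ := by gcongr
    _ = _ := by ring

theorem S24.integrableOn_kq {α a b : ℝ} (h0 : 0 < α) (h4 : α < 4) (ha : 0 < a) (hb : 0 < b) :
    IntegrableOn (fun r : ℝ => r ^ (α - 1) * kq a b r) (Ioi 0) := by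
  have h1 := (integrableOn_majorant (α := α) (c := max a b) (n := 4) h0
    (lt_of_lt_of_le ha (le_max_left _ _)) (by exact_mod_cast h4)).const_mul (3 / (a * b))
  refine Integrable.mono' h1 ?_ ?_
  · apply ContinuousOn.aestronglyMeasurable _ measurableSet_Ioi
    apply cont_aux.mul
    intro r hr
    have hr0 : (0 : ℝ) < r := hr
    apply ContinuousAt.continuousWithinAt
    unfold kq
    have hx : ContinuousAt (fun r : ℝ => a / (a + r)) r :=
      continuousAt_const.div (by fun_prop) (by positivity)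
    have hy : ContinuousAt (fun r : ℝ => b / (b + r)) r :=
      continuousAt_const.div (by fun_prop) (by positivity)
    apply ContinuousAt.div
    · exact ((hx.pow 2).add (hx.mul hy)).add (hy.pow 2)
    · fun_prop
    · positivity
  · rw [ae_restrict_iff' measurableSet_Ioi]
    refine Eventually.of_forall fun r hr => ?_
    have hr0 : 0 < r := hr
    have hk := S24.kq_nonneg ha hb hr0.le
    rw [Real.norm_eq_abs, abs_of_nonneg (by positivity)]
    calc r ^ (α - 1) * kq a b r ≤
        r ^ (α - 1) * (3 / (a * b) * (max a b / (max a b + r)) ^ 4) := by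
          gcongr
          exact S24.kq_le ha hb (le_max_left _ _) (le_max_right _ _) hr0.le
      _ = _ := by ring

theorem S24.integrableOn_j2 {α : ℝ} (h0 : 0 < α) (h4 : α < 4) {A D : Matrix ι ι ℂ}
    (hA : A.PosDef) (hD : D.IsHermitian) :
    IntegrableOn (fun r : ℝ => r ^ (α - 1) * j2 A D r) (Ioi 0) := by
  obtain ⟨U, E, a, h⟩ := exists_EB hA hD
  have h1 : IntegrableOn (fun r : ℝ => ∑ i, ∑ j, Complex.normSq (E i j) *
      (r ^ (α - 1) * kq (a i) (a j) r)) (Ioi 0) := by
    apply integrable_finsetSum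
    intro i _
    apply integrable_finsetSum
    intro j _
    exact (S24.integrableOn_kq h0 h4 (h.pos i) (h.pos j)).const_mul _
  refine h1.congr_fun ?_ measurableSet_Ioi
  intro r hr
  have hr0 : (0 : ℝ) < r := hr
  simp only
  rw [h.j2 hr0.le, Finset.mul_sum]
  apply Finset.sum_congr rfl
  intro i _
  rw [Finset.mul_sum]
  apply Finset.sum_congr rfl
  intro j _
  ring

theorem S24.bet_pos' {α : ℝ} {n : ℕ} (h0 : 0 < α) (hα : α < n) : 0 < bet α n := by
  unfold bet
  apply pos_integral
  · intro r hr; positivity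
  · exact DEC.integrableOn_bet' α n h0 hα

theorem In4_le_T2 (α : ℝ) (h0 : 0 < α) (h4 : α < 4) (A D : Matrix ι ι ℂ) (h : IsPair A D) :
    In α A D 4 / bet α 4 ≤ T2 α A D := by
  have hD : D.IsHermitian := by
    have h1 := h.add.isHermitian
    have h2 := h.pos.isHermitian
    have := h1.sub h2
    simpa using this
  have hb : 0 < bet α 4 := S24.bet_pos' h0 (by exact_mod_cast h4)
  have hi4 := integrableOn_tn' h h0 (n := 4) (by exact_mod_cast h4)
  have hij := S24.integrableOn_j2 h0 h4 h.pos hD
  have key : 3 * In α A D 4 ≤ ∫ r in Ioi (0 : ℝ), r ^ (α - 1) * j2 A D r := by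
    unfold In
    rw [← integral_const_mul]
    apply setIntegral_mono_on (hi4.const_mul 3) hij measurableSet_Ioi
    intro r hr
    have hr0 : (0 : ℝ) < r := hr
    have h1 := qn_ge h hr0.le 2 even_two
    rw [S24.qn_two] at h1
    norm_num at h1
    calc 3 * (r ^ (α - 1) * tn A D 4 r) = r ^ (α - 1) * (3 * tn A D 4 r) := by ring
      _ ≤ r ^ (α - 1) * j2 A D r := by
          apply mul_le_mul_of_nonneg_left _ (by positivity)
          linarith
  unfold T2
  rw [div_le_div_iff₀ hb (by positivity)]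
  nlinarith

end Pool.Agent.RC
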