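import Pool.Agent.Lib_helper92.RC.Ser

open scoped BigOperators ComplexOrder Kronecker MatrixOrder Topology
open MeasureTheory Set Matrix Filter

namespace Pool.Agent.RC.S24

open SER DEC

/-- integrability from power bounds -/
theorem gen_int {F : ℝ → ℝ} {β K : ℝ} {p q : ℕ} (hF : ContinuousOn F (Ioi 0))
    (h1 : ∀ t, 1 ≤ t → |F t| ≤ K * t ^ p) (h2 : ∀ t, 0 < t → t ≤ 1 → |F t| ≤ K * t ^ q)
    (hp : (p : ℝ) < β) (hq : β < q) :
    IntegrableOn (fun r : ℝ => r ^ (β - 1) * F (1 / r)) (Ioi 0) := by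
  have hcF : ContinuousOn (fun r : ℝ => F (1 / r)) (Ioi 0) := by
    apply hF.comp (t := Ioi 0)
    · intro r hr
      exact (continuousAt_const.div continuousAt_id (ne_of_gt hr)).continuousWithinAt
    · intro r hr
      have : (0 : ℝ) < r := hr
      exact one_div_pos.2 this
  have hc := (cont_aux (α := β)).mul hcF
  rw [show Ioi (0 : ℝ) = Ioc 0 1 ∪ Ioi 1 from (Ioc_union_Ioi_eq_Ioi zero_le_one).symm]
  apply IntegrableOn.union
  · have hi := (int_rpow_Ioc (s := β - 1 - p) (by linarith)).const_mul K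
    refine Integrable.mono' hi ?_ ?_
    · exact (hc.mono (fun x hx => hx.1)).aestronglyMeasurable measurableSet_Ioc
    · rw [ae_restrict_iff' measurableSet_Ioc]
      refine Eventually.of_forall fun r hr => ?_
      have hr0 : 0 < r := hr.1
      rw [Real.norm_eq_abs, abs_mul, abs_of_nonneg (a := r ^ (β - 1)) (by positivity)]
      have ht := h1 (1 / r) (by rw [le_div_iff₀ hr0]; linarith [hr.2])
      have h3 : r ^ (β - 1 - p) = r ^ (β - 1) / r ^ p := by
        rw [Real.rpow_sub hr0, Real.rpow_natCast]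
      rw [h3]
      calc r ^ (β - 1) * |F (1 / r)| ≤ r ^ (β - 1) * (K * (1 / r) ^ p) := by gcongr
        _ = _ := by rw [one_div, inv_pow]; ring
  · have hi : IntegrableOn (fun r : ℝ => K * r ^ (β - 1 - q)) (Ioi 1) :=
      (integrableOn_Ioi_rpow_of_lt (by linarith) one_pos).const_mul K
    refine Integrable.mono' hi ?_ ?_
    · exact (hc.mono (fun x (hx : x ∈ Ioi (1 : ℝ)) =>
        show x ∈ Ioi (0 : ℝ) from lt_trans one_pos (show (1 : ℝ) < x from hx))).aestronglyMeasurable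
        measurableSet_Ioi
    · rw [ae_restrict_iff' measurableSet_Ioi]
      refine Eventually.of_forall fun r hr => ?_
      have hr1 : (1 : ℝ) < r := hr
      have hr0 : 0 < r := by linarith
      rw [Real.norm_eq_abs, abs_mul, abs_of_nonneg (a := r ^ (β - 1)) (by positivity)]
      have ht := h2 (1 / r) (by positivity) (by rw [div_le_iff₀ hr0]; linarith)
      have h3 : r ^ (β - 1 - q) = r ^ (β - 1) / r ^ q := by
        rw [Real.rpow_sub hr0, Real.rpow_natCast]
      rw [h3]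
      calc r ^ (β - 1) * |F (1 / r)| ≤ r ^ (β - 1) * (K * (1 / r) ^ q) := by gcongr
        _ = _ := by rw [one_div, inv_pow]; ring

/-- integration by parts -/
theorem gen_ibp {F F' : ℝ → ℝ} {β K : ℝ} {p q : ℕ} (hd : ∀ t, 0 < t → HasDerivAt F (F' t) t)
    (h1 : ∀ t, 1 ≤ t → |F t| ≤ K * t ^ p) (h2 : ∀ t, 0 < t → t ≤ 1 → |F t| ≤ K * t ^ q)
    (hp : (p : ℝ) < β) (hq : β < q)
    (hint : IntegrableOn (fun r : ℝ => r ^ (β - 1 - 1) * F' (1 / r)) (Ioi 0)) :
    ∫ r in Ioi (0 : ℝ), r ^ (β - 1 - 1) * F' (1 / r) =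
      β * ∫ r in Ioi (0 : ℝ), r ^ (β - 1) * F (1 / r) := by
  have hF : ContinuousOn F (Ioi 0) := fun t ht => (hd t ht).continuousAt.continuousWithinAt
  have hi := gen_int hF h1 h2 hp hq
  have hβ : 0 < β := lt_of_le_of_lt (Nat.cast_nonneg p) hp
  have hderiv : ∀ r ∈ Ioi (0 : ℝ), HasDerivAt (fun r : ℝ => r ^ β * F (1 / r))
      (β * (r ^ (β - 1) * F (1 / r)) - r ^ (β - 1 - 1) * F' (1 / r)) r := by
    intro r hr
    have hr0 : 0 < r := hr
    have e1 : HasDerivAt (fun s : ℝ => s ^ β) (β * r ^ (β - 1)) r :=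
      Real.hasDerivAt_rpow_const (Or.inl hr0.ne')
    have e2 : HasDerivAt (fun s : ℝ => 1 / s) (-(1 / r ^ 2)) r := by
      have := hasDerivAt_inv hr0.ne'
      simpa [one_div] using this
    have e3 : HasDerivAt (fun s : ℝ => F (1 / s)) (F' (1 / r) * (-(1 / r ^ 2))) r :=
      (hd (1 / r) (by positivity)).comp r e2
    have e4 := e1.mul e3
    have e5 : β * r ^ (β - 1) * F (1 / r) + r ^ β * (F' (1 / r) * (-(1 / r ^ 2))) =
        β * (r ^ (β - 1) * F (1 / r)) - r ^ (β - 1 - 1) * F' (1 / r) := by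
      have : r ^ (β - 1 - 1) = r ^ β / r ^ 2 := by
        rw [show β - 1 - 1 = β - (2 : ℕ) by push_cast; ring, Real.rpow_sub hr0,
          Real.rpow_natCast]
      rw [this]
      field_simp
      ring
    rw [← e5]
    exact e4
  have hcont : ContinuousWithinAt (fun r : ℝ => r ^ β * F (1 / r)) (Ici 0) 0 := by
    rw [← continuousWithinAt_Ioi_iff_Ici]
    have h00 : (fun r : ℝ => r ^ β * F (1 / r)) 0 = 0 := by
      simp [Real.zero_rpow hβ.ne']
    unfold ContinuousWithinAt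
    rw [h00]
    apply squeeze_zero_norm' (a := fun r : ℝ => K * r ^ (β - p))
    · have : Ioo (0 : ℝ) 1 ∈ 𝓝[>] (0 : ℝ) := Ioo_mem_nhdsGT one_pos
      filter_upwards [this] with r hr
      have hr0 : 0 < r := hr.1
      rw [Real.norm_eq_abs, abs_mul, abs_of_nonneg (a := r ^ β) (by positivity)]
      have ht := h1 (1 / r) (by rw [le_div_iff₀ hr0]; linarith [hr.2])
      have h3 : r ^ (β - p) = r ^ β / r ^ p := by
        rw [Real.rpow_sub hr0, Real.rpow_natCast]
      rw [h3]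
      calc r ^ β * |F (1 / r)| ≤ r ^ β * (K * (1 / r) ^ p) := by gcongr
        _ = _ := by rw [one_div, inv_pow]; ring
    · have : ContinuousAt (fun r : ℝ => K * r ^ (β - p)) 0 :=
        (Real.continuousAt_rpow_const _ _ (Or.inr (by linarith))).const_mul K
      have h3 := this.tendsto.mono_left (nhdsWithin_le_nhds (s := Ioi (0 : ℝ)))
      rw [Real.zero_rpow (by linarith), mul_zero] at h3
      exact h3
  have htop : Tendsto (fun r : ℝ => r ^ β * F (1 / r)) atTop (𝓝 0) := by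
    apply squeeze_zero_norm' (a := fun r : ℝ => K * r ^ (-(q - β)))
    · filter_upwards [eventually_ge_atTop 1] with r hr
      have hr0 : 0 < r := by linarith
      rw [Real.norm_eq_abs, abs_mul, abs_of_nonneg (a := r ^ β) (by positivity)]
      have ht := h2 (1 / r) (by positivity) (by rw [div_le_iff₀ hr0]; linarith)
      have h3 : r ^ (-((q : ℝ) - β)) = r ^ β / r ^ q := by
        rw [neg_sub, Real.rpow_sub hr0, Real.rpow_natCast]
      rw [h3]
      calc r ^ β * |F (1 / r)| ≤ r ^ β * (K * (1 / r) ^ q) := by gcongr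
        _ = _ := by rw [one_div, inv_pow]; ring
    · have := (tendsto_rpow_neg_atTop (y := (q : ℝ) - β) (by linarith)).const_mul K
      simpa using this
  have key := integral_Ioi_of_hasDerivAt_of_tendsto hcont hderiv ((hi.const_mul β).sub hint) htop
  rw [integral_sub (hi.const_mul β) hint, integral_const_mul, Real.zero_rpow hβ.ne'] at key
  linarith


noncomputable def φ0 (ε t : ℝ) : ℝ := Real.log (1 + t) - t + t ^ 2 / 2 - ε * t ^ 3 / 3
noncomputable def φ1 (ε t : ℝ) : ℝ := 1 / (1 + t) - 1 + t - ε * t ^ 2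
noncomputable def φ2 (ε t : ℝ) : ℝ := 1 - 2 * ε * t - 1 / (1 + t) ^ 2

theorem hd0 (ε : ℝ) {t : ℝ} (ht : -1 < t) : HasDerivAt (φ0 ε) (φ1 ε t) t := by
  unfold φ0 φ1
  have h1 : HasDerivAt (fun s : ℝ => Real.log (1 + s)) (1 / (1 + t)) t := by
    have := ((hasDerivAt_id t).const_add 1).log (by simp; linarith)
    simpa using this
  have h2 : HasDerivAt (fun s : ℝ => s ^ 2 / 2) t t :=
    ((hasDerivAt_pow 2 t).div_const 2).congr_deriv (by norm_num)
  have h3 : HasDerivAt (fun s : ℝ => ε * s ^ 3 / 3) (ε * t ^ 2) t :=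
    (((hasDerivAt_pow 3 t).const_mul ε).div_const 3).congr_deriv (by norm_num; ring)
  exact ((h1.sub (hasDerivAt_id t)).add h2).sub h3

theorem hd1 (ε : ℝ) {t : ℝ} (ht : -1 < t) : HasDerivAt (φ1 ε) (φ2 ε t) t := by
  unfold φ1 φ2
  have h1 : HasDerivAt (fun s : ℝ => 1 / (1 + s)) (-(1 / (1 + t) ^ 2)) t := by
    have h0 : HasDerivAt (fun s : ℝ => 1 + s) 1 t := by
      simpa using (hasDerivAt_id t).const_add 1
    have h4 : HasDerivAt (fun s : ℝ => (1 + s)⁻¹) (-1 / (1 + t) ^ 2) t :=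
      h0.inv (by linarith)
    simp only [one_div]
    exact h4.congr_deriv (by rw [neg_div, one_div])
  have h3 : HasDerivAt (fun s : ℝ => ε * s ^ 2) (2 * ε * t) t :=
    ((hasDerivAt_pow 2 t).const_mul ε).congr_deriv (by norm_num; ring)
  exact (((h1.sub_const 1).add (hasDerivAt_id t)).sub h3).congr_deriv (by ring)

/-- bounds -/
theorem bd1 {e : ℕ} (he : e = 0 ∨ e = 1) {t : ℝ} (ht : 0 ≤ t) :
    |φ1 e t| ≤ t ^ (e + 1) ∧ |φ1 e t| ≤ t ^ (e + 2) := by
  rcases he with rfl | rfl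
  · have e1 : φ1 ((0 : ℕ) : ℝ) t = t ^ 2 / (1 + t) := by
      unfold φ1; field_simp; push_cast; ring
    rw [e1, abs_of_nonneg (by positivity)]
    constructor
    · rw [div_le_iff₀ (by positivity)]; ring_nf; nlinarith
    · rw [div_le_iff₀ (by positivity)]; ring_nf; nlinarith [pow_nonneg ht 3]
  · have e1 : φ1 ((1 : ℕ) : ℝ) t = -(t ^ 3 / (1 + t)) := by
      unfold φ1; field_simp; push_cast; ring
    rw [e1, abs_neg, abs_of_nonneg (by positivity)]
    constructor
    · rw [div_le_iff₀ (by positivity)]; ring_nf; nlinarith [pow_nonneg ht 2]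
    · rw [div_le_iff₀ (by positivity)]; ring_nf; nlinarith [pow_nonneg ht 4]

theorem bd2 {e : ℕ} (he : e = 0 ∨ e = 1) {t : ℝ} (ht : 0 ≤ t) :
    |φ2 e t| ≤ 3 * t ^ e ∧ |φ2 e t| ≤ 3 * t ^ (e + 1) := by
  rcases he with rfl | rfl
  · have e1 : φ2 ((0 : ℕ) : ℝ) t = (2 * t + t ^ 2) / (1 + t) ^ 2 := by
      unfold φ2; field_simp; push_cast; ring
    rw [e1, abs_of_nonneg (by positivity)]
    constructor
    · rw [div_le_iff₀ (by positivity)]; ring_nf; nlinarith [pow_nonneg ht 2]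
    · rw [div_le_iff₀ (by positivity)]; ring_nf; nlinarith [pow_nonneg ht 3, pow_nonneg ht 2]
  · have e1 : φ2 ((1 : ℕ) : ℝ) t = -(t ^ 2 * (3 + 2 * t) / (1 + t) ^ 2) := by
      unfold φ2; field_simp; push_cast; ring
    rw [e1, abs_neg, abs_of_nonneg (by positivity)]
    constructor
    · rw [div_le_iff₀ (by positivity)]; ring_nf; nlinarith [pow_nonneg ht 2, pow_nonneg ht 3]
    · rw [div_le_iff₀ (by positivity)]; ring_nf
      nlinarith [pow_nonneg ht 3, pow_nonneg ht 4, pow_nonneg ht 2]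

theorem bd0 {e : ℕ} (he : e = 0 ∨ e = 1) {t : ℝ} (ht : 0 ≤ t) :
    |φ0 e t| ≤ t ^ (e + 2) ∧ |φ0 e t| ≤ t ^ (e + 3) := by
  have h00 : φ0 e 0 = 0 := by simp [φ0]
  have key : ∀ C : ℝ, (∀ s ∈ Icc (0 : ℝ) t, |φ1 e s| ≤ C) → |φ0 e t| ≤ C * t := by
    intro C hC
    have := Convex.norm_image_sub_le_of_norm_hasDerivWithin_le (𝕜 := ℝ) (f := φ0 e) (f' := φ1 e)
      (C := C) (s := Icc (0 : ℝ) t) (x := 0) (y := t)
      (fun s hs => (hd0 e (by linarith [hs.1])).hasDerivWithinAt)
      (fun s hs => by rw [Real.norm_eq_abs]; exact hC s hs) (convex_Icc 0 t)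
      ⟨le_refl _, ht⟩ ⟨ht, le_refl _⟩
    rw [h00, sub_zero, sub_zero, Real.norm_eq_abs, Real.norm_eq_abs, abs_of_nonneg ht] at this
    exact this
  constructor
  · have := key (t ^ (e + 1)) fun s hs => (bd1 he hs.1).1.trans
      (pow_le_pow_left₀ hs.1 hs.2 _)
    rwa [← pow_succ] at this
  · have := key (t ^ (e + 2)) fun s hs => (bd1 he hs.1).2.trans
      (pow_le_pow_left₀ hs.1 hs.2 _)
    rwa [← pow_succ] at this

/-- all constants -/
theorem consts {e : ℕ} (he : e = 0 ∨ e = 1) {α : ℝ} (h1 : (e : ℝ) + 2 < α) (h2 : α < e + 3) :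
    ∃ C : ℝ, C * (α - 3) < 0 ∧
      IntegrableOn (fun r : ℝ => r ^ (α - 1) * φ0 e (1 / r)) (Ioi 0) ∧
      ∫ r in Ioi (0 : ℝ), r ^ (α - 1) * φ0 e (1 / r) = C ∧
      IntegrableOn (fun r : ℝ => r ^ (α - 1 - 1) * φ1 e (1 / r)) (Ioi 0) ∧
      ∫ r in Ioi (0 : ℝ), r ^ (α - 1 - 1) * φ1 e (1 / r) = α * C ∧
      IntegrableOn (fun r : ℝ => r ^ (α - 1 - 1 - 1) * φ2 e (1 / r)) (Ioi 0) ∧
      ∫ r in Ioi (0 : ℝ), r ^ (α - 1 - 1 - 1) * φ2 e (1 / r) = (α - 1) * (α * C) := by
  have c0 : ContinuousOn (φ0 e) (Ioi 0) := fun t ht =>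
    (hd0 e (lt_trans (by norm_num) ht)).continuousAt.continuousWithinAt
  have c1 : ContinuousOn (φ1 e) (Ioi 0) := fun t ht =>
    (hd1 e (lt_trans (by norm_num) ht)).continuousAt.continuousWithinAt
  have c2 : ContinuousOn (φ2 e) (Ioi 0) := by
    intro t ht
    have ht0 : 0 < t := ht
    apply ContinuousAt.continuousWithinAt
    unfold φ2
    apply ContinuousAt.sub (by fun_prop)
    apply ContinuousAt.div continuousAt_const (by fun_prop)
    positivity
  have i0 : IntegrableOn (fun r : ℝ => r ^ (α - 1) * φ0 e (1 / r)) (Ioi 0) :=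
    gen_int (K := 1) (p := e + 2) (q := e + 3) c0
      (fun t ht => by rw [one_mul]; exact (bd0 he (by linarith)).1)
      (fun t ht _ => by rw [one_mul]; exact (bd0 he ht.le).2) (by push_cast; exact h1)
      (by push_cast; exact h2)
  have i1 : IntegrableOn (fun r : ℝ => r ^ (α - 1 - 1) * φ1 e (1 / r)) (Ioi 0) :=
    gen_int (K := 1) (p := e + 1) (q := e + 2) c1
      (fun t ht => by rw [one_mul]; exact (bd1 he (by linarith)).1)
      (fun t ht _ => by rw [one_mul]; exact (bd1 he ht.le).2) (by push_cast; linarith)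
      (by push_cast; linarith)
  have i2 : IntegrableOn (fun r : ℝ => r ^ (α - 1 - 1 - 1) * φ2 e (1 / r)) (Ioi 0) :=
    gen_int (K := 3) (p := e) (q := e + 1) c2
      (fun t ht => (bd2 he (by linarith)).1)
      (fun t ht _ => (bd2 he ht.le).2) (by linarith)
      (by push_cast; linarith)
  have j1 := gen_ibp (F := φ0 e) (F' := φ1 e) (β := α) (K := 1) (p := e + 2) (q := e + 3)
    (fun t ht => hd0 e (by linarith))
    (fun t ht => by rw [one_mul]; exact (bd0 he (by linarith)).1)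
    (fun t ht _ => by rw [one_mul]; exact (bd0 he ht.le).2) (by push_cast; exact h1)
    (by push_cast; exact h2) i1
  have j2 := gen_ibp (F := φ1 e) (F' := φ2 e) (β := α - 1) (K := 1) (p := e + 1) (q := e + 2)
    (fun t ht => hd1 e (by linarith))
    (fun t ht => by rw [one_mul]; exact (bd1 he (by linarith)).1)
    (fun t ht _ => by rw [one_mul]; exact (bd1 he ht.le).2) (by push_cast; linarith)
    (by push_cast; linarith) i2
  refine ⟨∫ r in Ioi (0 : ℝ), r ^ (α - 1) * φ0 e (1 / r), ?_, i0, rfl, i1, j1, i2, ?_⟩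
  · have hα : 0 < α := by
      have : (0 : ℝ) ≤ e := Nat.cast_nonneg e
      linarith
    have hC : ∫ r in Ioi (0 : ℝ), r ^ (α - 1) * φ0 e (1 / r) =
        (∫ r in Ioi (0 : ℝ), r ^ (α - 1 - 1) * φ1 e (1 / r)) / α := by
      rw [j1, mul_div_cancel_left₀ _ hα.ne']
    rw [hC, div_mul_eq_mul_div]
    apply div_neg_of_neg_of_pos _ hα
    rcases he with rfl | rfl
    · apply mul_neg_of_pos_of_neg
      · apply pos_integral _ i1
        intro r hr
        have e1 : φ1 ((0 : ℕ) : ℝ) (1 / r) = (1 / r) ^ 2 / (1 + 1 / r) := by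
          unfold φ1; field_simp; push_cast; ring
        rw [e1]
        positivity
      · push_cast at h2; linarith
    · apply mul_neg_of_neg_of_pos
      · have := pos_integral (f := fun r : ℝ => -(r ^ (α - 1 - 1) * φ1 ((1 : ℕ) : ℝ) (1 / r)))
          (by
            intro r hr
            have e1 : φ1 ((1 : ℕ) : ℝ) (1 / r) = -((1 / r) ^ 3 / (1 + 1 / r)) := by
              unfold φ1; field_simp; push_cast; ring
            rw [e1, mul_neg, neg_neg]
            positivity) i1.neg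
        rw [integral_neg] at this
        linarith
      · push_cast at h1; linarith
  · rw [j2, j1]

end Pool.Agent.RC.S24
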