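import Pool.Agent.Lib_helper92.RC.Dec24

open scoped BigOperators ComplexOrder Kronecker MatrixOrder Topology
open MeasureTheory Set Matrix Filter

namespace Pool.Agent.RC.S24

open SER DEC

noncomputable def yy (a t : ℝ) : ℝ := 1 / (1 + a * t)

noncomputable def FF (ε a b t : ℝ) : ℝ := t ^ 2 - ε * (a + b) * t ^ 3 - t ^ 2 * (yy a t * yy b t)

noncomputable def UU (ε a b t : ℝ) : ℝ :=
  ε * (a + b) * t ^ 3 - t ^ 2 * (yy a t * yy b t * (2 - yy a t - yy b t))

theorem yy_deriv {a t : ℝ} (h : 0 < 1 + a * t) : HasDerivAt (yy a) (-a * yy a t ^ 2) t := by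
  unfold yy
  have h0 : HasDerivAt (fun s : ℝ => 1 + a * s) a t := by
    simpa using ((hasDerivAt_id t).const_mul a).const_add 1
  have h4 : HasDerivAt (fun s : ℝ => (1 + a * s)⁻¹) (-a / (1 + a * t) ^ 2) t :=
    h0.inv h.ne'
  simp only [one_div]
  exact h4.congr_deriv (by field_simp)

theorem FF_deriv {ε a b t : ℝ} (ha : 0 < 1 + a * t) (hb : 0 < 1 + b * t) :
    HasDerivAt (FF ε a b) (2 * t - 3 * (ε * (a + b)) * t ^ 2 - (2 * t * (yy a t * yy b t) +
      t ^ 2 * (-a * yy a t ^ 2 * yy b t + yy a t * (-b * yy b t ^ 2)))) t := by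
  unfold FF
  have h1 : HasDerivAt (fun s : ℝ => s ^ 2) (2 * t) t :=
    (hasDerivAt_pow 2 t).congr_deriv (by norm_num)
  have h2 : HasDerivAt (fun s : ℝ => ε * (a + b) * s ^ 3) (3 * (ε * (a + b)) * t ^ 2) t :=
    ((hasDerivAt_pow 3 t).const_mul (ε * (a + b))).congr_deriv (by norm_num; ring)
  exact (h1.sub h2).sub (h1.mul ((yy_deriv ha).mul (yy_deriv hb)))

theorem UU_deriv {ε a b t : ℝ} (ha : 0 < 1 + a * t) (hb : 0 < 1 + b * t) :
    HasDerivAt (UU ε a b) (3 * (ε * (a + b)) * t ^ 2 -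
      (2 * t * (yy a t * yy b t * (2 - yy a t - yy b t)) +
      t ^ 2 * ((-a * yy a t ^ 2 * yy b t + yy a t * (-b * yy b t ^ 2)) * (2 - yy a t - yy b t) +
        yy a t * yy b t * (0 - (-a * yy a t ^ 2) - (-b * yy b t ^ 2))))) t := by
  unfold UU
  have h1 : HasDerivAt (fun s : ℝ => s ^ 2) (2 * t) t :=
    (hasDerivAt_pow 2 t).congr_deriv (by norm_num)
  have h2 : HasDerivAt (fun s : ℝ => ε * (a + b) * s ^ 3) (3 * (ε * (a + b)) * t ^ 2) t :=
    ((hasDerivAt_pow 3 t).const_mul (ε * (a + b))).congr_deriv (by norm_num; ring)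
  have h3 : HasDerivAt (fun s : ℝ => 2 - yy a s - yy b s)
      (0 - (-a * yy a t ^ 2) - (-b * yy b t ^ 2)) t :=
    ((hasDerivAt_const t (2 : ℝ)).sub (yy_deriv ha)).sub (yy_deriv hb)
  exact h2.sub (h1.mul (((yy_deriv ha).mul (yy_deriv hb)).mul h3))

theorem key_id {ε a b r α : ℝ} (ha : 0 < a) (hb : 0 < b) (hr : 0 < r) :
    (3 - α) * (2 * (1 / r) - 3 * (ε * (a + b)) * (1 / r) ^ 2 -
      (2 * (1 / r) * (yy a (1 / r) * yy b (1 / r)) +
      (1 / r) ^ 2 * (-a * yy a (1 / r) ^ 2 * yy b (1 / r) +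
        yy a (1 / r) * (-b * yy b (1 / r) ^ 2)))) +
    (3 * (ε * (a + b)) * (1 / r) ^ 2 -
      (2 * (1 / r) * (yy a (1 / r) * yy b (1 / r) * (2 - yy a (1 / r) - yy b (1 / r))) +
      (1 / r) ^ 2 * ((-a * yy a (1 / r) ^ 2 * yy b (1 / r) +
        yy a (1 / r) * (-b * yy b (1 / r) ^ 2)) * (2 - yy a (1 / r) - yy b (1 / r)) +
        yy a (1 / r) * yy b (1 / r) * (0 - (-a * yy a (1 / r) ^ 2) - (-b * yy b (1 / r) ^ 2)))))
    = r * ((3 - α) * (2 * FF ε a b (1 / r) - UU ε a b (1 / r)) + 3 * UU ε a b (1 / r) +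
      2 * kq a b r) := by
  have e1 : ∀ x : ℝ, 0 < x → yy x (1 / r) = r / (x + r) := by
    intro x hx
    unfold yy
    field_simp
    ring
  unfold FF UU kq
  rw [e1 a ha, e1 b hb]
  field_simp
  ring

/-- bounds for `1 - yy` -/
theorem kk_bd {a t : ℝ} (ha : 0 < a) (ht : 0 ≤ t) :
    0 < yy a t ∧ yy a t ≤ 1 ∧ 0 ≤ 1 - yy a t ∧ 1 - yy a t ≤ a * t := by
  have h1 : 0 < 1 + a * t := by positivity
  unfold yy
  refine ⟨by positivity, ?_, ?_, ?_⟩
  · rw [div_le_one h1]; nlinarith [mul_nonneg ha.le ht]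
  · rw [sub_nonneg, div_le_one h1]; nlinarith [mul_nonneg ha.le ht]
  · have : 1 - 1 / (1 + a * t) = a * t / (1 + a * t) := by field_simp; ring
    rw [this]
    apply div_le_self (by positivity)
    nlinarith [mul_nonneg ha.le ht]

theorem kk_bd2 {a t : ℝ} (ha : 0 < a) (ht : 0 ≤ t) :
    0 ≤ a * t - (1 - yy a t) ∧ a * t - (1 - yy a t) ≤ a ^ 2 * t ^ 2 := by
  have h1 : 0 < 1 + a * t := by positivity
  have : a * t - (1 - yy a t) = a ^ 2 * t ^ 2 / (1 + a * t) := by unfold yy; field_simp; ring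
  rw [this]
  refine ⟨by positivity, ?_⟩
  apply div_le_self (by positivity)
  nlinarith [mul_nonneg ha.le ht]

theorem FF_bd {e : ℕ} (he : e = 0 ∨ e = 1) {a b : ℝ} (ha : 0 < a) (hb : 0 < b) :
    ∃ K : ℝ, (∀ t, 1 ≤ t → |FF e a b t| ≤ K * t ^ (e + 2)) ∧
      (∀ t, 0 < t → t ≤ 1 → |FF e a b t| ≤ K * t ^ (e + 3)) := by
  rcases he with rfl | rfl
  · refine ⟨1 + a + b, fun t ht => ?_, fun t ht _ => ?_⟩
    · obtain ⟨x0, x1, x2, x3⟩ := kk_bd ha (by linarith : (0 : ℝ) ≤ t)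
      obtain ⟨y0, y1, y2, y3⟩ := kk_bd hb (by linarith : (0 : ℝ) ≤ t)
      have e1 : FF ((0 : ℕ) : ℝ) a b t = t ^ 2 * (1 - yy a t * yy b t) := by
        unfold FF; push_cast; ring
      have h1 : yy a t * yy b t ≤ 1 := mul_le_one₀ x1 y0.le y1
      have h2 : 0 < yy a t * yy b t := by positivity
      rw [e1, abs_of_nonneg (mul_nonneg (by positivity) (by linarith))]
      have h3 : 1 - yy a t * yy b t ≤ 1 + a + b := by linarith
      calc t ^ 2 * (1 - yy a t * yy b t) ≤ t ^ 2 * (1 + a + b) := by gcongr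
        _ = _ := by ring
    · obtain ⟨x0, x1, x2, x3⟩ := kk_bd ha ht.le
      obtain ⟨y0, y1, y2, y3⟩ := kk_bd hb ht.le
      have e1 : FF ((0 : ℕ) : ℝ) a b t = t ^ 2 * (1 - yy a t * yy b t) := by
        unfold FF; push_cast; ring
      have h1 : yy a t * yy b t ≤ 1 := mul_le_one₀ x1 y0.le y1
      rw [e1, abs_of_nonneg (mul_nonneg (by positivity) (by linarith))]
      have h3 : 1 - yy a t * yy b t ≤ (1 + a + b) * t := by
        have : 1 - yy a t * yy b t = (1 - yy a t) + yy a t * (1 - yy b t) := by ring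
        have h4 : yy a t * (1 - yy b t) ≤ 1 * (b * t) := mul_le_mul x1 y3 y2 zero_le_one
        nlinarith
      calc t ^ 2 * (1 - yy a t * yy b t) ≤ t ^ 2 * ((1 + a + b) * t) := by gcongr
        _ = _ := by ring
  · refine ⟨(1 + a + b) ^ 2, fun t ht => ?_, fun t ht _ => ?_⟩
    · obtain ⟨x0, x1, x2, x3⟩ := kk_bd ha (by linarith : (0 : ℝ) ≤ t)
      obtain ⟨y0, y1, y2, y3⟩ := kk_bd hb (by linarith : (0 : ℝ) ≤ t)
      obtain ⟨x4, x5⟩ := kk_bd2 ha (by linarith : (0 : ℝ) ≤ t)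
      obtain ⟨y4, y5⟩ := kk_bd2 hb (by linarith : (0 : ℝ) ≤ t)
      have e1 : FF ((1 : ℕ) : ℝ) a b t = -(t ^ 2 * ((a * t - (1 - yy a t)) +
          (b * t - (1 - yy b t)) + (1 - yy a t) * (1 - yy b t))) := by
        unfold FF; push_cast; ring
      have h0 : 0 ≤ (a * t - (1 - yy a t)) +
          (b * t - (1 - yy b t)) + (1 - yy a t) * (1 - yy b t) := by positivity
      rw [e1, abs_neg, abs_of_nonneg (by positivity)]
      have h3 : (a * t - (1 - yy a t)) +
          (b * t - (1 - yy b t)) + (1 - yy a t) * (1 - yy b t) ≤ (1 + a + b) ^ 2 * t := by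
        have h4 : (1 - yy a t) * (1 - yy b t) ≤ 1 * 1 :=
          mul_le_mul (by linarith) (by linarith) y2 zero_le_one
        have h5 : (1 + a + b) * t ≤ (1 + a + b) ^ 2 * t := by
          apply mul_le_mul_of_nonneg_right _ (by linarith)
          nlinarith
        nlinarith
      calc t ^ 2 * _ ≤ t ^ 2 * ((1 + a + b) ^ 2 * t) := by gcongr
        _ = _ := by ring
    · obtain ⟨x0, x1, x2, x3⟩ := kk_bd ha ht.le
      obtain ⟨y0, y1, y2, y3⟩ := kk_bd hb ht.le
      obtain ⟨x4, x5⟩ := kk_bd2 ha ht.le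
      obtain ⟨y4, y5⟩ := kk_bd2 hb ht.le
      have e1 : FF ((1 : ℕ) : ℝ) a b t = -(t ^ 2 * ((a * t - (1 - yy a t)) +
          (b * t - (1 - yy b t)) + (1 - yy a t) * (1 - yy b t))) := by
        unfold FF; push_cast; ring
      have h0 : 0 ≤ (a * t - (1 - yy a t)) +
          (b * t - (1 - yy b t)) + (1 - yy a t) * (1 - yy b t) := by positivity
      rw [e1, abs_neg, abs_of_nonneg (by positivity)]
      have h3 : (a * t - (1 - yy a t)) +
          (b * t - (1 - yy b t)) + (1 - yy a t) * (1 - yy b t) ≤ (1 + a + b) ^ 2 * t ^ 2 := by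
        have h4 : (1 - yy a t) * (1 - yy b t) ≤ (a * t) * (b * t) :=
          mul_le_mul x3 y3 y2 (by positivity)
        have h5 : a ^ 2 * t ^ 2 + b ^ 2 * t ^ 2 + (a * t) * (b * t) ≤ (1 + a + b) ^ 2 * t ^ 2 := by
          have : a ^ 2 + b ^ 2 + a * b ≤ (1 + a + b) ^ 2 := by nlinarith
          nlinarith [mul_le_mul_of_nonneg_right this (sq_nonneg t)]
        linarith
      calc t ^ 2 * _ ≤ t ^ 2 * ((1 + a + b) ^ 2 * t ^ 2) := by gcongr
        _ = _ := by ring

theorem UU_bd {e : ℕ} (he : e = 0 ∨ e = 1) {a b : ℝ} (ha : 0 < a) (hb : 0 < b) :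
    ∃ K : ℝ, (∀ t, 1 ≤ t → |UU e a b t| ≤ K * t ^ (e + 2)) ∧
      (∀ t, 0 < t → t ≤ 1 → |UU e a b t| ≤ K * t ^ (e + 3)) := by
  rcases he with rfl | rfl
  · refine ⟨2 + a + b, fun t ht => ?_, fun t ht _ => ?_⟩
    · obtain ⟨x0, x1, x2, x3⟩ := kk_bd ha (by linarith : (0 : ℝ) ≤ t)
      obtain ⟨y0, y1, y2, y3⟩ := kk_bd hb (by linarith : (0 : ℝ) ≤ t)
      have e1 : UU ((0 : ℕ) : ℝ) a b t =
          -(t ^ 2 * (yy a t * yy b t * ((1 - yy a t) + (1 - yy b t)))) := by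
        unfold UU; push_cast; ring
      have h1 : yy a t * yy b t ≤ 1 := mul_le_one₀ x1 y0.le y1
      rw [e1, abs_neg, abs_of_nonneg (by positivity)]
      have h3 : yy a t * yy b t * ((1 - yy a t) + (1 - yy b t)) ≤ 1 * (2 + a + b) :=
        mul_le_mul h1 (by linarith) (by linarith) zero_le_one
      calc t ^ 2 * _ ≤ t ^ 2 * (1 * (2 + a + b)) := by gcongr
        _ = _ := by ring
    · obtain ⟨x0, x1, x2, x3⟩ := kk_bd ha ht.le
      obtain ⟨y0, y1, y2, y3⟩ := kk_bd hb ht.le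
      have e1 : UU ((0 : ℕ) : ℝ) a b t =
          -(t ^ 2 * (yy a t * yy b t * ((1 - yy a t) + (1 - yy b t)))) := by
        unfold UU; push_cast; ring
      have h1 : yy a t * yy b t ≤ 1 := mul_le_one₀ x1 y0.le y1
      rw [e1, abs_neg, abs_of_nonneg (by positivity)]
      have h3 : yy a t * yy b t * ((1 - yy a t) + (1 - yy b t)) ≤ 1 * ((2 + a + b) * t) :=
        mul_le_mul h1 (by nlinarith) (by linarith) zero_le_one
      calc t ^ 2 * _ ≤ t ^ 2 * (1 * ((2 + a + b) * t)) := by gcongr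
        _ = _ := by ring
  · refine ⟨2 * (2 + a + b) ^ 2, fun t ht => ?_, fun t ht _ => ?_⟩
    · obtain ⟨x0, x1, x2, x3⟩ := kk_bd ha (by linarith : (0 : ℝ) ≤ t)
      obtain ⟨y0, y1, y2, y3⟩ := kk_bd hb (by linarith : (0 : ℝ) ≤ t)
      have e1 : UU ((1 : ℕ) : ℝ) a b t =
          t ^ 2 * ((a + b) * t - yy a t * yy b t * ((1 - yy a t) + (1 - yy b t))) := by
        unfold UU; push_cast; ring
      have h1 : yy a t * yy b t ≤ 1 := mul_le_one₀ x1 y0.le y1
      have h2 : yy a t * yy b t * ((1 - yy a t) + (1 - yy b t)) ≤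
          1 * ((1 - yy a t) + (1 - yy b t)) := by gcongr
      have h2' : 0 ≤ yy a t * yy b t * ((1 - yy a t) + (1 - yy b t)) := by positivity
      have h0 : 0 ≤ (a + b) * t - yy a t * yy b t * ((1 - yy a t) + (1 - yy b t)) := by
        linarith
      rw [e1, abs_of_nonneg (by positivity)]
      have h3 : (a + b) * t - yy a t * yy b t * ((1 - yy a t) + (1 - yy b t)) ≤
          (2 * (2 + a + b) ^ 2) * t := by
        have : (a + b) * t ≤ (2 * (2 + a + b) ^ 2) * t := by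
          apply mul_le_mul_of_nonneg_right _ (by linarith)
          nlinarith
        linarith
      calc t ^ 2 * _ ≤ t ^ 2 * ((2 * (2 + a + b) ^ 2) * t) := by gcongr
        _ = _ := by ring
    · obtain ⟨x0, x1, x2, x3⟩ := kk_bd ha ht.le
      obtain ⟨y0, y1, y2, y3⟩ := kk_bd hb ht.le
      obtain ⟨x4, x5⟩ := kk_bd2 ha ht.le
      obtain ⟨y4, y5⟩ := kk_bd2 hb ht.le
      have e1 : UU ((1 : ℕ) : ℝ) a b t =
          t ^ 2 * ((a + b) * t - yy a t * yy b t * ((1 - yy a t) + (1 - yy b t))) := by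
        unfold UU; push_cast; ring
      have h1 : yy a t * yy b t ≤ 1 := mul_le_one₀ x1 y0.le y1
      have h2 : yy a t * yy b t * ((1 - yy a t) + (1 - yy b t)) ≤
          1 * ((1 - yy a t) + (1 - yy b t)) := by gcongr
      have h0 : 0 ≤ (a + b) * t - yy a t * yy b t * ((1 - yy a t) + (1 - yy b t)) := by
        linarith
      rw [e1, abs_of_nonneg (by positivity)]
      have h3 : (a + b) * t - yy a t * yy b t * ((1 - yy a t) + (1 - yy b t)) ≤
          (2 * (2 + a + b) ^ 2) * t ^ 2 := by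
        have e2 : (a + b) * t - yy a t * yy b t * ((1 - yy a t) + (1 - yy b t)) =
            (a * t - (1 - yy a t)) + (b * t - (1 - yy b t)) +
            ((1 - yy a t) + yy a t * (1 - yy b t)) * ((1 - yy a t) + (1 - yy b t)) := by ring
        have h4 : yy a t * (1 - yy b t) ≤ 1 * (b * t) := mul_le_mul x1 y3 y2 zero_le_one
        have h5 : ((1 - yy a t) + yy a t * (1 - yy b t)) * ((1 - yy a t) + (1 - yy b t)) ≤
            ((a + b) * t) * ((a + b) * t) := by
          apply mul_le_mul (by nlinarith) (by nlinarith) (by linarith) (by positivity)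
        have h6 : a ^ 2 * t ^ 2 + b ^ 2 * t ^ 2 + ((a + b) * t) * ((a + b) * t) ≤
            (2 * (2 + a + b) ^ 2) * t ^ 2 := by
          have : a ^ 2 + b ^ 2 + (a + b) ^ 2 ≤ 2 * (2 + a + b) ^ 2 := by nlinarith
          nlinarith [mul_le_mul_of_nonneg_right this (sq_nonneg t)]
        linarith
      calc t ^ 2 * _ ≤ t ^ 2 * ((2 * (2 + a + b) ^ 2) * t ^ 2) := by gcongr
        _ = _ := by ring

theorem int_comb {f u q : ℝ → ℝ} {S : Set ℝ} (hf : IntegrableOn f S) (hu : IntegrableOn u S)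
    (hq : IntegrableOn q S) (c1 c2 c3 : ℝ) :
    IntegrableOn (fun r => c1 * f r + c2 * u r + c3 * q r) S ∧
    ∫ r in S, (c1 * f r + c2 * u r + c3 * q r) =
      c1 * (∫ r in S, f r) + c2 * (∫ r in S, u r) + c3 * ∫ r in S, q r := by
  have h1 : IntegrableOn (fun r => c1 * f r + c2 * u r) S :=
    (hf.const_mul c1).add (hu.const_mul c2)
  refine ⟨h1.add (hq.const_mul c3), ?_⟩
  have e1 : ∫ r in S, (c1 * f r + c2 * u r + c3 * q r) =
      (∫ r in S, (c1 * f r + c2 * u r)) + ∫ r in S, c3 * q r :=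
    integral_add h1 (hq.const_mul c3)
  have e2 : ∫ r in S, (c1 * f r + c2 * u r) = (∫ r in S, c1 * f r) + ∫ r in S, c2 * u r :=
    integral_add (hf.const_mul c1) (hu.const_mul c2)
  rw [e1, e2, integral_const_mul, integral_const_mul, integral_const_mul]

theorem scalar_main {e : ℕ} (he : e = 0 ∨ e = 1) {α : ℝ} (h1 : (e : ℝ) + 2 < α) (h2 : α < e + 3)
    {a b : ℝ} (ha : 0 < a) (hb : 0 < b) :
    IntegrableOn (fun r : ℝ => r ^ (α - 1) * FF e a b (1 / r)) (Ioi 0) ∧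
    (3 - α) * (α - 2) * ∫ r in Ioi (0 : ℝ), r ^ (α - 1) * FF e a b (1 / r) =
      2 * ∫ r in Ioi (0 : ℝ), r ^ (α - 1) * kq a b r := by
  have he0 : (0 : ℝ) ≤ e := Nat.cast_nonneg e
  have he1 : (e : ℝ) ≤ 1 := by
    rcases he with rfl | rfl <;> norm_num
  obtain ⟨K, hK1, hK2⟩ := FF_bd he ha hb
  obtain ⟨L, hL1, hL2⟩ := UU_bd he ha hb
  have hpos : ∀ x, 0 < x → ∀ t : ℝ, 0 < t → 0 < 1 + x * t := fun x hx t ht => by positivity
  have cF : ContinuousOn (FF e a b) (Ioi 0) := fun t ht =>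
    (FF_deriv (hpos a ha t ht) (hpos b hb t ht)).continuousAt.continuousWithinAt
  have cU : ContinuousOn (UU e a b) (Ioi 0) := fun t ht =>
    (UU_deriv (hpos a ha t ht) (hpos b hb t ht)).continuousAt.continuousWithinAt
  have iF := gen_int (p := e + 2) (q := e + 3) cF hK1 hK2 (by push_cast; exact h1)
    (by push_cast; exact h2)
  have iU := gen_int (p := e + 2) (q := e + 3) cU hL1 hL2 (by push_cast; exact h1)
    (by push_cast; exact h2)
  have iq := S24.integrableOn_kq (α := α) (by linarith) (by linarith) ha hb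
  refine ⟨iF, ?_⟩
  set G : ℝ → ℝ := fun t => (3 - α) * FF e a b t + UU e a b t with hG
  set G' : ℝ → ℝ := fun t => (3 - α) * (2 * t - 3 * ((e : ℝ) * (a + b)) * t ^ 2 -
        (2 * t * (yy a t * yy b t) +
      t ^ 2 * (-a * yy a t ^ 2 * yy b t + yy a t * (-b * yy b t ^ 2)))) +
      (3 * ((e : ℝ) * (a + b)) * t ^ 2 -
      (2 * t * (yy a t * yy b t * (2 - yy a t - yy b t)) +
      t ^ 2 * ((-a * yy a t ^ 2 * yy b t + yy a t * (-b * yy b t ^ 2)) * (2 - yy a t - yy b t) +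
        yy a t * yy b t * (0 - (-a * yy a t ^ 2) - (-b * yy b t ^ 2))))) with hG'
  have hGd : ∀ t, 0 < t → HasDerivAt G (G' t) t := fun t ht =>
    ((FF_deriv (ε := (e : ℝ)) (hpos a ha t ht) (hpos b hb t ht)).const_mul (3 - α)).add
      (UU_deriv (ε := (e : ℝ)) (hpos a ha t ht) (hpos b hb t ht))
  obtain ⟨c1, c2⟩ := int_comb iF iU iq (2 * (3 - α)) α 2
  obtain ⟨d1, d2⟩ := int_comb iF iU iq (3 - α) 1 0
  have hconv : ∀ r ∈ Ioi (0 : ℝ), 2 * (3 - α) * (r ^ (α - 1) * FF e a b (1 / r)) +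
      α * (r ^ (α - 1) * UU e a b (1 / r)) + 2 * (r ^ (α - 1) * kq a b r) =
      r ^ (α - 1 - 1) * G' (1 / r) := by
    intro r hr
    have hr0 : 0 < r := hr
    have := key_id (ε := (e : ℝ)) (α := α) ha hb hr0
    simp only [hG']
    rw [this]
    have h3 : r ^ (α - 1) = r ^ (α - 1 - 1) * r := by
      rw [← Real.rpow_add_one hr0.ne']; congr 1; ring
    rw [h3]
    ring
  have hint' : IntegrableOn (fun r : ℝ => r ^ (α - 1 - 1) * G' (1 / r)) (Ioi 0) :=
    c1.congr_fun hconv measurableSet_Ioi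
  have key := gen_ibp (F := G) (F' := G') (β := α) (K := |3 - α| * K + L)
    (p := e + 2) (q := e + 3) hGd
    (fun t ht => by
      simp only [hG]
      refine (abs_add_le _ _).trans ?_
      rw [abs_mul]
      have := hK1 t ht
      have := hL1 t ht
      calc |3 - α| * |FF e a b t| + |UU e a b t| ≤
          |3 - α| * (K * t ^ (e + 2)) + L * t ^ (e + 2) := by gcongr
        _ = _ := by ring)
    (fun t ht ht1 => by
      simp only [hG]
      refine (abs_add_le _ _).trans ?_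
      rw [abs_mul]
      have := hK2 t ht ht1
      have := hL2 t ht ht1
      calc |3 - α| * |FF e a b t| + |UU e a b t| ≤
          |3 - α| * (K * t ^ (e + 3)) + L * t ^ (e + 3) := by gcongr
        _ = _ := by ring)
    (by push_cast; exact h1) (by push_cast; exact h2) hint'
  have e1 : ∫ r in Ioi (0 : ℝ), r ^ (α - 1) * G (1 / r) =
      ∫ r in Ioi (0 : ℝ), ((3 - α) * (r ^ (α - 1) * FF e a b (1 / r)) +
        1 * (r ^ (α - 1) * UU e a b (1 / r)) + 0 * (r ^ (α - 1) * kq a b r)) := by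
    apply setIntegral_congr_fun measurableSet_Ioi
    intro r _
    simp only [hG]
    ring
  rw [← setIntegral_congr_fun measurableSet_Ioi hconv, c2, e1, d2] at key
  linarith

end Pool.Agent.RC.S24
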